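import Pool.Agent.H19.Rado.Main
import Pool.Agent.H19.RH.Back

set_option autoImplicit false
open Set Metric Filter Topology Complex
open scoped Real ComplexConjugate

/-! Convergence of the cross ratio `lam` of the four marks of rescaled lattice polygons. -/

namespace Pool.Agent.H19.Rado

open Pool.Agent.Q1.M4
open Pool.Agent.H69.Car (IsHalf HC HO)
open Pool.Agent.H19.RH

/-- the affine homeomorphism `z ↦ ε z + c` -/
noncomputable def aff (ε : ℝ) (hε : ε ≠ 0) (c : ℂ) : ℂ ≃ₜ ℂ :=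
  (Homeomorph.mulLeft₀ (ε : ℂ) (ofReal_ne_zero.2 hε)).trans (Homeomorph.addRight c)

lemma aff_apply (ε : ℝ) (hε : ε ≠ 0) (c z : ℂ) : aff ε hε c z = ε * z + c := rfl

/-- Affine change of the domain of a chart. -/
theorem half_affine {D : Set ℂ} {a b : ℂ} {φ : ℂ → ℂ} (h : IsHalf D a b φ) {ε : ℝ} (hε : 0 < ε)
    (c : ℂ) : IsHalf (aff ε hε.ne' c '' D) (ε * a + c) (ε * b + c) (fun z => ε * φ z + c) where
  cont := (continuousOn_const.mul h.cont).add continuousOn_const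
  inj := by
    intro z hz w hw hzw
    have h1 : (ε : ℂ) ≠ 0 := ofReal_ne_zero.2 hε.ne'
    have h2 : (ε : ℂ) * φ z = ε * φ w := by linear_combination hzw
    exact h.inj hz hw (mul_left_cancel₀ h1 h2)
  diff := (h.diff.const_mul _).add_const _
  image := by
    rw [← h.image, image_image]
    rfl
  zero := by rw [h.zero]
  lim := (h.lim.const_mul _).add_const _
  closure := by
    rw [← (aff ε hε.ne' c).image_closure]
    have e1 : (fun z => (ε : ℂ) * φ z + c) '' HC = aff ε hε.ne' c '' (φ '' HC) := by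
      rw [image_image]
      rfl
    have e2 : ({(ε : ℂ) * b + c} : Set ℂ) = aff ε hε.ne' c '' {b} := by
      rw [image_singleton]
      rfl
    rw [e1, e2, h.closure, image_diff (aff ε hε.ne' c).injective]

/-- the polygon on the rescaled grid -/
lemma Reg_affine (Q : Finset Cell) (x y : ℤ → ℝ) {ε : ℝ} (hε : 0 < ε) (a b : ℝ) :
    Reg Q (fun i => ε * x i + a) (fun i => ε * y i + b) = aff ε hε.ne' ⟨a, b⟩ '' Reg Q x y := by
  ext z
  constructor
  · rintro ⟨c, hc, hz⟩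
    refine ⟨(aff ε hε.ne' ⟨a, b⟩).symm z, ⟨c, hc, ?_⟩, (aff ε hε.ne' ⟨a, b⟩).apply_symm_apply z⟩
    set w := (aff ε hε.ne' ⟨a, b⟩).symm z with hw
    have e : z = ε * w + ⟨a, b⟩ := by
      rw [← aff_apply ε hε.ne' ⟨a, b⟩ w, hw, (aff ε hε.ne' ⟨a, b⟩).apply_symm_apply]
    rw [mem_rect] at hz ⊢
    rw [e] at hz
    simp only [add_re, mul_re, ofReal_re, ofReal_im, zero_mul, sub_zero, add_im, mul_im,
      add_zero] at hz
    obtain ⟨⟨h1, h2⟩, h3, h4⟩ := hz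
    refine ⟨⟨?_, ?_⟩, ?_, ?_⟩
    · exact le_of_mul_le_mul_left (by linarith) hε
    · exact le_of_mul_le_mul_left (by linarith) hε
    · exact le_of_mul_le_mul_left (by linarith) hε
    · exact le_of_mul_le_mul_left (by linarith) hε
  · rintro ⟨w, ⟨c, hc, hw⟩, rfl⟩
    refine ⟨c, hc, ?_⟩
    rw [mem_rect] at hw ⊢
    rw [aff_apply]
    simp only [add_re, mul_re, ofReal_re, ofReal_im, zero_mul, sub_zero, add_im, mul_im,
      add_zero]
    obtain ⟨⟨h1, h2⟩, h3, h4⟩ := hw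
    refine ⟨⟨?_, ?_⟩, ?_, ?_⟩
    · linarith [mul_le_mul_of_nonneg_left h1 hε.le]
    · linarith [mul_le_mul_of_nonneg_left h2 hε.le]
    · linarith [mul_le_mul_of_nonneg_left h3 hε.le]
    · linarith [mul_le_mul_of_nonneg_left h4 hε.le]

lemma Om_affine (Q : Finset Cell) (x y : ℤ → ℝ) {ε : ℝ} (hε : 0 < ε) (a b : ℝ) :
    Om Q (fun i => ε * x i + a) (fun i => ε * y i + b) = aff ε hε.ne' ⟨a, b⟩ '' Om Q x y := by
  rw [Om, Om, Reg_affine Q x y hε a b, (aff ε hε.ne' ⟨a, b⟩).image_interior]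

lemma pt_affine (x y : ℤ → ℝ) (ε a b : ℝ) (v : ℤ × ℤ) :
    pt (fun i => ε * x i + a) (fun i => ε * y i + b) v = ε * pt x y v + ⟨a, b⟩ := by
  apply Complex.ext <;> simp [pt]

/-- the preimage of a mark -/
lemma phi_cc {P : PType} {x y : ℤ → ℝ} {φ : ℂ → ℂ} (C : Cht P x y φ) {m : ℕ} (hm : m < P.N) :
    φ (cc P x y φ (P.N + m)) = pt x y (P.vert m) := by
  have hN : (0:ℝ) ≤ (m : ℝ) := Nat.cast_nonneg m
  have hm1 : (m : ℝ) + 1 ≤ P.N := by exact_mod_cast hm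
  have h1 : ((P.N + m : ℕ) : ℝ) ∈ Ioo (Cht.bt P) (Cht.bt P + P.N) := by
    push_cast
    unfold Cht.bt
    constructor <;> linarith
  have e : cc P x y φ (P.N + m) = Cht.sg P x y φ ((P.N + m : ℕ) : ℝ) := rfl
  rw [e, C.sg_spec h1, crv_eq P (n := P.N + m) le_rfl (by push_cast; linarith), sub_self,
    add_comm P.N m, sidePt_add_N, P.sidePt_zero]

lemma lam_eq_cr (P : PType) (x y : ℤ → ℝ) (m2 m3 m4 : ℕ) (φ : ℂ → ℂ) :
    lam P x y m2 m3 m4 φ = cr (cc P x y φ P.N) (cc P x y φ (P.N + m2)) (cc P x y φ (P.N + m3))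
      (cc P x y φ (P.N + m4)) := rfl

/-- **Convergence of the cross ratio of the marks of rescaled polygons.** -/
theorem tendsto_lam {ι : Type*} {l : Filter ι} {P : ι → PType} {x y : ι → ℤ → ℝ}
    {m2 m3 m4 : ι → ℕ} {φ : ι → ℂ → ℂ} {ε a b : ι → ℝ} {D0 : Set ℂ} {a0 b0 : ℂ} {φ0 : ℂ → ℂ}
    (hm : ∀ᶠ n in l, 0 < m2 n ∧ m2 n < m3 n ∧ m3 n < m4 n ∧ m4 n < (P n).N)
    (C : ∀ᶠ n in l, Cht (P n) (x n) (y n) (φ n)) (hε : ∀ᶠ n in l, 0 < ε n)
    (h : KConv l (fun n => Om (P n).Q (fun i => ε n * x n i + a n) (fun i => ε n * y n i + b n)) D0)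
    (h0 : IsHalf D0 a0 b0 φ0) {X1 X2 X3 X4 : ℝ} (O12 : X1 < X2) (O23 : X2 < X3) (O34 : X3 < X4)
    (t1 : Tendsto (fun n => pt (fun i => ε n * x n i + a n) (fun i => ε n * y n i + b n)
      ((P n).vert 0)) l (𝓝 (φ0 X1)))
    (t2 : Tendsto (fun n => pt (fun i => ε n * x n i + a n) (fun i => ε n * y n i + b n)
      ((P n).vert (m2 n))) l (𝓝 (φ0 X2)))
    (t3 : Tendsto (fun n => pt (fun i => ε n * x n i + a n) (fun i => ε n * y n i + b n)
      ((P n).vert (m3 n))) l (𝓝 (φ0 X3)))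
    (t4 : Tendsto (fun n => pt (fun i => ε n * x n i + a n) (fun i => ε n * y n i + b n)
      ((P n).vert (m4 n))) l (𝓝 (φ0 X4))) :
    Tendsto (fun n => lam (P n) (x n) (y n) (m2 n) (m3 n) (m4 n) (φ n)) l
      (𝓝 (cr X1 X2 X3 X4)) := by
  have key : ∀ m : ι → ℕ, (∀ᶠ n in l, m n < (P n).N) → ∀ X : ℝ,
      Tendsto (fun n => pt (fun i => ε n * x n i + a n) (fun i => ε n * y n i + b n)
        ((P n).vert (m n))) l (𝓝 (φ0 X)) →
      Tendsto (fun n => (ε n : ℂ) * φ n (cc (P n) (x n) (y n) (φ n) ((P n).N + m n)) +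
        ⟨a n, b n⟩) l (𝓝 (φ0 X)) := by
    intro m hm' X hX
    refine hX.congr' ?_
    filter_upwards [C, hm'] with n g1 g2
    rw [pt_affine, phi_cc g1 g2]
  simp only [lam_eq_cr]
  have hm0 : ∀ᶠ n in l, 0 < (P n).N := hm.mono fun n hn => by omega
  refine tendsto_cr h (a := fun n => ε n * pt (x n) (y n) ((P n).vert 0) + ⟨a n, b n⟩)
    (b := fun n => ε n * (P n).sidePt (x n) (y n) ((P n).N - 1) (1 / 2) + ⟨a n, b n⟩)
    (φ := fun n z => ε n * φ n z + ⟨a n, b n⟩) ?_ h0 ?_ O12 O23 O34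
    (key (fun _ => 0) hm0 X1 t1) (key m2 (hm.mono fun n hn => by omega) X2 t2)
    (key m3 (hm.mono fun n hn => by omega) X3 t3) (key m4 (hm.mono fun n hn => by omega) X4 t4)
  · filter_upwards [C, hε] with n g1 g2
    rw [Om_affine _ _ _ g2]
    exact half_affine g1.half g2 _
  · filter_upwards [C, hm] with n g1 g2
    have s1 : (P n).N ∈ SS (P n) := Finset.mem_Ico.2 ⟨le_rfl, by omega⟩
    have s2 : (P n).N + m2 n ∈ SS (P n) := Finset.mem_Ico.2 ⟨by omega, by omega⟩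
    have s3 : (P n).N + m3 n ∈ SS (P n) := Finset.mem_Ico.2 ⟨by omega, by omega⟩
    have s4 : (P n).N + m4 n ∈ SS (P n) := Finset.mem_Ico.2 ⟨by omega, by omega⟩
    exact ⟨(g1.cc_lt s1 s2).2 (by omega), (g1.cc_lt s2 s3).2 (by omega),
      (g1.cc_lt s3 s4).2 (by omega)⟩

end Pool.Agent.H19.Rado
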