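import Pool.Agent.H19.Rado.Main

set_option autoImplicit false
open Set Metric Filter Topology Complex
open scoped Real

/-! Rotation of the four marks of a half plane chart; complex affine changes of the domain. -/

namespace Pool.Agent.H19.Rado

open Pool.Agent.H69.Car

/-- the cross ratio after a cyclic rotation of the marks -/
lemma cr_rot {t0 t1 t2 t3 c : ℝ} (h01 : t0 < t1) (h12 : t1 < t2) (h2 : t2 < c) (h3 : c < t3) :
    cr (-1 + 1 / (c - t3)) (-1 + 1 / (c - t0)) (-1 + 1 / (c - t1)) (-1 + 1 / (c - t2)) =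
      1 - cr t0 t1 t2 t3 := by
  have e0 : c - t0 ≠ 0 := by linarith
  have e1 : c - t1 ≠ 0 := by linarith
  have e2 : c - t2 ≠ 0 := by linarith
  have e3 : c - t3 ≠ 0 := by linarith
  have f1 : t2 - t0 ≠ 0 := by linarith
  have f2 : t3 - t1 ≠ 0 := by linarith
  have g1 : -1 + 1 / (c - t0) - (-1 + 1 / (c - t3)) = (t0 - t3) / ((c - t0) * (c - t3)) := by
    field_simp; ring
  have g2 : -1 + 1 / (c - t2) - (-1 + 1 / (c - t1)) = (t2 - t1) / ((c - t2) * (c - t1)) := by
    field_simp; ring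
  have g3 : -1 + 1 / (c - t1) - (-1 + 1 / (c - t3)) = (t1 - t3) / ((c - t1) * (c - t3)) := by
    field_simp; ring
  have g4 : -1 + 1 / (c - t2) - (-1 + 1 / (c - t0)) = (t2 - t0) / ((c - t2) * (c - t0)) := by
    field_simp; ring
  have f3 : t1 - t3 ≠ 0 := by linarith
  unfold cr
  rw [g1, g2, g3, g4]
  field_simp
  ring

/-- **Rotation of the marks.** -/
theorem half_rotate {D : Set ℂ} {a b : ℂ} {φ : ℂ → ℂ} (h : IsHalf D a b φ) (hD : IsOpen D)
    {t0 t1 t2 t3 : ℝ} (h01 : t0 < t1) (h12 : t1 < t2) (h23 : t2 < t3) :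
    ∃ (a' b' : ℂ) (φ' : ℂ → ℂ) (X1 X2 X3 X4 : ℝ), IsHalf D a' b' φ' ∧ X1 < X2 ∧ X2 < X3 ∧ X3 < X4 ∧
      φ' X1 = φ t3 ∧ φ' X2 = φ t0 ∧ φ' X3 = φ t1 ∧ φ' X4 = φ t2 ∧
      cr X1 X2 X3 X4 = 1 - cr t0 t1 t2 t3 := by
  set c : ℝ := (t2 + t3) / 2 with hc
  have c2 : t2 < c := by rw [hc]; linarith
  have c3 : c < t3 := by rw [hc]; linarith
  have h13 : c - 1 < c := by linarith
  have key : ∀ t : ℝ, t ≠ c → chg φ b (c - 1) c 1 ((-1 + 1 / (c - t) : ℝ) : ℂ) = φ t := by
    intro t ht
    have hne : (c - t : ℝ) ≠ 0 := sub_ne_zero.2 (Ne.symm ht)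
    have hne' : (c : ℂ) - t ≠ 0 := by exact_mod_cast hne
    have htc : (t : ℂ) ≠ c := by exact_mod_cast ht
    have e : ((-1 + 1 / (c - t) : ℝ) : ℂ) = imo (c - 1) c 1 t := by
      unfold imo
      push_cast
      ring
    rw [e, chg_ne _ _ _ _ _ (imo_ne h13 one_pos htc), mo_imo h13 one_pos htc]
  refine ⟨_, _, chg φ b (c - 1) c 1, -1 + 1 / (c - t3), -1 + 1 / (c - t0), -1 + 1 / (c - t1),
    -1 + 1 / (c - t2), half_moebius h13 one_pos h hD, ?_, ?_, ?_, key _ (by linarith),
    key _ (by linarith), key _ (by linarith), key _ (by linarith), cr_rot h01 h12 c2 c3⟩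
  · have h1 : 1 / (c - t3) < 0 := one_div_neg.2 (by linarith)
    have h2 : 0 < 1 / (c - t0) := one_div_pos.2 (by linarith)
    linarith
  · have := one_div_lt_one_div_of_lt (show 0 < c - t1 by linarith) (show c - t1 < c - t0 by linarith)
    linarith
  · have := one_div_lt_one_div_of_lt (show 0 < c - t2 by linarith) (show c - t2 < c - t1 by linarith)
    linarith

/-- the same for four marks in a vector -/
theorem half_rotate' {D : Set ℂ} {a b : ℂ} {φ : ℂ → ℂ} (h : IsHalf D a b φ) (hD : IsOpen D)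
    {t : Fin 4 → ℝ} (ht : StrictMono t) :
    ∃ (a' b' : ℂ) (φ' : ℂ → ℂ) (X : Fin 4 → ℝ), IsHalf D a' b' φ' ∧ StrictMono X ∧
      (∀ m : Fin 4, φ' (X m) = φ (t (m - 1))) ∧
      cr (X 0) (X 1) (X 2) (X 3) = 1 - cr (t 0) (t 1) (t 2) (t 3) := by
  obtain ⟨a', b', φ', X1, X2, X3, X4, h0, h1, h2, h3, e1, e2, e3, e4, e5⟩ :=
    half_rotate h hD (ht (show (0 : Fin 4) < 1 by decide)) (ht (show (1 : Fin 4) < 2 by decide))
      (ht (show (2 : Fin 4) < 3 by decide))
  refine ⟨a', b', φ', ![X1, X2, X3, X4], h0, ?_, ?_, e5⟩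
  · rw [Fin.strictMono_iff_lt_succ]
    intro i
    fin_cases i
    · exact h1
    · exact h2
    · exact h3
  · intro m
    match m with
    | 0 => exact e1
    | 1 => exact e2
    | 2 => exact e3
    | 3 => exact e4

/-- the complex affine homeomorphism `z ↦ c z + d` -/
noncomputable def affC (c : ℂ) (hc : c ≠ 0) (d : ℂ) : ℂ ≃ₜ ℂ :=
  (Homeomorph.mulLeft₀ c hc).trans (Homeomorph.addRight d)

lemma affC_apply (c : ℂ) (hc : c ≠ 0) (d z : ℂ) : affC c hc d z = c * z + d := rfl

lemma affC_symm (c : ℂ) (hc : c ≠ 0) (d z : ℂ) : (affC c hc d).symm z = (z - d) / c := by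
  rw [Homeomorph.symm_apply_eq, affC_apply]
  field_simp
  ring

/-- Complex affine change of the domain of a chart. -/
theorem half_affC {D : Set ℂ} {a b : ℂ} {φ : ℂ → ℂ} (h : IsHalf D a b φ) {c : ℂ} (hc : c ≠ 0)
    (d : ℂ) : IsHalf (affC c hc d '' D) (c * a + d) (c * b + d) (fun z => c * φ z + d) where
  cont := (continuousOn_const.mul h.cont).add continuousOn_const
  inj := by
    intro z hz w hw hzw
    have h2 : c * φ z = c * φ w := by linear_combination hzw
    exact h.inj hz hw (mul_left_cancel₀ hc h2)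
  diff := (h.diff.const_mul _).add_const _
  image := by
    rw [← h.image, image_image]
    rfl
  zero := by rw [h.zero]
  lim := (h.lim.const_mul _).add_const _
  closure := by
    rw [← (affC c hc d).image_closure]
    have e1 : (fun z => c * φ z + d) '' HC = affC c hc d '' (φ '' HC) := by
      rw [image_image]
      rfl
    have e2 : ({c * b + d} : Set ℂ) = affC c hc d '' {b} := by
      rw [image_singleton]
      rfl
    rw [e1, e2, h.closure, image_sdiff (affC c hc d).injective]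

/-- **Preimage under a complex affine map.** -/
theorem half_preim {D : Set ℂ} {a b : ℂ} {φ : ℂ → ℂ} (h : IsHalf D a b φ) {c : ℂ} (hc : c ≠ 0)
    (d : ℂ) : IsHalf ((fun z => c * z + d) ⁻¹' D) ((a - d) / c) ((b - d) / c)
      (fun z => (φ z - d) / c) := by
  have h1 := half_affC h (inv_ne_zero hc) (-(d / c))
  have e1 : (fun z => c * z + d) ⁻¹' D = affC c⁻¹ (inv_ne_zero hc) (-(d / c)) '' D := by
    ext z
    constructor
    · intro hz
      refine ⟨c * z + d, hz, ?_⟩
      rw [affC_apply]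
      field_simp
      ring
    · rintro ⟨w, hw, rfl⟩
      change c * (affC c⁻¹ (inv_ne_zero hc) (-(d / c)) w) + d ∈ D
      rw [affC_apply]
      have : c * (c⁻¹ * w + -(d / c)) + d = w := by
        field_simp
        ring
      rw [this]
      exact hw
  have e2 : ∀ z : ℂ, c⁻¹ * z + -(d / c) = (z - d) / c := fun z => by
    field_simp
    ring
  rw [e1]
  simp only [e2] at h1
  exact h1

lemma one_add_I_ne : (1 : ℂ) + I ≠ 0 := by
  intro h
  have := congrArg Complex.re h
  simp at this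

/-- the case of the rotated frame -/
theorem half_preim_rot {D : Set ℂ} {a b : ℂ} {φ : ℂ → ℂ} (h : IsHalf D a b φ) (z1 : ℂ) :
    IsHalf ((fun z => (1 + I) * z + z1) ⁻¹' D) ((a - z1) / (1 + I)) ((b - z1) / (1 + I))
      (fun z => (φ z - z1) / (1 + I)) := half_preim h one_add_I_ne z1

end Pool.Agent.H19.Rado
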