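import Pool.Agent.H19.Rado.Conv

set_option autoImplicit false
open Set Metric Filter Topology MeasureTheory Complex
open scoped Real ENNReal

/-! Convergence of Jordan domains to a bounded convex domain: no thin necks. -/

namespace Pool.Agent.H19.Rado

open Pool.Agent.H81.Q1 (IsJordanDomain)
open Pool.Agent.H14.Jordan

/-- A bounded open convex set is a Jordan domain. -/
theorem isJordan_of_convex {D : Set ℂ} (hc : Convex ℝ D) (ho : IsOpen D)
    (hb : Bornology.IsBounded D) (hne : D.Nonempty) : IsJordanDomain D := by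
  obtain ⟨e, h1, h2, h3⟩ := exists_homeomorph_image_interior_closure_frontier_eq_unitBall hc
    (by rwa [ho.interior_eq]) hb
  refine ⟨ho, ⟨hne, hc.isPreconnected⟩, hb, fun c => e.symm c, ?_, ?_, ?_⟩
  · exact e.symm.continuous.comp continuous_subtype_val
  · exact e.symm.injective.comp Subtype.val_injective
  · have h4 : frontier D = e.symm '' sphere 0 1 := by
      rw [← h3, ← image_comp]
      simp
    rw [h4]
    ext z
    constructor
    · rintro ⟨w, hw, rfl⟩
      exact ⟨⟨w, by rw [Submonoid.unitSphere]; simpa using hw⟩, rfl⟩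
    · rintro ⟨c, rfl⟩
      exact ⟨c, by simp, rfl⟩

/-- **A straight segment to the centre avoids the balls which meet the complement.** -/
lemma segment_avoid {C : Set ℂ} {z0 : ℂ} {r R : ℝ} (hC : Convex ℝ C) (hCo : IsOpen C) (hr : 0 < r)
    (hrC : closedBall z0 r ⊆ C) (hCR : C ⊆ closedBall z0 R) {ε δ : ℝ} (hε : 0 < ε)
    (hδ : δ = ε * r / (8 * R)) {p w : ℂ} (hp : ¬ closedBall p δ ⊆ C) (hw : w ∈ C)
    (hwp : 3 * ε / 4 ≤ dist w p) : JoinedIn (C \ closedBall p δ) w z0 := by
  have hz0 : z0 ∈ C := hrC (mem_closedBall_self hr.le)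
  have hrR : r ≤ R := by
    have h1 : z0 + r ∈ closedBall z0 R := hCR (hrC (by
      rw [mem_closedBall, dist_eq_norm, add_sub_cancel_left, norm_real, Real.norm_of_nonneg hr.le]))
    rwa [mem_closedBall, dist_eq_norm, add_sub_cancel_left, norm_real,
      Real.norm_of_nonneg hr.le] at h1
  have hR : 0 < R := lt_of_lt_of_le hr hrR
  have hδ0 : 0 < δ := by rw [hδ]; positivity
  obtain ⟨q, hq, hqC⟩ := not_subset.1 hp
  obtain ⟨f, hf⟩ := geometric_hahn_banach_open_point hC hCo hqC
  set s := f (q - z0) with hs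
  have hfs : ∀ a ∈ C, f (a - z0) < s := by
    intro a ha
    rw [hs, map_sub, map_sub]
    linarith [hf a ha]
  have hs0 : 0 < s := by
    have := hfs z0 hz0
    rwa [sub_self, map_zero] at this
  -- the norm of the functional
  have hN : ‖f‖ ≤ s / r := by
    refine ContinuousLinearMap.opNorm_le_bound _ (by positivity) fun x => ?_
    rcases eq_or_ne x 0 with rfl | hx
    · simp
    · have hx0 : 0 < ‖x‖ := norm_pos_iff.2 hx
      have key : ∀ y : ℂ, ‖y‖ = ‖x‖ → f y ≤ s / r * ‖x‖ := by
        intro y hy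
        have h1 : z0 + (r / ‖x‖) • y ∈ C := hrC (by
          rw [mem_closedBall, dist_eq_norm, add_sub_cancel_left, norm_smul, hy,
            Real.norm_of_nonneg (by positivity), div_mul_cancel₀ _ hx0.ne'])
        have h2 := hfs _ h1
        rw [add_sub_cancel_left, map_smul, smul_eq_mul] at h2
        rw [div_mul_eq_mul_div, div_lt_iff₀ hx0] at h2
        rw [div_mul_eq_mul_div, le_div_iff₀ hr]
        linarith
      rw [Real.norm_eq_abs, abs_le]
      constructor
      · have := key (-x) (norm_neg x)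
        rw [map_neg] at this
        linarith
      · exact key x rfl
  have hball : ∀ y ∈ closedBall p δ, s * (1 - 2 * δ / r) ≤ f (y - z0) := by
    intro y hy
    have h1 : dist q y ≤ 2 * δ := by
      have := dist_triangle_right q y p
      rw [mem_closedBall] at hy hq
      linarith
    have h2 : f (q - y) ≤ ‖f‖ * dist q y := by
      rw [dist_eq_norm]
      exact (le_abs_self _).trans (f.le_opNorm _)
    have h3 : ‖f‖ * dist q y ≤ s / r * (2 * δ) :=
      mul_le_mul hN h1 dist_nonneg (by positivity)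
    have h4 : f (y - z0) = s - f (q - y) := by
      rw [hs, ← map_sub]
      congr 1
      ring
    have h5 : s * (1 - 2 * δ / r) = s - s / r * (2 * δ) := by ring
    rw [h4, h5]
    linarith
  refine JoinedIn.of_segment_subset ?_
  rw [segment_eq_image]
  rintro _ ⟨t, ht, rfl⟩
  have hmem : (1 - t) • w + t • z0 ∈ C :=
    hC hw hz0 (by linarith [ht.2]) ht.1 (by ring)
  refine ⟨hmem, fun hy => ?_⟩
  rcases le_or_gt (3 * δ / r) t with h | h
  · have h1 := hball _ hy
    have e : (1 - t) • w + t • z0 - z0 = (1 - t) • (w - z0) := by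
      simp only [real_smul]; push_cast; ring
    simp only at h1
    rw [e, map_smul, smul_eq_mul] at h1
    have h2 := hfs w hw
    have h3 : (1 - t) * f (w - z0) ≤ (1 - t) * s :=
      mul_le_mul_of_nonneg_left h2.le (by linarith [ht.2])
    have h4 : (1 - t) * s ≤ (1 - 3 * δ / r) * s :=
      mul_le_mul_of_nonneg_right (by linarith) hs0.le
    have h5 : 0 < s * (δ / r) := by positivity
    have h6 : (1 - 3 * δ / r) * s = s * (1 - 2 * δ / r) - s * (δ / r) := by ring
    linarith
  · rw [mem_closedBall] at hy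
    have e : dist w ((1 - t) • w + t • z0) = t * dist w z0 := by
      rw [dist_eq_norm, dist_eq_norm]
      have : w - ((1 - t) • w + t • z0) = (t : ℂ) * (w - z0) := by
        simp only [real_smul]; push_cast; ring
      rw [this, norm_mul, norm_real, Real.norm_of_nonneg ht.1]
    have h1 : dist w z0 ≤ R := hCR hw
    have h2 := dist_triangle w ((1 - t) • w + t • z0) p
    simp only at hy
    rw [e] at h2
    have h3 : t * dist w z0 ≤ 3 * δ / r * R := by
      refine mul_le_mul h.le h1 dist_nonneg (by positivity)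
    have h4 : 3 * δ / r * R = 3 * ε / 8 := by
      rw [hδ]; field_simp
    have h5 : δ ≤ ε / 8 := by
      rw [hδ, div_le_iff₀ (by positivity)]
      nlinarith
    linarith

variable {ι : Type*} {l : Filter ι} {D : ι → Set ℂ} {D0 : Set ℂ} {z0 : ℂ}

/-- **Convergence to a convex domain.** -/
theorem KConv.of_convex (hc : Convex ℝ D0) (ho : IsOpen D0) (hb : Bornology.IsBounded D0)
    (h0 : z0 ∈ D0) (jd : ∀ᶠ n in l, IsJordanDomain (D n))
    (Hin : ∀ η ∈ Ioo (0:ℝ) 1, ∀ᶠ n in l, ∀ z ∈ D0, z0 + ((1 - η : ℝ) : ℂ) * (z - z0) ∈ D n)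
    (Hout : ∀ η > 0, ∀ᶠ n in l, ∀ z ∈ D n, ∃ w ∈ D0, z = z0 + ((1 + η : ℝ) : ℂ) * (w - z0))
    (Hj : ∀ τ > 0, ∃ η ∈ Ioo (0:ℝ) (1/2), ∀ᶠ n in l, ∀ z ∈ D n, ∃ w ∈ D0,
      JoinedIn (D n ∩ ball z τ) z (z0 + ((1 - η : ℝ) : ℂ) * (w - z0))) : KConv l D D0 := by
  have hJ : IsJordanDomain D0 := isJordan_of_convex hc ho hb ⟨z0, h0⟩
  -- radii
  obtain ⟨B, hB⟩ := hb.exists_norm_le
  set R := max (B + ‖z0‖) 1 with hRdef
  have hR0 : 0 < R := lt_of_lt_of_le one_pos (le_max_right _ _)
  have hDR : ∀ z ∈ D0, dist z z0 ≤ R := by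
    intro z hz
    rw [dist_eq_norm]
    have h1 := norm_sub_le z z0
    have h2 := hB z hz
    have h3 := le_max_left (B + ‖z0‖) 1
    linarith
  obtain ⟨r2, hr2, hrD⟩ := Metric.nhds_basis_closedBall.mem_iff.1 (ho.mem_nhds h0)
  refine KConv.of_necks (z0 := z0) hJ jd ?_ ?_ ?_
  · intro K hK hKD
    obtain ⟨s, hs, hsub⟩ := hK.exists_thickening_subset_open ho hKD
    set η := min (1 / 2) (s / (4 * R)) with hη
    have hη0 : 0 < η := by positivity
    have e1 : η ≤ 1 / 2 := min_le_left _ _
    have e2 : η ≤ s / (4 * R) := min_le_right _ _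
    filter_upwards [Hin η ⟨hη0, by linarith⟩] with n hn z hz
    have hne : ((1 - η : ℝ) : ℂ) ≠ 0 := ofReal_ne_zero.2 (by linarith)
    set w := z0 + (z - z0) / ((1 - η : ℝ) : ℂ) with hw
    have hwz : z0 + ((1 - η : ℝ) : ℂ) * (w - z0) = z := by
      rw [hw, add_sub_cancel_left, mul_div_cancel₀ _ hne]; ring
    have hwD : w ∈ D0 := by
      apply hsub
      rw [mem_thickening_iff]
      refine ⟨z, hz, ?_⟩
      have e3 : w - z = ((η / (1 - η) : ℝ) : ℂ) * (z - z0) := by
        rw [hw]
        have : ((η / (1 - η) : ℝ) : ℂ) = 1 / ((1 - η : ℝ) : ℂ) - 1 := by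
          rw [← ofReal_one, ← ofReal_div, ← ofReal_sub]
          congr 1
          have : (1 - η) ≠ 0 := by linarith
          field_simp
          ring
        rw [this]
        ring
      rw [dist_eq_norm, e3, norm_mul, norm_real, ← dist_eq_norm,
        Real.norm_of_nonneg (div_nonneg hη0.le (by linarith))]
      have h1 : η / (1 - η) ≤ 2 * η := by
        rw [div_le_iff₀ (by linarith)]
        nlinarith
      have h2 := hDR z (hKD hz)
      have h3 : η / (1 - η) * dist z z0 ≤ 2 * η * R :=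
        mul_le_mul h1 h2 dist_nonneg (by positivity)
      have h4 : η * (4 * R) ≤ s := by
        rwa [le_div_iff₀ (by positivity)] at e2
      nlinarith
    rw [← hwz]
    exact hn w hwD
  · intro s hs
    set η := s / (2 * R) with hη
    have hη0 : 0 < η := by positivity
    filter_upwards [Hout η hη0] with n hn z hz
    obtain ⟨w, hw, e⟩ := hn z hz
    refine ⟨w, hw, ?_⟩
    have e3 : z - w = ((η : ℝ) : ℂ) * (w - z0) := by rw [e]; push_cast; ring
    rw [dist_eq_norm, e3, norm_mul, norm_real, Real.norm_of_nonneg hη0.le, ← dist_eq_norm]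
    have h1 := hDR w hw
    have h2 : η * dist w z0 ≤ η * R := mul_le_mul_of_nonneg_left h1 hη0.le
    have h3 : η * R = s / 2 := by rw [hη]; field_simp
    linarith
  · intro ε hε
    set r := r2 / 2 with hr
    have hr0 : 0 < r := by positivity
    set δ := ε * r / (8 * R) with hδ
    have hrR : r ≤ R := by
      have h1 : z0 + r2 ∈ D0 := hrD (by
        rw [mem_closedBall, dist_eq_norm, add_sub_cancel_left, norm_real,
          Real.norm_of_nonneg hr2.le])
      have h2 := hDR _ h1
      rw [dist_eq_norm, add_sub_cancel_left, norm_real, Real.norm_of_nonneg hr2.le] at h2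
      linarith
    have hδ0 : 0 < δ := by positivity
    have hδε : δ ≤ ε / 8 := by
      rw [hδ, div_le_iff₀ (by positivity)]
      nlinarith
    refine ⟨δ, hδ0, ?_⟩
    obtain ⟨η, hη, hj⟩ := Hj (ε / 4) (by positivity)
    filter_upwards [hj, Hin η ⟨hη.1, by linarith [hη.2]⟩] with n h1 h2 p hp z hz hzp
    obtain ⟨w, hw, hjw⟩ := h1 z hz
    -- the core
    have hη1 : 0 < 1 - η := by linarith [hη.2]
    have hne : ((1 - η : ℝ) : ℂ) ≠ 0 := ofReal_ne_zero.2 hη1.ne'
    set C : Set ℂ := (AffineMap.homothety z0 ((1 - η)⁻¹) : ℂ →ᵃ[ℝ] ℂ) ⁻¹' D0 with hC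
    have hap : ∀ y : ℂ, (AffineMap.homothety z0 ((1 - η)⁻¹) : ℂ →ᵃ[ℝ] ℂ) y =
        ((1 - η : ℝ) : ℂ)⁻¹ * (y - z0) + z0 := by
      intro y
      rw [AffineMap.homothety_apply, vsub_eq_sub, vadd_eq_add, real_smul, ofReal_inv]
    have hCc : Convex ℝ C := hc.affine_preimage _
    have hCo : IsOpen C := ho.preimage (AffineMap.homothety_continuous _ _)
    have hback : ∀ y ∈ C, ∃ u ∈ D0, y = z0 + ((1 - η : ℝ) : ℂ) * (u - z0) := by
      intro y hy
      refine ⟨_, hy, ?_⟩
      rw [hap, add_sub_cancel_right, mul_inv_cancel_left₀ hne]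
      ring
    have hfor : ∀ u ∈ D0, z0 + ((1 - η : ℝ) : ℂ) * (u - z0) ∈ C := by
      intro u hu
      rw [hC, mem_preimage, hap, add_sub_cancel_left, inv_mul_cancel_left₀ hne, sub_add_cancel]
      exact hu
    have hCD : C ⊆ D n := by
      intro y hy
      obtain ⟨u, hu, rfl⟩ := hback y hy
      exact h2 u hu
    have hCR : C ⊆ closedBall z0 R := by
      intro y hy
      obtain ⟨u, hu, rfl⟩ := hback y hy
      rw [mem_closedBall, dist_eq_norm, add_sub_cancel_left, norm_mul, norm_real,
        Real.norm_of_nonneg hη1.le, ← dist_eq_norm]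
      have h3 := hDR u hu
      have h4 : (1 - η) * dist u z0 ≤ 1 * dist u z0 :=
        mul_le_mul_of_nonneg_right (by linarith [hη.1]) dist_nonneg
      linarith
    have hrC : closedBall z0 r ⊆ C := by
      intro y hy
      rw [hC, mem_preimage, hap]
      apply hrD
      rw [mem_closedBall, dist_eq_norm, add_sub_cancel_right, norm_mul, norm_inv, norm_real,
        Real.norm_of_nonneg hη1.le, ← dist_eq_norm]
      rw [mem_closedBall] at hy
      rw [inv_mul_le_iff₀ hη1]
      have h3 : (1 / 2) * r2 ≤ (1 - η) * r2 := mul_le_mul_of_nonneg_right (by linarith [hη.2]) hr2.le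
      linarith
    -- the two pieces
    obtain ⟨γ, hγ⟩ := hjw
    have hfar : ∀ t, 3 * ε / 4 ≤ dist (γ t) p := by
      intro t
      have h3 := mem_ball.1 (hγ t).2
      have h4 := dist_triangle_left z p (γ t)
      linarith
    have j1 : JoinedIn (D n \ closedBall p δ) z (z0 + ((1 - η : ℝ) : ℂ) * (w - z0)) := by
      refine ⟨γ, fun t => ⟨(hγ t).1, fun hh => ?_⟩⟩
      rw [mem_closedBall] at hh
      have := hfar t
      linarith
    have hwp : 3 * ε / 4 ≤ dist (z0 + ((1 - η : ℝ) : ℂ) * (w - z0)) p := by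
      have := hfar 1
      rwa [γ.target] at this
    have j2 := segment_avoid hCc hCo hr0 hrC hCR hε hδ (p := p)
      (fun hh => hp (hh.trans hCD)) (hfor w hw) hwp
    exact j1.trans (j2.mono (diff_subset_diff_left hCD))

end Pool.Agent.H19.Rado
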