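import Pool.Agent.H5.FM.Gam

set_option autoImplicit false
open Set

/-! The boundary loop of a convex domain: continuity, injectivity, range. -/

namespace Pool.Agent.H19.Rado

open Pool.Agent.H5.FM

variable {D : Set ℂ}

lemma mk_eq (x y : ℝ) : (⟨x, y⟩ : ℂ) = (x : ℂ) + y * Complex.I := by
  apply Complex.ext <;> simp

lemma gam_b {s : ℝ} (h : s ≤ wd D) : Gam D s = ⟨xL D + s, flo D (xL D + s)⟩ := by
  unfold Gam
  rw [if_pos h]

lemma gam_r {s : ℝ} (h0 : wd D ≤ s) (h : s ≤ wd D + tr D) :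
    Gam D s = ⟨xR D, flo D (xR D) + (s - wd D)⟩ := by
  have := Gam_r (D := D) (y := flo D (xR D) + (s - wd D)) (by linarith) (by unfold tr at h; linarith)
  rw [← this]
  congr 1
  ring

lemma gam_t (hD : CD D) {s : ℝ} (h0 : wd D + tr D ≤ s) (h : s ≤ 2 * wd D + tr D) :
    Gam D s = ⟨xR D - (s - wd D - tr D), cei D (xR D - (s - wd D - tr D))⟩ := by
  have := Gam_t (D := D) hD (x := xR D - (s - wd D - tr D)) (by unfold wd at *; linarith)
    (by linarith)
  rw [← this]
  congr 1
  ring

lemma gam_l (hD : CD D) {s : ℝ} (h0 : 2 * wd D + tr D ≤ s) :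
    Gam D s = ⟨xL D, cei D (xL D) - (s - 2 * wd D - tr D)⟩ := by
  have := Gam_l (D := D) hD (y := cei D (xL D) - (s - 2 * wd D - tr D)) (by linarith)
  rw [← this]
  congr 1
  ring

lemma TD_eq : TD D = 2 * wd D + tr D + tl D := rfl

lemma TD_pos (hD : CD D) : 0 < TD D := by
  have := hD.wd_pos
  have := hD.tr_nonneg
  have := hD.tl_nonneg
  rw [TD_eq]; linarith

/-- the loop is closed -/
lemma Gam_closed (hD : CD D) : Gam D 0 = Gam D (TD D) := by
  have h1 := hD.wd_pos
  have h2 := hD.tl_nonneg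
  rw [gam_b h1.le, gam_l hD (by rw [TD_eq]; linarith), TD_eq]
  have e : tl D = cei D (xL D) - flo D (xL D) := rfl
  rw [add_zero, e]
  congr 1
  ring

/-- the loop is continuous -/
lemma Gam_cont (hD : CD D) : ContinuousOn (Gam D) (Icc 0 (TD D)) := by
  have h1 := hD.wd_pos
  have h2 := hD.tl_nonneg
  have h3 := hD.tr_nonneg
  have hw : wd D = xR D - xL D := rfl
  have c1 : ContinuousOn (Gam D) (Icc 0 (wd D)) := by
    have e : ContinuousOn (fun s : ℝ => ((xL D + s : ℝ) : ℂ) + (flo D (xL D + s) : ℂ) * Complex.I)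
        (Icc 0 (wd D)) := by
      have c : ContinuousOn (fun s : ℝ => flo D (xL D + s)) (Icc 0 (wd D)) :=
        hD.flo_cont.comp (by fun_prop) (fun s hs => ⟨by linarith [hs.1], by linarith [hs.2]⟩)
      have c' : ContinuousOn (fun s : ℝ => (flo D (xL D + s) : ℂ)) (Icc 0 (wd D)) :=
        Complex.continuous_ofReal.comp_continuousOn c
      exact (by fun_prop : ContinuousOn (fun s : ℝ => ((xL D + s : ℝ) : ℂ)) (Icc 0 (wd D))).add
        (c'.mul continuousOn_const)
    refine e.congr fun s hs => ?_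
    rw [gam_b hs.2, mk_eq]
  have c2 : ContinuousOn (Gam D) (Icc (wd D) (wd D + tr D)) := by
    have e : Continuous (fun s : ℝ => ((xR D : ℝ) : ℂ) +
        ((flo D (xR D) + (s - wd D) : ℝ) : ℂ) * Complex.I) := by fun_prop
    refine e.continuousOn.congr fun s hs => ?_
    rw [gam_r hs.1 hs.2, mk_eq]
  have c3 : ContinuousOn (Gam D) (Icc (wd D + tr D) (2 * wd D + tr D)) := by
    have e : ContinuousOn (fun s : ℝ => ((xR D - (s - wd D - tr D) : ℝ) : ℂ) +
        (cei D (xR D - (s - wd D - tr D)) : ℂ) * Complex.I)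
        (Icc (wd D + tr D) (2 * wd D + tr D)) := by
      have c : ContinuousOn (fun s : ℝ => cei D (xR D - (s - wd D - tr D)))
          (Icc (wd D + tr D) (2 * wd D + tr D)) :=
        hD.cei_cont.comp (by fun_prop) (fun s hs => ⟨by linarith [hs.2], by linarith [hs.1]⟩)
      have c' : ContinuousOn (fun s : ℝ => (cei D (xR D - (s - wd D - tr D)) : ℂ))
          (Icc (wd D + tr D) (2 * wd D + tr D)) := Complex.continuous_ofReal.comp_continuousOn c
      exact (by fun_prop : ContinuousOn (fun s : ℝ => ((xR D - (s - wd D - tr D) : ℝ) : ℂ))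
        (Icc (wd D + tr D) (2 * wd D + tr D))).add (c'.mul continuousOn_const)
    refine e.congr fun s hs => ?_
    rw [gam_t hD hs.1 hs.2, mk_eq]
  have c4 : ContinuousOn (Gam D) (Icc (2 * wd D + tr D) (TD D)) := by
    have e : Continuous (fun s : ℝ => ((xL D : ℝ) : ℂ) +
        ((cei D (xL D) - (s - 2 * wd D - tr D) : ℝ) : ℂ) * Complex.I) := by fun_prop
    refine e.continuousOn.congr fun s hs => ?_
    rw [gam_l hD hs.1, mk_eq]
  have u1 := c1.union_of_isClosed c2 isClosed_Icc isClosed_Icc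
  rw [Icc_union_Icc_eq_Icc (by linarith) (by linarith)] at u1
  have u2 := u1.union_of_isClosed c3 isClosed_Icc isClosed_Icc
  rw [Icc_union_Icc_eq_Icc (by linarith) (by linarith)] at u2
  have u3 := u2.union_of_isClosed c4 isClosed_Icc isClosed_Icc
  rw [Icc_union_Icc_eq_Icc (by linarith) (by rw [TD_eq]; linarith)] at u3
  exact u3

lemma flo_lt_cei (hD : CD D) {x : ℝ} (h1 : xL D < x) (h2 : x < xR D) : flo D x < cei D x := by
  obtain ⟨y, hy⟩ := hD.exists_of_lt h1 h2
  have := (hD.mem_iff.1 hy).2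
  linarith

/-- classification of the points of the loop -/
lemma gam_cases (hD : CD D) {s : ℝ} (_h0 : 0 ≤ s) (h1 : s ≤ TD D) :
    (s ≤ wd D ∧ (Gam D s).re = xL D + s ∧ (Gam D s).im = flo D (xL D + s)) ∨
    ((wd D < s ∧ s ≤ wd D + tr D) ∧ (Gam D s).re = xR D ∧
      (Gam D s).im = flo D (xR D) + (s - wd D)) ∨
    ((wd D + tr D < s ∧ s ≤ 2 * wd D + tr D) ∧ (Gam D s).re = xR D - (s - wd D - tr D) ∧
      (Gam D s).im = cei D (xR D - (s - wd D - tr D))) ∨
    ((2 * wd D + tr D < s ∧ s ≤ TD D) ∧ (Gam D s).re = xL D ∧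
      (Gam D s).im = cei D (xL D) - (s - 2 * wd D - tr D)) := by
  rcases le_or_gt s (wd D) with g1 | g1
  · left
    rw [gam_b g1]
    exact ⟨g1, rfl, rfl⟩
  · right
    rcases le_or_gt s (wd D + tr D) with g2 | g2
    · left
      rw [gam_r g1.le g2]
      exact ⟨⟨g1, g2⟩, rfl, rfl⟩
    · right
      rcases le_or_gt s (2 * wd D + tr D) with g3 | g3
      · left
        rw [gam_t hD g2.le g3]
        exact ⟨⟨g2, g3⟩, rfl, rfl⟩
      · right
        rw [gam_l hD g3.le]
        exact ⟨⟨g3, h1⟩, rfl, rfl⟩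

/-- the loop is injective -/
lemma Gam_inj (hD : CD D) : InjOn (Gam D) (Ico 0 (TD D)) := by
  have hw := hD.wd_pos
  have htl := hD.tl_nonneg
  have htr := hD.tr_nonneg
  have ew : wd D = xR D - xL D := rfl
  have etl : tl D = cei D (xL D) - flo D (xL D) := rfl
  have etr : tr D = cei D (xR D) - flo D (xR D) := rfl
  have eT : TD D = 2 * wd D + tr D + tl D := rfl
  have key : ∀ s ∈ Ico 0 (TD D), ∀ s' ∈ Ico 0 (TD D), Gam D s = Gam D s' → s < s' → False := by
    intro s hs s' hs' e hlt
    have er : (Gam D s).re = (Gam D s').re := by rw [e]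
    have ei : (Gam D s).im = (Gam D s').im := by rw [e]
    rcases gam_cases hD hs.1 hs.2.le with ⟨a, b, c⟩ | ⟨⟨a, a'⟩, b, c⟩ | ⟨⟨a, a'⟩, b, c⟩ |
        ⟨⟨a, a'⟩, b, c⟩ <;>
      rcases gam_cases hD hs'.1 hs'.2.le with ⟨a2, b2, c2⟩ | ⟨⟨a2, a2'⟩, b2, c2⟩ |
        ⟨⟨a2, a2'⟩, b2, c2⟩ | ⟨⟨a2, a2'⟩, b2, c2⟩ <;> rw [b, b2] at er <;> rw [c, c2] at ei
    · linarith
    · rw [show xL D + s = xR D by linarith] at ei
      linarith
    · rcases eq_or_lt_of_le hs.1 with g | g
      · rw [← g, add_zero] at er ei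
        rw [show xR D - (s' - wd D - tr D) = xL D by linarith] at ei
        have : s' = 2 * wd D + tr D := by linarith
        have := hs'.2
        linarith
      · rw [← er] at ei
        have := flo_lt_cei hD (x := xL D + s) (by linarith) (by linarith)
        linarith
    · have : s = 0 := by linarith
      rw [this, add_zero] at ei
      have := hs'.2
      linarith
    · linarith
    · linarith
    · linarith
    · linarith
    · linarith
    · linarith
    · linarith
    · rw [show xR D - (s - wd D - tr D) = xL D by linarith] at ei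
      linarith
    · linarith
    · linarith
    · linarith
    · linarith
  intro s hs s' hs' e
  rcases lt_trichotomy s s' with g | g | g
  · exact (key s hs s' hs' e g).elim
  · exact g
  · exact (key s' hs' s hs e.symm g).elim

/-- the loop is the boundary -/
lemma Gam_frontier (hD : CD D) : frontier D = Gam D '' Icc 0 (TD D) := by
  have hw := hD.wd_pos
  have htl := hD.tl_nonneg
  have htr := hD.tr_nonneg
  have ew : wd D = xR D - xL D := rfl
  have etl : tl D = cei D (xL D) - flo D (xL D) := rfl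
  have etr : tr D = cei D (xR D) - flo D (xR D) := rfl
  have eT : TD D = 2 * wd D + tr D + tl D := rfl
  rw [hD.op.frontier_eq]
  ext z
  constructor
  · rintro ⟨hz, hn⟩
    obtain ⟨h1, h2⟩ := hD.re_closure hz
    have h3 := (hD.mem_closure_iff (y := z.im) h1 h2).1 hz
    rcases eq_or_lt_of_le h2 with g | g
    · refine ⟨wd D + (z.im - flo D (xR D)), ⟨?_, ?_⟩, ?_⟩
      · rw [g] at h3; linarith
      · rw [g] at h3; linarith
      · rw [g] at h3
        rw [Gam_r h3.1 h3.2]
        apply Complex.ext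
        · exact g.symm
        · rfl
    · rcases eq_or_lt_of_le h1 with g' | g'
      · refine ⟨2 * wd D + tr D + (cei D (xL D) - z.im), ⟨?_, ?_⟩, ?_⟩
        · rw [← g'] at h3; linarith
        · rw [← g'] at h3; linarith
        · rw [← g'] at h3
          rw [Gam_l hD h3.2]
          apply Complex.ext
          · exact g'
          · rfl
      · rcases eq_or_lt_of_le h3.1 with q | q
        · refine ⟨z.re - xL D, ⟨by linarith, by linarith⟩, ?_⟩
          rw [Gam_b h2, q]
        · rcases eq_or_lt_of_le h3.2 with q' | q'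
          · refine ⟨wd D + tr D + (xR D - z.re), ⟨by linarith, by linarith⟩, ?_⟩
            rw [Gam_t hD h1 h2, ← q']
          · exact absurd (hD.mem_iff.2 ⟨⟨g', g⟩, q, q'⟩) hn
  · rintro ⟨s, hs, rfl⟩
    refine ⟨Gam_mem hD hs.1 hs.2, fun hz => ?_⟩
    have hz' : (⟨(Gam D s).re, (Gam D s).im⟩ : ℂ) ∈ D := hz
    have := hD.mem_iff.1 hz'
    rcases gam_cases hD hs.1 hs.2 with ⟨a, b, c⟩ | ⟨a, b, c⟩ | ⟨a, b, c⟩ | ⟨a, b, c⟩ <;>
      rw [b, c] at this
    · exact lt_irrefl _ this.2.1
    · exact lt_irrefl _ this.1.2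
    · exact lt_irrefl _ this.2.2
    · exact lt_irrefl _ this.1.1

end Pool.Agent.H19.Rado
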