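import Pool.Agent.H19.Rado.PLoop
import Pool.Agent.H19.Rado.Gam

set_option autoImplicit false
open Set Metric Filter Topology Complex
open scoped Real

/-! The boundary loop of a convex domain is positively oriented; the arcs of the half plane map are
arcs of the loop. -/

namespace Pool.Agent.H19.Rado

open Pool.Agent.H5.FM
open Pool.Agent.H69.Car

/-! ### Periodic extension -/

/-- periodic extension of a loop on `[0, T]` -/
noncomputable def pext (γ : ℝ → ℂ) (T s : ℝ) : ℂ := γ (Int.fract (s / T) * T)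

section pext
variable {γ : ℝ → ℂ} {T : ℝ}

lemma pext_per (hT : 0 < T) : Function.Periodic (pext γ T) T := by
  intro s
  unfold pext
  rw [add_div, div_self hT.ne', Int.fract_add_one]

lemma pext_eq' (hT : 0 < T) {s : ℝ} (hs : s ∈ Ico 0 T) : pext γ T s = γ s := by
  unfold pext
  rw [Int.fract_eq_self.2 ⟨div_nonneg hs.1 hT.le, (div_lt_one hT).2 hs.2⟩, div_mul_cancel₀ _ hT.ne']

lemma pext_eq (hT : 0 < T) (h0 : γ 0 = γ T) {s : ℝ} (hs : s ∈ Icc 0 T) : pext γ T s = γ s := by
  rcases eq_or_lt_of_le hs.2 with e | e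
  · rw [e]
    unfold pext
    rw [div_self hT.ne', Int.fract_one, zero_mul, h0]
  · exact pext_eq' hT ⟨hs.1, e⟩

lemma pext_cont (hT : 0 < T) (h0 : γ 0 = γ T) (hc : ContinuousOn γ (Icc 0 T)) :
    Continuous (pext γ T) := by
  have h1 : ContinuousOn (fun u : ℝ => γ (u * T)) (Icc 0 1) := by
    refine hc.comp (by fun_prop) fun u hu => ⟨mul_nonneg hu.1 hT.le, ?_⟩
    have := mul_le_mul_of_nonneg_right hu.2 hT.le
    linarith
  have h2 := ContinuousOn.comp_fract'' h1 (by simp only [zero_mul, one_mul]; exact h0)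
  have h3 : Continuous (fun s : ℝ => s / T) := by fun_prop
  exact h2.comp h3

lemma pext_inj (hT : 0 < T) (hi : InjOn γ (Ico 0 T)) : InjOn (pext γ T) (Ico 0 T) := by
  intro s hs s' hs' e
  rw [pext_eq' hT hs, pext_eq' hT hs'] at e
  exact hi hs hs' e

lemma pext_range (hT : 0 < T) (h0 : γ 0 = γ T) : Set.range (pext γ T) = γ '' Icc 0 T := by
  apply Subset.antisymm
  · rintro _ ⟨s, rfl⟩
    refine ⟨Int.fract (s / T) * T, ⟨mul_nonneg (Int.fract_nonneg _) hT.le, ?_⟩, rfl⟩
    have := mul_le_mul_of_nonneg_right (Int.fract_lt_one (s / T)).le hT.le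
    linarith
  · rintro _ ⟨s, hs, rfl⟩
    exact ⟨s, pext_eq hT h0 hs⟩

lemma pext_image1 (hT : 0 < T) (h0 : γ 0 = γ T) {u v : ℝ} (hu : 0 ≤ u) (hv : v ≤ T) :
    pext γ T '' Icc u v = γ '' Icc u v := by
  refine image_congr fun s hs => ?_
  exact pext_eq hT h0 ⟨hu.trans hs.1, hs.2.trans hv⟩

lemma pext_image2 (hT : 0 < T) (h0 : γ 0 = γ T) {u v : ℝ} (hu : T ≤ u) (hv : v ≤ 2 * T) :
    pext γ T '' Icc u v = γ '' Icc (u - T) (v - T) := by
  rw [← pext_image1 hT h0 (by linarith : 0 ≤ u - T) (by linarith : v - T ≤ T)]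
  apply Subset.antisymm
  · rintro _ ⟨s, hs, rfl⟩
    refine ⟨s - T, ⟨by linarith [hs.1], by linarith [hs.2]⟩, ?_⟩
    have := pext_per (γ := γ) hT (s - T)
    rw [sub_add_cancel] at this
    exact this.symm
  · rintro _ ⟨s, hs, rfl⟩
    exact ⟨s + T, ⟨by linarith [hs.1], by linarith [hs.2]⟩, pext_per hT s⟩

lemma pext_image3 (hT : 0 < T) (h0 : γ 0 = γ T) {u v : ℝ} (hu0 : 0 ≤ u) (hu : u ≤ T) (hv : T ≤ v)
    (hv2 : v ≤ 2 * T) : pext γ T '' Icc u v = γ '' (Icc u T ∪ Icc 0 (v - T)) := by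
  rw [← Icc_union_Icc_eq_Icc hu hv, image_union, image_union, pext_image1 hT h0 hu0 le_rfl,
    pext_image2 hT h0 le_rfl hv2, sub_self]

end pext

variable {D : Set ℂ}

/-- **The boundary loop of a convex domain is positively oriented.** -/
theorem ploop_Gam (hD : CD D) : PLoop D (pext (Gam D) (TD D)) (TD D) := by
  have hT := TD_pos hD
  have hw := hD.wd_pos
  have hw' : wd D = xR D - xL D := rfl
  have htl := hD.tl_nonneg
  have htr := hD.tr_nonneg
  have hL := hD.xL_neg
  have hR := hD.xR_pos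
  have hz : (⟨0, 0⟩ : ℂ) ∈ D := hD.zero
  have hf0 : flo D 0 < 0 := (hD.mem_iff.1 hz).2.1
  have hfc := hD.flo_cont 0 ⟨hL.le, hR.le⟩
  have hev : ∀ᶠ x in 𝓝[Icc (xL D) (xR D)] (0:ℝ), flo D x < 0 := hfc (Iio_mem_nhds hf0)
  rw [eventually_nhdsWithin_iff, Metric.eventually_nhds_iff] at hev
  obtain ⟨ε, hε, hε'⟩ := hev
  set η := min (ε / 2) (min (-xL D / 2) (xR D / 2)) with hη
  have hη0 : 0 < η := lt_min (by linarith) (lt_min (by linarith) (by linarith))
  have hη1 : η ≤ ε / 2 := min_le_left _ _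
  have hη2 : η ≤ -xL D / 2 := (min_le_right _ _).trans (min_le_left _ _)
  have hη3 : η ≤ xR D / 2 := (min_le_right _ _).trans (min_le_right _ _)
  have hval : ∀ s ∈ Icc (-xL D - η) (-xL D + η),
      pext (Gam D) (TD D) s = ⟨xL D + s, flo D (xL D + s)⟩ := by
    intro s hs
    rw [pext_eq' hT ⟨by linarith [hs.1], by rw [TD_eq]; linarith [hs.2]⟩]
    exact gam_b (by linarith [hs.2])
  refine ploop_of_convex hD.conv hD.op hT (pext_cont hT (Gam_closed hD) (Gam_cont hD))
    (pext_per hT) (pext_inj hT (Gam_inj hD)) ?_ hD.zero (s1 := -xL D - η) (s2 := -xL D + η)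
    (by linarith) (by rw [TD_eq]; linarith) ?_ ?_ ?_
  · rw [pext_range hT (Gam_closed hD), Gam_frontier hD]
  · rw [hval _ ⟨le_rfl, by linarith⟩]
    simp only [zero_re]
    linarith
  · rw [hval _ ⟨by linarith, le_rfl⟩]
    simp only [zero_re]
    linarith
  · intro s hs
    rw [hval s hs]
    simp only [zero_im]
    apply hε'
    · rw [Real.dist_eq, sub_zero, abs_lt]
      constructor <;> linarith [hs.1, hs.2]
    · constructor <;> linarith [hs.1, hs.2]

/-- the four arcs between the marks of the boundary loop -/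
noncomputable def CA (D : Set ℂ) (c : Fin 4 → ℝ) (m : Fin 4) : Set ℂ :=
  if m = 3 then Gam D '' (Icc (c 3) (TD D) ∪ Icc 0 (c 0)) else Gam D '' Icc (c m) (c (m + 1))

lemma smono4 {a b c d : ℝ} (h1 : a < b) (h2 : b < c) (h3 : c < d) : StrictMono ![a, b, c, d] := by
  rw [Fin.strictMono_iff_lt_succ]
  intro i
  fin_cases i
  · exact h1
  · exact h2
  · exact h3

/-- **Marks and arcs** of the half plane map of a convex domain on the boundary loop. -/
theorem arcs_Gam4 (hD : CD D) {a b : ℂ} {φ : ℂ → ℂ} (h : IsHalf D a b φ) {t : Fin 4 → ℝ}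
    (ht : StrictMono t) : ∃ c : Fin 4 → ℝ, StrictMono c ∧ 0 < c 0 ∧ c 3 ≤ TD D ∧ ∃ j : Fin 4,
      (∀ m, Gam D (c m) = φ (t (m + j))) ∧
      (∀ k : Fin 4, k ≠ 3 → (fun x : ℝ => φ x) '' Icc (t k) (t (k + 1)) = CA D c (k - j)) ∧
      (fun x : ℝ => φ x) '' (Iic (t 0) ∪ Ici (t 3)) ∪ {b} = CA D c (3 - j) := by
  have hT := TD_pos hD
  have h0 := Gam_closed hD
  set T := TD D with hTdef
  have P := ploop_Gam hD
  obtain ⟨sb, ψ, hsb, hGb, hm, hr, -, he⟩ := P.exists_psi h hD.op
  have hi := fun s t => P.image_Icc hm hr he s t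
  have hmem : ∀ x, ψ x ∈ Ioo sb (sb + T) := fun x => by rw [← hr]; exact mem_range_self x
  have h01 : ψ (t 0) < ψ (t 1) := hm (ht (by decide))
  have h12 : ψ (t 1) < ψ (t 2) := hm (ht (by decide))
  have h23 : ψ (t 2) < ψ (t 3) := hm (ht (by decide))
  have hs0 := hmem (t 0)
  have hs3 := hmem (t 3)
  set s0 := ψ (t 0) with es0
  set s1 := ψ (t 1) with es1
  set s2 := ψ (t 2) with es2
  set s3 := ψ (t 3) with es3
  have e0 : φ (t 0) = pext (Gam D) T s0 := he _
  have e1 : φ (t 1) = pext (Gam D) T s1 := he _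
  have e2 : φ (t 2) = pext (Gam D) T s2 := he _
  have e3 : φ (t 3) = pext (Gam D) T s3 := he _
  have i0 : (fun x : ℝ => φ x) '' Icc (t 0) (t 1) = pext (Gam D) T '' Icc s0 s1 := hi _ _
  have i1 : (fun x : ℝ => φ x) '' Icc (t 1) (t 2) = pext (Gam D) T '' Icc s1 s2 := hi _ _
  have i2 : (fun x : ℝ => φ x) '' Icc (t 2) (t 3) = pext (Gam D) T '' Icc s2 s3 := hi _ _
  have i3 : (fun x : ℝ => φ x) '' (Iic (t 0) ∪ Ici (t 3)) ∪ {b} =
      pext (Gam D) T '' Icc s3 (s0 + T) := P.image_far hm hr he hGb (ht.monotone (by decide))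
  have hlow : ∀ s, 0 < s → s ≤ T → pext (Gam D) T s = Gam D s := fun s a1 a2 =>
    pext_eq hT h0 ⟨a1.le, a2⟩
  have hhigh : ∀ s, T < s → s ≤ 2 * T → pext (Gam D) T s = Gam D (s - T) := by
    intro s a1 a2
    rw [← hlow (s - T) (by linarith) (by linarith)]
    have := pext_per (γ := Gam D) hT (s - T)
    rw [sub_add_cancel] at this
    exact this
  have b0 : 0 < s0 := hsb.1.trans hs0.1
  have b3 : s3 ≤ 2 * T := by linarith [hs3.2, hsb.2]
  have b30 : s3 - T < s0 := by linarith [hs3.2, hs0.1]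
  rcases le_or_gt s3 T with g3 | g3
  · refine ⟨![s0, s1, s2, s3], smono4 h01 h12 h23, b0, g3, 0, ?_, ?_,
      i3.trans (pext_image3 hT h0 (by linarith) g3 (by linarith) (by linarith) |>.trans
        (by rw [add_sub_cancel_right]; rfl))⟩
    · intro m
      match m with
      | 0 => exact ((e0.trans (hlow s0 b0 (by linarith))).symm)
      | 1 => exact ((e1.trans (hlow s1 (by linarith) (by linarith))).symm)
      | 2 => exact ((e2.trans (hlow s2 (by linarith) (by linarith))).symm)
      | 3 => exact ((e3.trans (hlow s3 (by linarith) g3)).symm)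
    · intro k hk
      match k with
      | 0 => exact i0.trans (pext_image1 hT h0 b0.le (by linarith))
      | 1 => exact i1.trans (pext_image1 hT h0 (by linarith) (by linarith))
      | 2 => exact i2.trans (pext_image1 hT h0 (by linarith) (by linarith))
      | 3 => exact absurd rfl hk
  rcases le_or_gt s2 T with g2 | g2
  · refine ⟨![s3 - T, s0, s1, s2], smono4 b30 h01 h12, sub_pos.2 g3, g2, 3, ?_, ?_,
      i3.trans (pext_image2 hT h0 g3.le (by linarith) |>.trans
        (by rw [add_sub_cancel_right]; rfl))⟩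
    · intro m
      match m with
      | 0 => exact ((e3.trans (hhigh s3 g3 b3)).symm)
      | 1 => exact ((e0.trans (hlow s0 b0 (by linarith))).symm)
      | 2 => exact ((e1.trans (hlow s1 (by linarith) (by linarith))).symm)
      | 3 => exact ((e2.trans (hlow s2 (by linarith) g2)).symm)
    · intro k hk
      match k with
      | 0 => exact i0.trans (pext_image1 hT h0 b0.le (by linarith))
      | 1 => exact i1.trans (pext_image1 hT h0 (by linarith) (by linarith))
      | 2 => exact i2.trans (pext_image3 hT h0 (by linarith) g2 g3.le b3)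
      | 3 => exact absurd rfl hk
  rcases le_or_gt s1 T with g1 | g1
  · refine ⟨![s2 - T, s3 - T, s0, s1], smono4 (by linarith) b30 h01, sub_pos.2 g2, g1, 2, ?_, ?_,
      i3.trans (pext_image2 hT h0 g3.le (by linarith) |>.trans
        (by rw [add_sub_cancel_right]; rfl))⟩
    · intro m
      match m with
      | 0 => exact ((e2.trans (hhigh s2 g2 (by linarith))).symm)
      | 1 => exact ((e3.trans (hhigh s3 g3 b3)).symm)
      | 2 => exact ((e0.trans (hlow s0 b0 (by linarith))).symm)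
      | 3 => exact ((e1.trans (hlow s1 (by linarith) g1)).symm)
    · intro k hk
      match k with
      | 0 => exact i0.trans (pext_image1 hT h0 b0.le (by linarith))
      | 1 => exact i1.trans (pext_image3 hT h0 (by linarith) g1 g2.le (by linarith))
      | 2 => exact i2.trans (pext_image2 hT h0 g2.le b3)
      | 3 => exact absurd rfl hk
  rcases le_or_gt s0 T with g0 | g0
  · refine ⟨![s1 - T, s2 - T, s3 - T, s0], smono4 (by linarith) (by linarith) b30, sub_pos.2 g1, g0,
      1, ?_, ?_, i3.trans (pext_image2 hT h0 g3.le (by linarith) |>.trans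
        (by rw [add_sub_cancel_right]; rfl))⟩
    · intro m
      match m with
      | 0 => exact ((e1.trans (hhigh s1 g1 (by linarith))).symm)
      | 1 => exact ((e2.trans (hhigh s2 g2 (by linarith))).symm)
      | 2 => exact ((e3.trans (hhigh s3 g3 b3)).symm)
      | 3 => exact ((e0.trans (hlow s0 b0 g0)).symm)
    · intro k hk
      match k with
      | 0 => exact i0.trans (pext_image3 hT h0 b0.le g0 g1.le (by linarith))
      | 1 => exact i1.trans (pext_image2 hT h0 g1.le (by linarith))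
      | 2 => exact i2.trans (pext_image2 hT h0 g2.le b3)
      | 3 => exact absurd rfl hk
  · have i4 : pext (Gam D) T '' Icc s3 (s0 + T) = pext (Gam D) T '' Icc (s3 - T) s0 := by
      apply Subset.antisymm
      · rintro _ ⟨s, hs, rfl⟩
        refine ⟨s - T, ⟨by linarith [hs.1], by linarith [hs.2]⟩, ?_⟩
        have := pext_per (γ := Gam D) hT (s - T)
        rw [sub_add_cancel] at this
        exact this.symm
      · rintro _ ⟨s, hs, rfl⟩
        exact ⟨s + T, ⟨by linarith [hs.1], by linarith [hs.2]⟩, pext_per hT s⟩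
    refine ⟨![s0 - T, s1 - T, s2 - T, s3 - T], smono4 (by linarith) (by linarith) (by linarith),
      sub_pos.2 g0, ?_, 0, ?_, ?_, i3.trans (i4.trans
        (pext_image3 hT h0 (by linarith) (by linarith) g0.le (by linarith)))⟩
    · change s3 - T ≤ T
      linarith
    · intro m
      match m with
      | 0 => exact ((e0.trans (hhigh s0 g0 (by linarith))).symm)
      | 1 => exact ((e1.trans (hhigh s1 g1 (by linarith))).symm)
      | 2 => exact ((e2.trans (hhigh s2 g2 (by linarith))).symm)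
      | 3 => exact ((e3.trans (hhigh s3 g3 b3)).symm)
    · intro k hk
      match k with
      | 0 => exact i0.trans (pext_image2 hT h0 g0.le (by linarith))
      | 1 => exact i1.trans (pext_image2 hT h0 g1.le (by linarith))
      | 2 => exact i2.trans (pext_image2 hT h0 g2.le b3)
      | 3 => exact absurd rfl hk

/-- the same without the fourth arc -/
theorem arcs_Gam (hD : CD D) {a b : ℂ} {φ : ℂ → ℂ} (h : IsHalf D a b φ) {t : Fin 4 → ℝ}
    (ht : StrictMono t) : ∃ c : Fin 4 → ℝ, StrictMono c ∧ 0 < c 0 ∧ c 3 ≤ TD D ∧ ∃ j : Fin 4,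
      (∀ m, Gam D (c m) = φ (t (m + j))) ∧
      ∀ k : Fin 4, k ≠ 3 → (fun x : ℝ => φ x) '' Icc (t k) (t (k + 1)) = CA D c (k - j) := by
  obtain ⟨c, h1, h2, h3, j, h4, h5, -⟩ := arcs_Gam4 hD h ht
  exact ⟨c, h1, h2, h3, j, h4, h5⟩

end Pool.Agent.H19.Rado
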