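import Pool.Agent.H19.Rado.Disc
import Pool.Agent.H19.RH.Sig
import Pool.Agent.H83.Lo.Inj

set_option autoImplicit false
open Set Metric Filter Topology Complex
open scoped Real

/-! The half plane map of a Jordan domain runs through the boundary in the positive direction:
argument of the boundary values, positively oriented parametrisations. -/

namespace Pool.Agent.H19.Rado

open Pool.Agent.H14.Jordan
open Pool.Agent.H69.Car

/-! ### Precomposition with a real affine map -/

theorem half_pre {D : Set ℂ} {a b : ℂ} {φ : ℂ → ℂ} (h : IsHalf D a b φ) {β : ℝ} (hβ : 0 < β)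
    (α : ℝ) : IsHalf D (φ α) b (fun w => φ (β * w + α)) := by
  have him : ∀ w : ℂ, ((β : ℂ) * w + α).im = β * w.im := fun w => by simp
  have hC : MapsTo (fun w : ℂ => (β : ℂ) * w + α) HC HC := fun w hw => by
    change 0 ≤ ((β : ℂ) * w + α).im
    rw [him]
    exact mul_nonneg hβ.le hw
  have hO : MapsTo (fun w : ℂ => (β : ℂ) * w + α) HO HO := fun w hw => by
    change 0 < ((β : ℂ) * w + α).im
    rw [him]
    exact mul_pos hβ hw
  have hb0 : (β : ℂ) ≠ 0 := by exact_mod_cast hβ.ne'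
  have hsur : ∀ S : Set ℂ, (S = HC ∨ S = HO) → (fun w : ℂ => (β : ℂ) * w + α) '' S = S := by
    intro S hS
    apply Subset.antisymm
    · rintro _ ⟨w, hw, rfl⟩
      rcases hS with rfl | rfl
      · exact hC hw
      · exact hO hw
    · intro w hw
      refine ⟨(w - α) / β, ?_, by field_simp; ring⟩
      have e : ((w - α) / (β : ℂ)).im = w.im / β := by
        rw [← ofReal_inj, show (w - α) / (β : ℂ) = (w - α) * ((β⁻¹ : ℝ) : ℂ) by push_cast; rfl]
        rw [mul_im, ofReal_re, ofReal_im, sub_im, ofReal_im]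
        push_cast
        ring
      rcases hS with rfl | rfl
      · change 0 ≤ ((w - α) / (β : ℂ)).im
        rw [e]
        exact div_nonneg hw hβ.le
      · change 0 < ((w - α) / (β : ℂ)).im
        rw [e]
        exact div_pos hw hβ
  have himg : ∀ S : Set ℂ, (S = HC ∨ S = HO) → (fun w => φ ((β : ℂ) * w + α)) '' S = φ '' S := by
    intro S hS
    have := image_image φ (fun w : ℂ => (β : ℂ) * w + α) S
    rw [hsur S hS] at this
    exact this.symm
  constructor
  · exact h.cont.comp (by fun_prop) hC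
  · intro w hw w' hw' e
    have := h.inj (hC hw) (hC hw') e
    simp only [add_left_inj] at this
    exact mul_left_cancel₀ hb0 this
  · exact h.diff.comp (by fun_prop) hO
  · rw [himg HO (Or.inr rfl), h.image]
  · simp
  · refine h.lim.comp ?_
    rw [tendsto_inf]
    constructor
    · have h1 : Tendsto (fun w : ℂ => (β : ℂ) * w) (Bornology.cobounded ℂ) (Bornology.cobounded ℂ) :=
        Filter.tendsto_mul_left_cobounded hb0
      exact ((tendsto_add_const_cobounded (α : ℂ)).comp h1).mono_left inf_le_left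
    · rw [tendsto_principal]
      filter_upwards [mem_inf_of_right (mem_principal_self HC)] with w hw
      exact hC hw
  · rw [himg HC (Or.inl rfl), h.closure]

/-! ### The argument of the boundary values -/

lemma disc_log {D : Set ℂ} {Φ : ℂ → ℂ} (h : IsCar D Φ) : ∃ L : ℂ → ℂ,
    ContinuousOn L (closedBall 0 1) ∧ ∀ v ∈ closedBall (0:ℂ) 1, Φ v - Φ 0 = v * exp (L v) := by
  have h0 : (0:ℂ) ∈ ball (0:ℂ) 1 := mem_ball_self one_pos
  have hd : DifferentiableAt ℂ Φ 0 := (h.diff 0 h0).differentiableAt (isOpen_ball.mem_nhds h0)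
  have hder : deriv Φ 0 ≠ 0 := Pool.Agent.H83.Lo.deriv_ne_zero isOpen_ball h.diff
    (h.inj.mono ball_subset_closedBall) h0
  have hc : ContinuousOn (dslope Φ 0) (closedBall 0 1) :=
    (continuousOn_dslope (closedBall_mem_nhds 0 one_pos)).2 ⟨h.cont, hd⟩
  have hne : ∀ v ∈ closedBall (0:ℂ) 1, dslope Φ 0 v ≠ 0 := by
    intro v hv
    by_cases hv0 : v = 0
    · rw [hv0, dslope_same]; exact hder
    · rw [dslope_of_ne _ hv0, slope_def_field, sub_zero]
      intro e
      rcases div_eq_zero_iff.1 e with e | e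
      · exact hv0 (h.inj hv (ball_subset_closedBall h0) (sub_eq_zero.1 e))
      · exact hv0 e
  obtain ⟨L, hL, hL'⟩ := Triv.of_convex (convex_closedBall (0:ℂ) 1) (dslope Φ 0) hc hne
  refine ⟨L, hL, fun v hv => ?_⟩
  rw [hL' v hv]
  by_cases hv0 : v = 0
  · rw [hv0]; simp
  · rw [dslope_of_ne _ hv0, slope_def_field, sub_zero]
    field_simp

lemma cay_real (x : ℝ) : cay 1 I x = exp (((π + 2 * Real.arctan x : ℝ) : ℂ) * I) := by
  have h1 : (x : ℂ) + I ≠ 0 := add_I_ne (by change (0:ℝ) ≤ (x:ℂ).im; simp)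
  have hs : (0:ℝ) < 1 + x ^ 2 := by positivity
  have hsq : Real.sqrt (1 + x ^ 2) ^ 2 = 1 + x ^ 2 := Real.sq_sqrt hs.le
  have hsq0 : Real.sqrt (1 + x ^ 2) ≠ 0 := (Real.sqrt_pos.2 hs).ne'
  have e1 : exp ((Real.arctan x : ℂ) * I) = (1 + x * I) / (Real.sqrt (1 + x ^ 2) : ℝ) := by
    rw [exp_mul_I, ← ofReal_cos, ← ofReal_sin, Real.cos_arctan, Real.sin_arctan]
    push_cast
    ring
  have e2 : exp (((π + 2 * Real.arctan x : ℝ) : ℂ) * I) =
      -(exp ((Real.arctan x : ℂ) * I)) ^ 2 := by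
    rw [← exp_nat_mul]
    push_cast
    rw [add_mul, exp_add, exp_pi_mul_I]
    ring_nf
  rw [cay1, e2, e1, div_pow]
  have h3 : (((Real.sqrt (1 + x ^ 2) : ℝ) : ℂ)) ^ 2 = 1 + (x : ℂ) ^ 2 := by
    rw [← ofReal_pow, hsq]
    push_cast
    rfl
  rw [h3]
  have h4 : (1 : ℂ) + (x : ℂ) ^ 2 ≠ 0 := by
    have : ((1 + x ^ 2 : ℝ) : ℂ) ≠ 0 := by exact_mod_cast hs.ne'
    push_cast at this
    exact this
  rw [div_eq_iff h1, ← neg_div, div_mul_eq_mul_div, eq_div_iff h4]
  have hI : I ^ 2 = -1 := I_sq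
  ring_nf
  simp only [show I ^ 3 = -I by rw [pow_succ, I_sq]; ring, I_sq]
  ring

/-- **Argument of the boundary values**: it increases by `2 π` along the real line. -/
theorem exists_arg_I {D : Set ℂ} {a b : ℂ} {φ : ℂ → ℂ} (h : IsHalf D a b φ) (hD : IsOpen D) :
    ∃ (A : ℝ → ℝ) (α : ℝ), Continuous A ∧
      (∀ x : ℝ, φ x - φ I = ‖φ x - φ I‖ * exp (A x * I)) ∧
      Tendsto A atTop (𝓝 (α + 2 * π)) ∧ Tendsto A atBot (𝓝 α) := by
  obtain ⟨L, hL, hL'⟩ := disc_log (isCar_toDisc h hD)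
  have hmem : ∀ x : ℝ, cay 1 I x ∈ closedBall (0:ℂ) 1 := fun x =>
    cay_closedBall norm_one I_im_pos (Pool.Agent.H19.RH.real_HC x)
  have hcc : Continuous (fun x : ℝ => cay 1 I (x : ℂ)) := by
    have : (fun x : ℝ => cay 1 I (x : ℂ)) =
        fun x : ℝ => exp (((π + 2 * Real.arctan x : ℝ) : ℂ) * I) := funext cay_real
    rw [this]
    have := Real.continuous_arctan
    fun_prop
  have hLc : Continuous (fun x : ℝ => L (cay 1 I (x : ℂ))) := by
    rw [← continuousOn_univ] at hcc ⊢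
    exact hL.comp hcc fun x _ => hmem x
  have hI : toDisc φ b 0 = φ I := by
    have : cay 1 I I = 0 := by rw [cay1]; simp
    rw [← this, toDisc_cay _ _ (show (0:ℝ) ≤ (I:ℂ).im from I_im_pos.le)]
  have heq : ∀ x : ℝ, φ x - φ I = exp (L (cay 1 I x) + ((π + 2 * Real.arctan x : ℝ) : ℂ) * I) := by
    intro x
    have := hL' _ (hmem x)
    rw [toDisc_cay _ _ (Pool.Agent.H19.RH.real_HC x), hI] at this
    rw [this, exp_add, ← cay_real, mul_comm]
  have hone : (1:ℂ) ∈ closedBall (0:ℂ) 1 := by simp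
  have hlim : ∀ l : Filter ℝ, Tendsto (fun x : ℝ => (x : ℂ)) l (Bornology.cobounded ℂ) →
      Tendsto (fun x : ℝ => (L (cay 1 I (x : ℂ))).im) l (𝓝 (L 1).im) := by
    intro l hl
    have h1 : Tendsto (fun x : ℝ => cay 1 I (x : ℂ)) l (𝓝 1) := by
      refine (cay_tendsto I_im_pos).comp (tendsto_inf.2 ⟨hl, tendsto_principal.2 ?_⟩)
      exact Eventually.of_forall fun x => Pool.Agent.H19.RH.real_HC x
    have h2 : Tendsto (fun x : ℝ => cay 1 I (x : ℂ)) l (𝓝[closedBall 0 1] 1) :=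
      tendsto_nhdsWithin_iff.2 ⟨h1, Eventually.of_forall hmem⟩
    have h3 : Tendsto L (𝓝[closedBall 0 1] 1) (𝓝 (L 1)) := hL 1 hone
    exact (Complex.continuous_im.tendsto _).comp (h3.comp h2)
  refine ⟨fun x => (L (cay 1 I x)).im + (π + 2 * Real.arctan x), (L 1).im, ?_, ?_, ?_, ?_⟩
  · have h1 := Complex.continuous_im.comp hLc
    exact h1.add (continuous_const.add (continuous_const.mul Real.continuous_arctan))
  · intro x
    set z := L (cay 1 I x) + ((π + 2 * Real.arctan x : ℝ) : ℂ) * I with hz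
    rw [heq x, Complex.norm_exp]
    have e1 : z.re = (L (cay 1 I x)).re := by
      rw [hz, add_re, mul_re, ofReal_re, ofReal_im, I_re, I_im]; ring
    have e2 : z.im = (L (cay 1 I x)).im + (π + 2 * Real.arctan x) := by
      rw [hz, add_im, mul_im, ofReal_re, ofReal_im, I_re, I_im]; ring
    rw [ofReal_exp, ← exp_add]
    have e3 : (((L (cay 1 I x)).im + (π + 2 * Real.arctan x) : ℝ) : ℂ) = (z.im : ℂ) := by rw [e2]
    change exp z = exp ((z.re : ℂ) +
      (((L (cay 1 I x)).im + (π + 2 * Real.arctan x) : ℝ) : ℂ) * I)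
    rw [e3, re_add_im]
  · have h1 := hlim atTop (RCLike.tendsto_ofReal_atTop_cobounded ℂ)
    have h2 : Tendsto Real.arctan atTop (𝓝 (π / 2)) :=
      Real.tendsto_arctan_atTop.mono_right nhdsWithin_le_nhds
    have h3 := h1.add ((tendsto_const_nhds (x := π)).add (h2.const_mul 2))
    rw [show (L 1).im + (π + 2 * (π / 2)) = (L 1).im + 2 * π by ring] at h3
    exact h3
  · have h1 := hlim atBot (RCLike.tendsto_ofReal_atBot_cobounded ℂ)
    have h2 : Tendsto Real.arctan atBot (𝓝 (-(π / 2))) :=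
      Real.tendsto_arctan_atBot.mono_right nhdsWithin_le_nhds
    have h3 := h1.add ((tendsto_const_nhds (x := π)).add (h2.const_mul 2))
    rw [show (L 1).im + (π + 2 * -(π / 2)) = (L 1).im by ring] at h3
    exact h3

/-- the same for an arbitrary base point -/
theorem exists_arg {D : Set ℂ} {a b : ℂ} {φ : ℂ → ℂ} (h : IsHalf D a b φ) (hD : IsOpen D) {w0 : ℂ}
    (hw0 : w0 ∈ HO) : ∃ (A : ℝ → ℝ) (α : ℝ), Continuous A ∧
      (∀ x : ℝ, φ x - φ w0 = ‖φ x - φ w0‖ * exp (A x * I)) ∧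
      Tendsto A atTop (𝓝 (α + 2 * π)) ∧ Tendsto A atBot (𝓝 α) := by
  have hβ : 0 < w0.im := hw0
  obtain ⟨A, α, h1, h2, h3, h4⟩ := exists_arg_I (half_pre h hβ w0.re) hD
  have e0 : (w0.im : ℂ) * I + w0.re = w0 := by
    rw [add_comm]; exact re_add_im w0
  refine ⟨fun x => A ((x - w0.re) / w0.im), α, by fun_prop, ?_, ?_, ?_⟩
  · intro x
    have := h2 ((x - w0.re) / w0.im)
    rw [e0] at this
    have e1 : (w0.im : ℂ) * (((x - w0.re) / w0.im : ℝ) : ℂ) + w0.re = x := by
      push_cast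
      have : (w0.im : ℂ) ≠ 0 := by exact_mod_cast hβ.ne'
      field_simp
      ring
    rw [e1] at this
    exact this
  · refine h3.comp ?_
    exact (tendsto_atTop_add_const_right _ (-w0.re) tendsto_id).atTop_div_const hβ
  · refine h4.comp ?_
    exact (tendsto_atBot_add_const_right _ (-w0.re) tendsto_id).atBot_div_const hβ

end Pool.Agent.H19.Rado
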