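import Pool.Agent.H19.Rado.Uni

set_option autoImplicit false
open Set Metric Filter Topology MeasureTheory Complex
open scoped Real ENNReal

/-! Jordan domains whose boundary loops converge uniformly: bounds, kernel convergence,
equicontinuity of the normalised conformal maps. -/

namespace Pool.Agent.H19.Rado

open Pool.Agent.H81.Q1 (IsJordanDomain)
open Pool.Agent.H14.Jordan
open Pool.Agent.H69.Car

/-- Jordan domains `D n` with boundary loops `ρ n` converging uniformly to the boundary loop `ρ0` of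
`D0`, with a common interior point `z0`. -/
structure LConv {ι : Type*} (l : Filter ι) (D : ι → Set ℂ) (ρ : ι → ℝ → ℂ) (D0 : Set ℂ)
    (ρ0 : ℝ → ℂ) (z0 : ℂ) : Prop where
  jd0 : IsJD D0 ρ0
  jd : ∀ᶠ n in l, IsJD (D n) (ρ n)
  unif : ∀ δ > 0, ∀ᶠ n in l, ∀ t, dist (ρ n t) (ρ0 t) ≤ δ
  mem0 : z0 ∈ D0
  mem : ∀ᶠ n in l, z0 ∈ D n

/-- **Convergence of Jordan domains** in the sense of Caratheodory, with a uniform bound on necks. -/
structure KConv {ι : Type*} (l : Filter ι) (D : ι → Set ℂ) (D0 : Set ℂ) : Prop where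
  jd0 : IsJordanDomain D0
  jd : ∀ᶠ n in l, IsJordanDomain (D n)
  bdd : ∃ R > 0, closure D0 ⊆ closedBall 0 R ∧ ∀ᶠ n in l, closure (D n) ⊆ closedBall 0 R
  ball_mem : ∀ z ∈ D0, ∃ s > 0, closedBall z s ⊆ D0 ∧ ∀ᶠ n in l, closedBall z s ⊆ D n
  lim_mem : ∀ l' : Filter ι, l' ≤ l → l'.NeBot → ∀ (x : ι → ℂ) (x0 : ℂ),
    (∀ᶠ n in l', x n ∈ closure (D n)) → Tendsto x l' (𝓝 x0) → x0 ∈ closure D0
  far : ∀ ε > 0, ∃ δ > 0, ∀ᶠ n in l, ∀ (c : ℂ) (K : Set ℂ), IsCompact K → K ⊆ closedBall c δ →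
    ∀ z ∈ D n, ∀ w ∈ D n, ε < dist z c → ε < dist w c → JoinedIn (D n \ K) z w

lemma KConv.mono {ι : Type*} {l l' : Filter ι} {D : ι → Set ℂ} {D0 : Set ℂ} (h : KConv l D D0)
    (hl : l' ≤ l) : KConv l' D D0 where
  jd0 := h.jd0
  jd := hl h.jd
  bdd := by
    obtain ⟨R, hR, h1, h2⟩ := h.bdd
    exact ⟨R, hR, h1, hl h2⟩
  ball_mem z hz := by
    obtain ⟨s, hs, h1, h2⟩ := h.ball_mem z hz
    exact ⟨s, hs, h1, hl h2⟩
  lim_mem l'' hl'' hne x x0 := h.lim_mem l'' (hl''.trans hl) hne x x0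
  far ε hε := by
    obtain ⟨δ, hδ, h1⟩ := h.far ε hε
    exact ⟨δ, hδ, hl h1⟩

/-- A Jordan domain lies in a ball as soon as its boundary does. -/
lemma subset_ball_of_loop {D : Set ℂ} {ρ : ℝ → ℂ} (h : IsJD D ρ) {R : ℝ} (hR : 0 < R)
    (hρ : ∀ t, ‖ρ t‖ ≤ R) : D ⊆ closedBall 0 R := by
  intro z hz
  by_contra hcon
  rw [mem_closedBall_zero_iff, not_le] at hcon
  have hE := preconnected_outside 0 hR
  have hsub : {y : ℂ | R < ‖y - 0‖} ⊆ D := by
    refine subset_of_frontier hE ?_ ⟨z, by simpa using hcon, hz⟩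
    rw [h.fr, disjoint_left]
    rintro _ ⟨t, rfl⟩ ht
    rw [mem_ofPred_eq, sub_zero] at ht
    exact absurd (hρ t) (not_le.2 ht)
  obtain ⟨B, hB⟩ := h.bdd.exists_norm_le
  have hm : ((max B R + 1 : ℝ) : ℂ) ∈ {y : ℂ | R < ‖y - 0‖} := by
    have h1 : 0 < max B R + 1 := by
      have := le_max_right B R
      linarith
    rw [mem_ofPred_eq, sub_zero, norm_real, Real.norm_of_nonneg h1.le]
    have := le_max_right B R
    linarith
  have h2 := hB _ (hsub hm)
  have h1 : 0 < max B R + 1 := by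
    have := le_max_right B R
    linarith
  rw [norm_real, Real.norm_of_nonneg h1.le] at h2
  have := le_max_left B R
  linarith

variable {ι : Type*} {l : Filter ι} {D : ι → Set ℂ} {ρ : ι → ℝ → ℂ} {D0 : Set ℂ}
  {ρ0 : ℝ → ℂ} {z0 : ℂ}

namespace LConv
variable (h : LConv l D ρ D0 ρ0 z0)
include h

/-- uniform boundedness -/
lemma bdd : ∃ R > 0, closure D0 ⊆ closedBall 0 R ∧ ∀ᶠ n in l, closure (D n) ⊆ closedBall 0 R := by
  obtain ⟨B, hB⟩ := (h.jd0.bdd.closure).exists_norm_le
  refine ⟨max B 0 + 1, by have := le_max_right B 0; linarith, ?_, ?_⟩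
  · intro z hz
    rw [mem_closedBall_zero_iff]
    have := hB z hz
    have := le_max_left B 0
    linarith
  · filter_upwards [h.jd, h.unif 1 one_pos] with n hn hu
    refine closure_minimal ?_ isClosed_closedBall
    refine subset_ball_of_loop hn (by have := le_max_right B 0; linarith) fun t => ?_
    have h1 : ρ0 t ∈ closure D0 := by
      have : ρ0 t ∈ frontier D0 := by rw [h.jd0.fr]; exact mem_range_self t
      exact frontier_subset_closure this
    have h2 := hB _ h1
    have h3 := hu t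
    have h4 : ‖ρ n t‖ ≤ ‖ρ0 t‖ + dist (ρ n t) (ρ0 t) := by
      rw [dist_eq_norm]
      have := norm_add_le (ρ0 t) (ρ n t - ρ0 t)
      simpa using this
    have := le_max_left B 0
    linarith

/-- A compact set off the limit curve is off the curves. -/
lemma avoid {C : Set ℂ} (hC : IsCompact C) (hd : Disjoint C (range ρ0)) :
    ∀ᶠ n in l, Disjoint (frontier (D n)) C := by
  obtain ⟨δ, hδ, hdis⟩ := hd.exists_thickenings hC h.jd0.loop.isCompact_range.isClosed
  filter_upwards [h.jd, h.unif (δ / 2) (by positivity)] with n hn hu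
  rw [hn.fr, disjoint_left]
  rintro _ ⟨t, rfl⟩ ht
  refine disjoint_left.1 hdis (self_subset_thickening hδ _ ht) ?_
  rw [mem_thickening_iff]
  exact ⟨ρ0 t, mem_range_self t, lt_of_le_of_lt (hu t) (by linarith)⟩

/-- Kernel convergence: interior points. -/
lemma ball_mem {z : ℂ} (hz : z ∈ D0) :
    ∃ s > 0, closedBall z s ⊆ D0 ∧ ∀ᶠ n in l, closedBall z s ⊆ D n := by
  obtain ⟨s, hs, hsub⟩ := Metric.nhds_basis_closedBall.mem_iff.1 (h.jd0.isOpen.mem_nhds hz)
  obtain ⟨γ, hγ⟩ := (h.jd0.isOpen.isConnected_iff_isPathConnected.1 h.jd0.conn).joinedIn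
    z0 h.mem0 z hz
  set C : Set ℂ := range γ ∪ closedBall z s with hC
  have hCc : IsCompact C := (isCompact_range γ.continuous).union (isCompact_closedBall z s)
  have hzb : z ∈ closedBall z s := mem_closedBall_self hs.le
  have hCp : IsPreconnected C :=
    (isPreconnected_range γ.continuous).union z ⟨1, γ.target⟩ hzb
      (convex_closedBall z s).isPreconnected
  have hCD : C ⊆ D0 := by
    rintro y (⟨t, rfl⟩ | hy)
    · exact hγ t
    · exact hsub hy
  have hdis : Disjoint C (range ρ0) := h.jd0.disj.mono_left hCD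
  refine ⟨s, hs, hsub, ?_⟩
  filter_upwards [h.avoid hCc hdis, h.mem] with n h1 h2
  have h3 : C ⊆ D n := subset_of_frontier hCp h1 ⟨z0, Or.inl ⟨0, γ.source⟩, h2⟩
  exact subset_union_right.trans h3

/-- Kernel convergence: limits of points of the closures. -/
lemma lim_mem [l.NeBot] {x : ι → ℂ} {x0 : ℂ} (hx : ∀ᶠ n in l, x n ∈ closure (D n))
    (ht : Tendsto x l (𝓝 x0)) : x0 ∈ closure D0 := by
  by_contra hcon
  obtain ⟨ho, hc, -⟩ := h.jd0.exterior
  obtain ⟨R, hR, hR1, hR2⟩ := h.bdd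
  set Z : ℂ := ((R + 1 : ℝ) : ℂ) with hZ
  have hZn : ‖Z‖ = R + 1 := by rw [hZ, norm_real, Real.norm_of_nonneg (by linarith)]
  have hZe : Z ∈ (closure D0)ᶜ := by
    intro hh
    have := hR1 hh
    rw [mem_closedBall_zero_iff, hZn] at this
    linarith
  obtain ⟨s, hs, hsub⟩ := Metric.nhds_basis_closedBall.mem_iff.1
    (ho.mem_nhds (show x0 ∈ (closure D0)ᶜ from hcon))
  obtain ⟨γ, hγ⟩ := (ho.isConnected_iff_isPathConnected.1 hc).joinedIn x0 hcon Z hZe
  set C : Set ℂ := range γ ∪ closedBall x0 s with hC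
  have hCc : IsCompact C := (isCompact_range γ.continuous).union (isCompact_closedBall x0 s)
  have hCp : IsPreconnected C :=
    (isPreconnected_range γ.continuous).union x0 ⟨0, γ.source⟩ (mem_closedBall_self hs.le)
      (convex_closedBall x0 s).isPreconnected
  have hCD : C ⊆ (closure D0)ᶜ := by
    rintro y (⟨t, rfl⟩ | hy)
    · exact hγ t
    · exact hsub hy
  have hdis : Disjoint C (range ρ0) := by
    rw [← h.jd0.fr, disjoint_left]
    intro y hy hy'
    exact hCD hy (frontier_subset_closure hy')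
  obtain ⟨n, ⟨h1, h2⟩, h3, h4⟩ := ((((h.avoid hCc hdis).and hR2).and
    (hx.and (ht.eventually (closedBall_mem_nhds x0 hs))))).exists
  have h5 : x n ∈ C := Or.inr h4
  have h6 : x n ∈ D n := by
    rw [closure_eq_self_union_frontier] at h3
    rcases h3 with h3 | h3
    · exact h3
    · exact absurd h5 (disjoint_left.1 h1 h3)
  have h7 : C ⊆ D n := subset_of_frontier hCp h1 ⟨x n, h5, h6⟩
  have h8 : Z ∈ D n := h7 (Or.inl ⟨1, γ.target⟩)
  have h9 := h2 (subset_closure h8)
  rw [mem_closedBall_zero_iff, hZn] at h9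
  linarith

/-- uniform bound on necks -/
lemma far {ε : ℝ} (hε : 0 < ε) : ∃ δ > 0, ∀ᶠ n in l, ∀ (c : ℂ) (K : Set ℂ), IsCompact K →
    K ⊆ closedBall c δ → ∀ z ∈ D n, ∀ w ∈ D n, ε < dist z c → ε < dist w c →
      JoinedIn (D n \ K) z w := by
  obtain ⟨δ, hδ, hsa⟩ := exists_sa h.jd0.loop (show 0 < ε / 2 by positivity)
  refine ⟨min (δ / 3) (ε / 3), by positivity, ?_⟩
  filter_upwards [h.jd, h.unif δ hδ] with n g3 g4 c K hK hKc z hz w hw hzc hwc
  exact joined_of_sa g3.loop g3.isOpen g3.conn.isPreconnected g3.fr hε hδ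
        (hsa (ρ n) g3.loop g4) c K hK hKc hz hw hzc hwc

end LConv

lemma isJordanDomain_of_isJD {D : Set ℂ} {ρ : ℝ → ℂ} (h : IsJD D ρ) : IsJordanDomain D := by
  have hpi : (0:ℝ) < 2 * π := Real.two_pi_pos
  have : Fact ((0:ℝ) < 2 * π) := ⟨hpi⟩
  refine ⟨h.isOpen, h.conn, h.bdd, ?_⟩
  have hper : ρ 0 = ρ (0 + 2 * π) := (h.loop.add_two_pi 0).symm
  set f : AddCircle (2 * π) → ℂ := AddCircle.liftIco (2 * π) 0 ρ with hf
  have hfc : Continuous f := AddCircle.liftIco_continuous hper h.loop.cont.continuousOn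
  have hfv : ∀ u ∈ Ico (0:ℝ) (2 * π), f (u : AddCircle (2 * π)) = ρ u := fun u hu =>
    AddCircle.liftIco_coe_apply (by rw [zero_add]; exact hu)
  have hrep : ∀ a : AddCircle (2 * π), ∃ u ∈ Ico (0:ℝ) (2 * π), (u : AddCircle (2 * π)) = a := by
    intro a
    obtain ⟨u, hu, hu'⟩ := AddCircle.coe_image_Ico_eq (2 * π) 0 ▸ mem_univ a
    exact ⟨u, by rw [zero_add] at hu; exact hu, hu'⟩
  set e := AddCircle.homeomorphCircle hpi.ne' with he
  refine ⟨fun c => f (e.symm c), hfc.comp e.symm.continuous, ?_, ?_⟩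
  · have hfi : Function.Injective f := by
      intro a b hab
      obtain ⟨u, hu, rfl⟩ := hrep a
      obtain ⟨v, hv, rfl⟩ := hrep b
      rw [hfv u hu, hfv v hv] at hab
      have := h.loop.injOn (a := min u v) (b := max u v) (by
        rcases le_total u v with huv | huv
        · rw [max_eq_right huv, min_eq_left huv]; linarith [hu.1, hv.2]
        · rw [max_eq_left huv, min_eq_right huv]; linarith [hv.1, hu.2])
        ⟨min_le_left _ _, le_max_left _ _⟩ ⟨min_le_right _ _, le_max_right _ _⟩ hab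
      rw [this]
    exact hfi.comp e.symm.injective
  · rw [h.fr]
    apply Subset.antisymm
    · rintro _ ⟨t, rfl⟩
      obtain ⟨u, hu, hut⟩ := h.loop.exists_mem_Ico 0 t
      rw [zero_add] at hu
      refine ⟨e (u : AddCircle (2 * π)), ?_⟩
      show f (e.symm (e _)) = _
      rw [e.symm_apply_apply, hfv u hu, hut]
    · rintro _ ⟨c, rfl⟩
      obtain ⟨u, hu, hu'⟩ := hrep (e.symm c)
      show f (e.symm c) ∈ _
      rw [← hu', hfv u hu]
      exact mem_range_self u

/-- Uniform convergence of the boundary loops is enough. -/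
theorem LConv.kconv (h : LConv l D ρ D0 ρ0 z0) : KConv l D D0 where
  jd0 := isJordanDomain_of_isJD h.jd0
  jd := h.jd.mono fun n hn => isJordanDomain_of_isJD hn
  bdd := h.bdd
  ball_mem z hz := h.ball_mem hz
  lim_mem l' hl' hne x x0 hx hx0 :=
    LConv.lim_mem (l := l') ⟨h.jd0, hl' h.jd, fun δ hδ => hl' (h.unif δ hδ), h.mem0, hl' h.mem⟩ hx hx0
  far ε hε := h.far hε

/-- **Convergence without parametrised curves** (helper5's form): compact subsets are covered, the
domains stay close to `D0`, and there are no thin necks. -/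
theorem KConv.of_necks (jd0 : IsJordanDomain D0) (jd : ∀ᶠ n in l, IsJordanDomain (D n))
    (H1 : ∀ K : Set ℂ, IsCompact K → K ⊆ D0 → ∀ᶠ n in l, K ⊆ D n)
    (H1' : ∀ s > 0, ∀ᶠ n in l, ∀ z ∈ D n, ∃ w ∈ D0, dist z w < s)
    (H2 : ∀ ε > 0, ∃ δ > 0, ∀ᶠ n in l, ∀ p : ℂ, ¬ closedBall p δ ⊆ D n → ∀ z ∈ D n,
      ε ≤ dist z p → JoinedIn (D n \ closedBall p δ) z z0) : KConv l D D0 where
  jd0 := jd0
  jd := jd
  bdd := by
    obtain ⟨B, hB⟩ := (jd0.2.2.1.closure).exists_norm_le
    refine ⟨max B 0 + 1, by have := le_max_right B 0; linarith, ?_, ?_⟩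
    · intro z hz
      rw [mem_closedBall_zero_iff]
      have := hB z hz
      have := le_max_left B 0
      linarith
    · filter_upwards [H1' 1 one_pos] with n hn
      refine closure_minimal ?_ isClosed_closedBall
      intro z hz
      obtain ⟨w, hw, hzw⟩ := hn z hz
      have h1 := hB w (subset_closure hw)
      have h2 := norm_le_norm_add_norm_sub w z
      rw [mem_closedBall_zero_iff]
      rw [dist_comm, dist_eq_norm] at hzw
      have := le_max_left B 0
      linarith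
  ball_mem z hz := by
    obtain ⟨s, hs, hsub⟩ := Metric.nhds_basis_closedBall.mem_iff.1 (jd0.1.mem_nhds hz)
    exact ⟨s, hs, hsub, H1 _ (isCompact_closedBall z s) hsub⟩
  lim_mem l' hl' hne x x0 hx hx0 := by
    rw [Metric.mem_closure_iff]
    intro ε hε
    obtain ⟨n, ⟨h1, h2⟩, h3⟩ := ((hx.and (hl' (H1' (ε / 3) (by positivity)))).and
      (Metric.tendsto_nhds.1 hx0 (ε / 3) (by positivity))).exists
    obtain ⟨y, hy, hxy⟩ := Metric.mem_closure_iff.1 h1 (ε / 3) (by positivity)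
    obtain ⟨w, hw, hyw⟩ := h2 y hy
    refine ⟨w, hw, ?_⟩
    have a1 := dist_triangle4 x0 (x n) y w
    rw [dist_comm] at h3
    linarith
  far ε hε := by
    obtain ⟨δ, hδ, h2⟩ := H2 ε hε
    refine ⟨min δ (ε / 2), by positivity, ?_⟩
    filter_upwards [jd, h2] with n g1 g2 c K hK hKc z hz w hw hzc hwc
    have e1 := min_le_left δ (ε / 2)
    have e2 := min_le_right δ (ε / 2)
    by_cases hb : closedBall c δ ⊆ D n
    · apply joinedIn_of_frontier hz
      have hD1 : JoinedIn (frontier (D n))ᶜ z w := by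
        have h1 : JoinedIn (D n) z w :=
          (g1.1.isConnected_iff_isPathConnected.1 g1.2.1).joinedIn z hz w hw
        exact h1.mono fun x hx hx' => disjoint_left.1 (frontier_disjoint_open g1.1) hx hx'
      have hfc : IsCompact (frontier (D n)) :=
        Metric.isCompact_of_isClosed_isBounded isClosed_frontier
          (g1.2.2.1.closure.subset frontier_subset_closure)
      refine janiszewski hfc hK ?_ hD1 ?_
      · have : frontier (D n) ∩ K = ∅ := by
          rw [← disjoint_iff_inter_eq_empty, disjoint_left]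
          intro x hx hxK
          exact disjoint_left.1 (frontier_disjoint_open g1.1)
            (hb (closedBall_subset_closedBall e1 (hKc hxK))) hx
        rw [this]; exact isPreconnected_empty
      · refine (joined_outside_ball (c := c) (r := min δ (ε / 2)) (by positivity)
          (by linarith) (by linarith)).mono (compl_subset_compl.2 hKc)
    · have hsub : D n \ closedBall c δ ⊆ D n \ K := fun x hx =>
        ⟨hx.1, fun hxK => hx.2 (closedBall_subset_closedBall e1 (hKc hxK))⟩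
      exact ((g2 c hb z hz hzc.le).mono hsub).trans ((g2 c hb w hw hwc.le).mono hsub).symm

namespace KConv
variable (h : KConv l D D0)
include h

/-- Limits of boundary points. -/
lemma lim_frontier [hne : l.NeBot] {x : ι → ℂ} {x0 : ℂ} (hx : ∀ᶠ n in l, x n ∈ frontier (D n))
    (ht : Tendsto x l (𝓝 x0)) : x0 ∈ frontier D0 := by
  rw [h.jd0.1.frontier_eq]
  refine ⟨h.lim_mem l le_rfl hne x x0 (hx.mono fun n hn => frontier_subset_closure hn) ht, ?_⟩
  intro hx0
  obtain ⟨s, hs, -, hs2⟩ := h.ball_mem x0 hx0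
  obtain ⟨n, ⟨h1, h2⟩, h3, h4⟩ := ((h.jd.and hs2).and
    (hx.and (ht.eventually (closedBall_mem_nhds x0 hs)))).exists
  exact disjoint_left.1 (frontier_disjoint_open h1.1) (h2 h4) h3

/-- **Equicontinuity** of the normalised conformal maps. -/
lemma equi {Φ : ι → ℂ → ℂ} (hΦ : ∀ᶠ n in l, IsCar (D n) (Φ n)) {d0 : ℝ} (hd0 : 0 < d0)
    (h3 : ∀ᶠ n in l, d0 < dist (Φ n 1) (Φ n (-1)) ∧ d0 < dist (Φ n 1) (Φ n (-I)) ∧
      d0 < dist (Φ n (-1)) (Φ n (-I))) {ε : ℝ} (hε : 0 < ε) :
    ∃ r > 0, ∀ᶠ n in l, ∀ z ∈ closedBall (0:ℂ) 1, ∀ w ∈ closedBall (0:ℂ) 1, dist z w < r →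
      dist (Φ n z) (Φ n w) ≤ ε := by
  set ε1 := min (ε / 2) (d0 / 2) with hε1
  have hε10 : 0 < ε1 := by positivity
  have e1 := min_le_left (ε / 2) (d0 / 2)
  have e2 := min_le_right (ε / 2) (d0 / 2)
  obtain ⟨δ, hδ, hfar⟩ := h.far ε1 hε10
  obtain ⟨R, hR, -, hR2⟩ := h.bdd
  set A := max 1 (volume (closedBall (0:ℂ) R)).toReal with hA
  have hA0 : 0 < A := lt_of_lt_of_le one_pos (le_max_left _ _)
  have hfin : volume (closedBall (0:ℂ) R) < ⊤ := isBounded_closedBall.measure_lt_top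
  refine ⟨rr A δ, rr_pos _ _, ?_⟩
  filter_upwards [hΦ, h3, hfar, hR2] with n g1 g2 g3 g5 z hz w hw hzw
  have hv : volume (D n) ≤ ENNReal.ofReal A := by
    refine (measure_mono (subset_closure.trans g5)).trans ?_
    exact (ENNReal.le_ofReal_iff_toReal_le hfin.ne hA0.le).2 (le_max_right _ _)
  have key := unif_closed g1 hA0 hv hδ (ε := ε1) g3
    (by linarith [g2.1]) (by linarith [g2.2.1]) (by linarith [g2.2.2])
  have := key z hz w hw hzw
  linarith

end KConv

end Pool.Agent.H19.Rado
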