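import Pool.Agent.H19.Rado.Conv

set_option autoImplicit false
open Set Metric Filter Topology MeasureTheory Complex
open scoped Real ENNReal

/-! The limit of normalised conformal maps of the disc along an ultrafilter. -/

namespace Pool.Agent.H19.Rado

open Pool.Agent.H81.Q1 (IsJordanDomain)
open Pool.Agent.H14.Jordan
open Pool.Agent.H69.Car

lemma exists_ulim {ι : Type*} {U : Ultrafilter ι} {f : ι → ℂ} {R : ℝ}
    (h : ∀ᶠ n in (U : Filter ι), f n ∈ closedBall (0:ℂ) R) :
    ∃ y ∈ closedBall (0:ℂ) R, Tendsto f U (𝓝 y) := by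
  have h1 : (U.map f : Filter ℂ) ≤ 𝓟 (closedBall 0 R) := by
    rw [le_principal_iff]; exact h
  obtain ⟨y, hy, hle⟩ := (isCompact_closedBall (0:ℂ) R).ultrafilter_le_nhds (U.map f) h1
  exact ⟨y, hy, hle⟩

lemma IsCar.mem_closure {D : Set ℂ} {Φ : ℂ → ℂ} (h : IsCar D Φ) {z : ℂ}
    (hz : z ∈ closedBall (0:ℂ) 1) : Φ z ∈ closure D := by
  rw [← ball_union_sphere] at hz
  rw [closure_eq_self_union_frontier, ← h.image_sphere]
  rcases hz with hz | hz
  · left
    have h1 : Φ z ∈ Φ '' ball 0 1 := mem_image_of_mem _ hz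
    rwa [h.image_ball] at h1
  · right
    exact mem_image_of_mem _ hz

/-- The limit map. -/
structure IsLimMap {ι : Type*} (U : Ultrafilter ι) (Φ : ι → ℂ → ℂ) (D0 : Set ℂ) (Ψ : ℂ → ℂ) :
    Prop where
  lim : ∀ z ∈ closedBall (0:ℂ) 1, ∀ w : ι → ℂ,
    (∀ᶠ n in (U : Filter ι), w n ∈ closedBall (0:ℂ) 1) → Tendsto w U (𝓝 z) →
    Tendsto (fun n => Φ n (w n)) U (𝓝 (Ψ z))
  cont : ContinuousOn Ψ (closedBall 0 1)
  diff : DifferentiableOn ℂ Ψ (ball 0 1)
  bij : BijOn Ψ (ball 0 1) D0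
  sph : MapsTo Ψ (sphere 0 1) (frontier D0)

variable {ι : Type*} {U : Ultrafilter ι} {D : ι → Set ℂ} {D0 : Set ℂ}

theorem exists_limMap (h : KConv (U : Filter ι) D D0) {Φ : ι → ℂ → ℂ}
    (hΦ : ∀ᶠ n in (U : Filter ι), IsCar (D n) (Φ n)) {d0 : ℝ} (hd0 : 0 < d0)
    (h3 : ∀ᶠ n in (U : Filter ι), d0 < dist (Φ n 1) (Φ n (-1)) ∧ d0 < dist (Φ n 1) (Φ n (-I)) ∧
      d0 < dist (Φ n (-1)) (Φ n (-I))) : ∃ Ψ : ℂ → ℂ, IsLimMap U Φ D0 Ψ := by
  obtain ⟨R, hR, hR1, hR2⟩ := h.bdd
  have hlim0 : ∀ z ∈ closedBall (0:ℂ) 1, ∃ y, Tendsto (fun n => Φ n z) U (𝓝 y) := by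
    intro z hz
    obtain ⟨y, -, hy⟩ := exists_ulim (U := U) (f := fun n => Φ n z) (R := R) (by
      filter_upwards [hΦ, hR2] with n g1 g2
      exact g2 (IsCar.mem_closure g1 hz))
    exact ⟨y, hy⟩
  choose! Ψ hΨ using hlim0
  have hE : ∀ ε > 0, ∃ r > 0, ∀ᶠ n in (U : Filter ι), ∀ z ∈ closedBall (0:ℂ) 1,
      ∀ w ∈ closedBall (0:ℂ) 1, dist z w < r → dist (Φ n z) (Φ n w) ≤ ε :=
    fun ε hε => h.equi hΦ hd0 h3 hε
  have hE' : ∀ ε > 0, ∃ r > 0, ∀ z ∈ closedBall (0:ℂ) 1, ∀ w ∈ closedBall (0:ℂ) 1,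
      dist z w < r → dist (Ψ z) (Ψ w) ≤ ε := by
    intro ε hε
    obtain ⟨r, hr, h1⟩ := hE ε hε
    refine ⟨r, hr, fun z hz w hw hzw => ?_⟩
    refine le_of_tendsto ((hΨ z hz).dist (hΨ w hw)) ?_
    filter_upwards [h1] with n hn
    exact hn z hz w hw hzw
  have hlim : ∀ z ∈ closedBall (0:ℂ) 1, ∀ w : ι → ℂ,
      (∀ᶠ n in (U : Filter ι), w n ∈ closedBall (0:ℂ) 1) → Tendsto w U (𝓝 z) →
      Tendsto (fun n => Φ n (w n)) U (𝓝 (Ψ z)) := by
    intro z hz w hw ht
    rw [Metric.tendsto_nhds]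
    intro ε hε
    obtain ⟨r, hr, h1⟩ := hE (ε / 3) (by positivity)
    have h2 := Metric.tendsto_nhds.1 ht r hr
    have h4 := Metric.tendsto_nhds.1 (hΨ z hz) (ε / 3) (by positivity)
    filter_upwards [h1, h2, h4, hw] with n g1 g2 g4 g5
    have g6 := g1 (w n) g5 z hz g2
    have g7 := dist_triangle (Φ n (w n)) (Φ n z) (Ψ z)
    linarith
  have hcont : ContinuousOn Ψ (closedBall 0 1) := by
    intro z hz
    rw [ContinuousWithinAt, Metric.tendsto_nhds]
    intro ε hε
    obtain ⟨r, hr, h1⟩ := hE' (ε / 2) (by positivity)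
    filter_upwards [self_mem_nhdsWithin, mem_nhdsWithin_of_mem_nhds (ball_mem_nhds z hr)]
      with w hw hw2
    have := h1 w hw z hz hw2
    linarith
  have hloc : TendstoLocallyUniformlyOn Φ Ψ U (ball 0 1) := by
    rw [Metric.tendstoLocallyUniformlyOn_iff]
    intro ε hε x hx
    obtain ⟨r, hr, h1⟩ := hE (ε / 4) (by positivity)
    obtain ⟨r', hr', h1'⟩ := hE' (ε / 4) (by positivity)
    have hx' := ball_subset_closedBall hx
    have h4 := Metric.tendsto_nhds.1 (hΨ x hx') (ε / 4) (by positivity)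
    refine ⟨ball x (min r r') ∩ ball 0 1, inter_mem (mem_nhdsWithin_of_mem_nhds
      (ball_mem_nhds x (by positivity))) self_mem_nhdsWithin, ?_⟩
    filter_upwards [h1, h4] with n g1 g4 y hy
    have hy1 := mem_ball.1 hy.1
    have hy2 := ball_subset_closedBall hy.2
    have a1 := g1 y hy2 x hx' (lt_of_lt_of_le hy1 (min_le_left _ _))
    have a2 := h1' y hy2 x hx' (lt_of_lt_of_le hy1 (min_le_right _ _))
    have a3 := dist_triangle4 (Ψ y) (Ψ x) (Φ n x) (Φ n y)
    rw [dist_comm] at g4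
    rw [dist_comm] at a1
    linarith
  have hdiff : DifferentiableOn ℂ Ψ (ball 0 1) := by
    refine hloc.differentiableOn ?_ isOpen_ball
    filter_upwards [hΦ] with n hn
    exact hn.diff
  have hsph : MapsTo Ψ (sphere 0 1) (frontier D0) := by
    intro z hz
    have hz' := sphere_subset_closedBall hz
    refine h.lim_frontier ?_ (hΨ z hz')
    filter_upwards [hΦ] with n hn
    rw [← hn.image_sphere]
    exact mem_image_of_mem _ hz
  have hdis : ∀ p ∈ frontier D0, p ∉ D0 := by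
    intro p hp hp'
    exact disjoint_left.1 (frontier_disjoint_open h.jd0.1) hp' hp
  have hsurj : SurjOn Ψ (ball 0 1) D0 := by
    intro z hz
    obtain ⟨s, hs, hs1, hs2⟩ := h.ball_mem z hz
    have hex : ∀ᶠ n in (U : Filter ι), ∃ u ∈ ball (0:ℂ) 1, Φ n u = z := by
      filter_upwards [hΦ, hs2] with n g1 g2
      have : z ∈ Φ n '' ball 0 1 := by
        rw [g1.image_ball]
        exact g2 (mem_closedBall_self hs.le)
      exact this
    set f : ι → ℂ := fun n => Function.invFunOn (Φ n) (ball 0 1) z with hf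
    have hf1 : ∀ᶠ n in (U : Filter ι), f n ∈ ball (0:ℂ) 1 ∧ Φ n (f n) = z := by
      filter_upwards [hex] with n hn
      exact Function.invFunOn_pos hn
    obtain ⟨y, hy, hty⟩ := exists_ulim (U := U) (f := f) (R := 1)
      (hf1.mono fun n hn => ball_subset_closedBall hn.1)
    have h5 := hlim y hy f (hf1.mono fun n hn => ball_subset_closedBall hn.1) hty
    have h6 : Tendsto (fun n => Φ n (f n)) U (𝓝 z) := by
      refine Tendsto.congr' ?_ tendsto_const_nhds
      filter_upwards [hf1] with n hn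
      exact hn.2.symm
    have h7 : Ψ y = z := tendsto_nhds_unique h5 h6
    refine ⟨y, ?_, h7⟩
    rw [← ball_union_sphere] at hy
    rcases hy with hy | hy
    · exact hy
    · exact absurd (h7 ▸ hz) (hdis _ (hsph hy))
  have hmaps : MapsTo Ψ (ball 0 1) D0 := by
    have hana : AnalyticOnNhd ℂ Ψ (ball 0 1) := hdiff.analyticOnNhd isOpen_ball
    rcases hana.is_constant_or_isOpen (convex_ball (0:ℂ) 1).isPreconnected with hc | ho
    · exfalso
      obtain ⟨w, hw⟩ := hc
      obtain ⟨z0, hz0⟩ := h.jd0.2.1.nonempty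
      obtain ⟨s, hs, hs1, -⟩ := h.ball_mem z0 hz0
      have hsC : ((s : ℝ) : ℂ) ≠ 0 := ofReal_ne_zero.2 hs.ne'
      have m2 : z0 + s ∈ D0 := hs1 (by
        rw [mem_closedBall, dist_eq_norm, add_sub_cancel_left, norm_real,
          Real.norm_of_nonneg hs.le])
      obtain ⟨u, hu, e1⟩ := hsurj hz0
      obtain ⟨v, hv, e2⟩ := hsurj m2
      rw [hw u hu] at e1
      rw [hw v hv, e1] at e2
      apply hsC
      linear_combination -e2
    · intro z hz
      have hV : IsOpen (Ψ '' ball 0 1) := ho _ Subset.rfl isOpen_ball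
      have hVc : Ψ '' ball 0 1 ⊆ closure D0 := by
        rintro _ ⟨u, hu, rfl⟩
        refine h.lim_mem U le_rfl inferInstance (fun n => Φ n u) _ ?_
          (hΨ u (ball_subset_closedBall hu))
        filter_upwards [hΦ] with n hn
        exact IsCar.mem_closure hn (ball_subset_closedBall hu)
      by_contra hcon
      have h5 : Ψ z ∈ Ψ '' ball 0 1 := mem_image_of_mem _ hz
      have h6 : Ψ z ∈ frontier D0 := by
        rw [h.jd0.1.frontier_eq]
        exact ⟨hVc h5, hcon⟩
      have h7 := frontier_subset_ext h.jd0 h6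
      rw [_root_.mem_closure_iff] at h7
      obtain ⟨y, hy1, hy2⟩ := h7 _ hV h5
      exact hy2 (hVc hy1)
  have hinj : InjOn Ψ (ball 0 1) := by
    intro z hz w hw hzw
    set p := Ψ z with hp
    have hpD : p ∈ D0 := hmaps hz
    obtain ⟨s, hs, hs1, hs2⟩ := h.ball_mem p hpD
    set F : ι → ℂ → ℂ := fun n => Function.invFunOn (Φ n) (ball 0 1) with hF
    have key : ∀ u ∈ ball (0:ℂ) 1, Ψ u = p → Tendsto (fun n => dist u (F n p)) U (𝓝 0) := by
      intro u hu hup
      have hu' := ball_subset_closedBall hu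
      have h1 : Tendsto (fun n => 2 / s * dist (Φ n u) p) U (𝓝 0) := by
        have h2 : Tendsto (fun n => dist (Φ n u) p) U (𝓝 (dist (Ψ u) p)) :=
          (hΨ u hu').dist tendsto_const_nhds
        rw [hup, dist_self] at h2
        simpa using h2.const_mul (2 / s)
      have h3 := Metric.tendsto_nhds.1 (hΨ u hu') s hs
      refine squeeze_zero' (Eventually.of_forall fun n => dist_nonneg) ?_ h1
      filter_upwards [hΦ, hs2, h3] with n g1 g2 g3
      have hb : BijOn (Φ n) (ball 0 1) (D n) :=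
        ⟨by rw [← g1.image_ball]; exact mapsTo_image _ _, g1.inj.mono ball_subset_closedBall,
          by rw [← g1.image_ball]; exact surjOn_image _ _⟩
      have hfφ : ∀ z ∈ ball (0:ℂ) 1, F n (Φ n z) = z :=
        fun z hz => hb.injOn.leftInvOn_invFunOn hz
      have hFd : DifferentiableOn ℂ (F n) (D n) := by
        rw [← g1.image_ball]
        exact Pool.Agent.H83.Lo.differentiableOn_inv isOpen_ball g1.diff hb.injOn hfφ
      have hFm : ∀ q ∈ D n, F n q ∈ ball (0:ℂ) 1 := by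
        intro q hq
        obtain ⟨v, hv, rfl⟩ := hb.surjOn hq
        rw [hfφ v hv]
        exact hv
      have hsub : ball p s ⊆ D n := ball_subset_closedBall.trans g2
      rw [hup] at g3
      have h4 := Complex.dist_le_div_mul_dist_of_mapsTo_ball (f := F n) (c := p) (R₁ := s)
        (R₂ := 2) (hFd.mono hsub) (by
          intro q hq
          rw [mem_closedBall]
          have a1 := mem_ball_zero_iff.1 (hFm q (hsub hq))
          have a2 := mem_ball_zero_iff.1 (hFm p (hsub (mem_ball_self hs)))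
          have a3 := dist_le_norm_add_norm (F n q) (F n p)
          linarith) (z := Φ n u) g3
      rwa [hfφ u hu] at h4
    have h5 := (key z hz rfl).add (key w hw hzw.symm)
    rw [add_zero] at h5
    have h6 : dist z w ≤ 0 := by
      refine ge_of_tendsto h5 ?_
      filter_upwards with n
      exact dist_triangle_right z w (F n p)
    exact dist_le_zero.1 h6
  exact ⟨Ψ, hlim, hcont, hdiff, ⟨hmaps, hinj, hsurj⟩, hsph⟩

end Pool.Agent.H19.Rado
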