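import Pool.Agent.H69.Car.Uniq
import Pool.Agent.H19.Rado.Lim

set_option autoImplicit false
open Set Metric Filter Topology MeasureTheory Complex
open scoped Real ENNReal ComplexConjugate

/-! Half plane charts and disc charts; real Moebius changes of the half plane chart; a weak chart is
a chart. -/

namespace Pool.Agent.H19.Rado

open Pool.Agent.H81.Q1 (IsJordanDomain)
open Pool.Agent.H14.Jordan
open Pool.Agent.H69.Car
open Pool.Agent.H82.Q1 (HH cHH IsChart)
open Pool.Agent.H96.M7 (psi psi_left psi_mem psi_right psi_cont psi_UH chart_sub chart_bij HH_sub)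

lemma I_im_pos : 0 < (I:ℂ).im := by rw [I_im]; exact one_pos

lemma add_I_ne {z : ℂ} (hz : z ∈ HC) : z + I ≠ 0 := by
  intro h
  have h1 := congrArg Complex.im h
  rw [add_im, I_im, zero_im] at h1
  have h2 : 0 ≤ z.im := hz
  linarith

lemma cay1 (z : ℂ) : cay 1 I z = (z - I) / (z + I) := by
  rw [cay, one_mul, conj_I, sub_neg_eq_add]

lemma icay_cay {z : ℂ} (hz : z ∈ HC) : icay (cay 1 I z) = z := by
  have h := add_I_ne hz
  have hI : (I:ℂ) ≠ 0 := I_ne_zero
  rw [cay1, icay]
  have h2 : (1:ℂ) - (z - I) / (z + I) = 2 * I / (z + I) := by field_simp; ring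
  have h3 : (1:ℂ) + (z - I) / (z + I) = 2 * z / (z + I) := by field_simp; ring
  rw [h2, h3]
  field_simp

lemma cay1_zero : cay 1 I 0 = -1 := by
  rw [cay1, zero_sub, zero_add, neg_div, div_self I_ne_zero]

lemma cay1_one : cay 1 I 1 = -I := by
  have h : (1:ℂ) + I ≠ 0 := add_I_ne (by change (0:ℝ) ≤ (1:ℂ).im; simp)
  rw [cay1, div_eq_iff h]
  linear_combination I_mul_I

lemma icay_neg_one : icay (-1) = 0 := by simp [icay]

lemma icay_neg_I : icay (-I) = 1 := by
  rw [← cay1_one, icay_cay (by change (0:ℝ) ≤ (1:ℂ).im; simp)]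

/-- points of the closed disc other than `1` -/
lemma exists_eq_cay {w : ℂ} (hw : w ∈ closedBall (0:ℂ) 1) (h1 : w ≠ 1) :
    icay w ∈ HC ∧ cay 1 I (icay w) = w ∧ (‖w‖ < 1 → icay w ∈ HO) ∧ (‖w‖ = 1 → (icay w).im = 0) := by
  obtain ⟨z, hz, e, h2, h3⟩ := exists_cay (ζ := 1) norm_one I_im_pos hw h1
  have h4 : icay w = z := by rw [← e, icay_cay hz]
  rw [h4]
  exact ⟨hz, e, h2, h3⟩

/-- disc chart of a half plane chart -/
noncomputable def toDisc (φ : ℂ → ℂ) (b w : ℂ) : ℂ := if w = 1 then b else φ (icay w)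

lemma toDisc_one (φ : ℂ → ℂ) (b : ℂ) : toDisc φ b 1 = b := if_pos rfl

lemma toDisc_ne (φ : ℂ → ℂ) (b : ℂ) {w : ℂ} (hw : w ≠ 1) : toDisc φ b w = φ (icay w) := if_neg hw

lemma toDisc_cay (φ : ℂ → ℂ) (b : ℂ) {z : ℂ} (hz : z ∈ HC) : toDisc φ b (cay 1 I z) = φ z := by
  rw [toDisc_ne _ _ (cay_ne norm_one I_im_pos hz), icay_cay hz]

lemma toDisc_neg_one (φ : ℂ → ℂ) (b : ℂ) : toDisc φ b (-1) = φ 0 := by
  rw [← cay1_zero, toDisc_cay _ _ (by change (0:ℝ) ≤ (0:ℂ).im; simp)]

lemma toDisc_neg_I (φ : ℂ → ℂ) (b : ℂ) : toDisc φ b (-I) = φ 1 := by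
  rw [← cay1_one, toDisc_cay _ _ (by change (0:ℝ) ≤ (1:ℂ).im; simp)]

lemma icay_tendsto : Tendsto icay (𝓝[closedBall 0 1 \ {1}] 1) (Bornology.cobounded ℂ ⊓ 𝓟 HC) := by
  rw [tendsto_inf, tendsto_principal]
  constructor
  · have h1 : Tendsto (fun w : ℂ => 1 - w) (𝓝[closedBall 0 1 \ {1}] 1) (𝓝[≠] 0) := by
      rw [tendsto_nhdsWithin_iff]
      constructor
      · have : Continuous (fun w : ℂ => 1 - w) := by fun_prop
        have h2 := (this.tendsto 1).mono_left (nhdsWithin_le_nhds (s := closedBall 0 1 \ {1}))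
        simpa using h2
      · filter_upwards [self_mem_nhdsWithin] with w hw
        rw [mem_compl_singleton_iff]
        exact sub_ne_zero.2 (fun h => hw.2 h.symm)
    have h2 : Tendsto (fun w : ℂ => (1 - w)⁻¹) (𝓝[closedBall 0 1 \ {1}] 1)
        (Bornology.cobounded ℂ) := tendsto_inv₀_nhdsNE_zero.comp h1
    have h3 : Tendsto (fun w : ℂ => I * (1 + w)) (𝓝[closedBall 0 1 \ {1}] 1) (𝓝 (2 * I)) := by
      have : Continuous (fun w : ℂ => I * (1 + w)) := by fun_prop
      have h2 := (this.tendsto 1).mono_left (nhdsWithin_le_nhds (s := closedBall 0 1 \ {1}))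
      have e : (2 * I : ℂ) = I * (1 + 1) := by ring
      rw [e]
      exact h2
    rw [← tendsto_norm_atTop_iff_cobounded] at h2 ⊢
    have h4 : Tendsto (fun w : ℂ => ‖I * (1 + w)‖ * ‖(1 - w)⁻¹‖) (𝓝[closedBall 0 1 \ {1}] 1)
        atTop := by
      refine Tendsto.pos_mul_atTop (C := ‖(2 * I : ℂ)‖) ?_ h3.norm h2
      simp
    refine h4.congr fun w => ?_
    rw [icay, norm_mul, norm_mul, norm_div, norm_inv]
    ring
  · filter_upwards [self_mem_nhdsWithin] with w hw
    exact (exists_eq_cay hw.1 hw.2).1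

lemma HO_isOpen : IsOpen HO := isOpen_lt continuous_const Complex.continuous_im

/-- the point at infinity is a boundary point -/
lemma b_mem {D : Set ℂ} {a b : ℂ} {φ : ℂ → ℂ} (h : IsHalf D a b φ) (hD : IsOpen D) :
    b ∈ frontier D := by
  rw [hD.frontier_eq]
  constructor
  · have hne : (Bornology.cobounded ℂ ⊓ 𝓟 HO).NeBot := by
      rw [inf_principal_neBot_iff]
      intro V hV
      rw [(Metric.hasBasis_cobounded_compl_closedBall (0 : ℂ)).mem_iff] at hV
      obtain ⟨R, -, hR⟩ := hV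
      refine ⟨(|R| + 1 : ℝ) * I, hR ?_, ?_⟩
      · rw [mem_compl_iff, mem_closedBall_zero_iff, norm_mul, norm_I, mul_one, norm_real,
          Real.norm_of_nonneg (by positivity), not_le]
        have := le_abs_self R
        linarith
      · change 0 < (((|R| + 1 : ℝ) : ℂ) * I).im
        simp only [mul_im, ofReal_re, I_im, mul_one, ofReal_im, I_re, mul_zero, add_zero]
        positivity
    have ht : Tendsto φ (Bornology.cobounded ℂ ⊓ 𝓟 HO) (𝓝 b) :=
      h.lim.mono_left (inf_le_inf_left _ (principal_mono.2 HO_subset))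
    refine mem_closure_of_tendsto ht ?_
    filter_upwards [mem_inf_of_right (mem_principal_self HO)] with z hz
    rw [← h.image]
    exact mem_image_of_mem _ hz
  · intro hb
    have h1 : b ∈ φ '' HC := by
      rw [← h.image] at hb
      exact image_mono HO_subset hb
    rw [h.closure] at h1
    exact h1.2 rfl

/-- **Half plane charts give disc charts.** -/
theorem isCar_toDisc {D : Set ℂ} {a b : ℂ} {φ : ℂ → ℂ} (h : IsHalf D a b φ) (hD : IsOpen D) :
    IsCar D (toDisc φ b) := by
  have hbf := b_mem h hD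
  have hbn : b ∉ φ '' HC := by
    rw [h.closure]; exact fun hh => hh.2 rfl
  have hball : ∀ w ∈ ball (0:ℂ) 1, w ≠ 1 := by
    intro w hw h1
    rw [h1, mem_ball_zero_iff, norm_one] at hw
    exact lt_irrefl _ hw
  have hcon : ContinuousOn icay (closedBall 0 1 \ {1}) := by
    unfold icay
    refine continuousOn_const.mul (ContinuousOn.div (by fun_prop) (by fun_prop) ?_)
    intro w hw
    exact sub_ne_zero.2 (fun h => hw.2 h.symm)
  constructor
  · intro w hw
    by_cases h1 : w = 1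
    · subst h1
      rw [ContinuousWithinAt, toDisc_one]
      have e1 : closedBall (0:ℂ) 1 = insert 1 (closedBall 0 1 \ {1}) := by
        rw [insert_diff_singleton, insert_eq_of_mem hw]
      rw [e1, nhdsWithin_insert, tendsto_sup]
      constructor
      · rw [tendsto_pure_left]
        intro s hs
        rw [toDisc_one]
        exact mem_of_mem_nhds hs
      · refine (h.lim.comp icay_tendsto).congr' ?_
        filter_upwards [self_mem_nhdsWithin] with u hu
        rw [toDisc_ne _ _ hu.2]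
        rfl
    · have h2 : ContinuousWithinAt (fun u => φ (icay u)) (closedBall 0 1 \ {1}) w :=
        (h.cont.comp hcon fun u hu => (exists_eq_cay hu.1 hu.2).1) w ⟨hw, h1⟩
      have h3 : ContinuousWithinAt (toDisc φ b) (closedBall 0 1 \ {1}) w :=
        h2.congr (fun u hu => toDisc_ne _ _ hu.2) (toDisc_ne _ _ h1)
      refine h3.mono_of_mem_nhdsWithin ?_
      rw [diff_eq]
      exact inter_mem self_mem_nhdsWithin
        (mem_nhdsWithin_of_mem_nhds (isOpen_compl_singleton.mem_nhds h1))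
  · have h2 : DifferentiableOn ℂ (fun u => φ (icay u)) (ball 0 1) :=
      h.diff.comp icay_diff fun u hu => (icay_mem hu).1
    exact h2.congr fun u hu => toDisc_ne _ _ (hball u hu)
  · intro w hw v hv hwv
    by_cases h1 : w = 1
    · by_cases h2 : v = 1
      · rw [h1, h2]
      · exfalso
        rw [h1, toDisc_one, toDisc_ne _ _ h2] at hwv
        exact hbn ⟨_, (exists_eq_cay hv h2).1, hwv.symm⟩
    · by_cases h2 : v = 1
      · exfalso
        rw [h2, toDisc_one, toDisc_ne _ _ h1] at hwv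
        exact hbn ⟨_, (exists_eq_cay hw h1).1, hwv⟩
      · rw [toDisc_ne _ _ h1, toDisc_ne _ _ h2] at hwv
        have g1 := exists_eq_cay hw h1
        have g2 := exists_eq_cay hv h2
        have g3 := h.inj g1.1 g2.1 hwv
        rw [← g1.2.1, ← g2.2.1, g3]
  · apply Subset.antisymm
    · rintro _ ⟨w, hw, rfl⟩
      rw [toDisc_ne _ _ (hball w hw), ← h.image]
      exact mem_image_of_mem _ (icay_mem hw).1
    · intro p hp
      rw [← h.image] at hp
      obtain ⟨z, hz, rfl⟩ := hp
      exact ⟨cay 1 I z, cay_ball norm_one I_im_pos hz, toDisc_cay _ _ (HO_subset hz)⟩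
  · have hfr : frontier D = closure D \ D := hD.frontier_eq
    apply Subset.antisymm
    · rintro _ ⟨w, hw, rfl⟩
      by_cases h1 : w = 1
      · rw [h1, toDisc_one]; exact hbf
      · rw [toDisc_ne _ _ h1, hfr]
        have g := exists_eq_cay (sphere_subset_closedBall hw) h1
        constructor
        · have : φ (icay w) ∈ φ '' HC := mem_image_of_mem _ g.1
          rw [h.closure] at this
          exact this.1
        · intro hh
          rw [← h.image] at hh
          obtain ⟨z, hz, e⟩ := hh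
          have e2 := h.inj (HO_subset hz) g.1 e
          have h3 : (icay w).im = 0 := g.2.2.2 (mem_sphere_zero_iff_norm.1 hw)
          rw [← e2] at h3
          have h4 : 0 < z.im := hz
          linarith
    · intro p hp
      by_cases hpb : p = b
      · exact ⟨1, by simp, by rw [toDisc_one, hpb]⟩
      · rw [hfr] at hp
        have h1 : p ∈ φ '' HC := by
          rw [h.closure]; exact ⟨hp.1, hpb⟩
        obtain ⟨z, hz, rfl⟩ := h1
        refine ⟨cay 1 I z, ?_, toDisc_cay _ _ hz⟩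
        have h2 := cay_closedBall (ζ := 1) norm_one I_im_pos hz
        rw [← ball_union_sphere] at h2
        rcases h2 with h2 | h2
        · exfalso
          have h3 := (icay_mem h2).1
          rw [icay_cay hz] at h3
          exact hp.2 (by rw [← h.image]; exact mem_image_of_mem _ h3)
        · exact h2

/-- **A weak chart is a chart up to scaling.** -/
theorem weak_half {D : Set ℂ} {a b : ℂ} {φ ψ : ℂ → ℂ} (h : IsHalf D a b φ)
    (hc : ContinuousOn ψ HC) (hd : DifferentiableOn ℂ ψ HO) (hb : BijOn ψ HO D) (h0 : ψ 0 = a)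
    (hinf : Tendsto ψ (Bornology.cobounded ℂ ⊓ 𝓟 HC) (𝓝 b)) :
    ∃ k : ℝ, 0 < k ∧ ∀ z ∈ HC, ψ z = φ (k * z) := by
  have hch : IsChart D a b φ := h.isChart
  set F := Function.invFunOn ψ HO with hF
  have hFl : ∀ z ∈ HO, F (ψ z) = z := fun z hz => hb.injOn.leftInvOn_invFunOn hz
  have hFd : DifferentiableOn ℂ F D := by
    have h1 := Pool.Agent.H83.Lo.differentiableOn_inv HO_isOpen hd hb.injOn hFl
    rwa [hb.image_eq] at h1
  have hFm : MapsTo F D HO := by
    intro p hp
    obtain ⟨z, hz, rfl⟩ := hb.surjOn hp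
    rw [hFl z hz]; exact hz
  have hGd : DifferentiableOn ℂ (psi φ) D := by
    have h1 : DifferentiableOn ℂ (psi φ) (φ '' HH) :=
      Pool.Agent.H83.Lo.differentiableOn_inv HO_isOpen hch.diff (hch.inj.mono HH_sub)
        (fun z hz => psi_left hch (HH_sub hz))
    rwa [hch.image] at h1
  have hDc : D ⊆ φ '' cHH := chart_sub hch
  have hφD : ∀ z ∈ HO, φ z ∈ D := by
    intro z hz
    rw [← h.image]
    exact ⟨z, hz, rfl⟩
  have h0C : (0:ℂ) ∈ cHH := by change (0:ℝ) ≤ (0:ℂ).im; simp
  have hsub : 𝓝[HO] (0:ℂ) ≤ 𝓝[HC] 0 := nhdsWithin_mono _ HO_subset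
  have q2 : Tendsto (fun z => psi φ (ψ z)) (𝓝[HO] 0) (𝓝 0) := by
    have ha : a ∈ φ '' cHH := ⟨0, h0C, h.zero⟩
    have h1 := ((psi_cont hch) a ha).tendsto
    have h2 : psi φ a = 0 := by rw [← h.zero, psi_left hch h0C]
    rw [h2] at h1
    refine h1.comp (tendsto_nhdsWithin_iff.2 ⟨?_, ?_⟩)
    · have h3 := ((hc 0 h0C).tendsto).mono_left hsub
      rwa [h0] at h3
    · filter_upwards [self_mem_nhdsWithin] with z hz
      exact hDc (hb.mapsTo hz)
  have q3 : Tendsto (fun z => psi φ (ψ z)) (Bornology.cobounded ℂ ⊓ 𝓟 HO)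
      (Bornology.cobounded ℂ) := by
    rw [(Metric.hasBasis_cobounded_compl_closedBall (0 : ℂ)).tendsto_right_iff]
    intro R _
    have hK : IsCompact (cHH ∩ closedBall (0 : ℂ) R) :=
      (isCompact_closedBall _ _).inter_left (isClosed_le continuous_const Complex.continuous_im)
    have hK2 : IsClosed (φ '' (cHH ∩ closedBall (0 : ℂ) R)) :=
      (hK.image_of_continuousOn (h.cont.mono inter_subset_left)).isClosed
    have hbn : (φ '' (cHH ∩ closedBall (0 : ℂ) R))ᶜ ∈ 𝓝 b := by
      refine hK2.isOpen_compl.mem_nhds ?_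
      rintro ⟨z, hz, hzb⟩
      exact hch.ne ⟨z, hz.1, hzb⟩
    have hle : (Bornology.cobounded ℂ ⊓ 𝓟 HO) ≤ Bornology.cobounded ℂ ⊓ 𝓟 HC :=
      inf_le_inf_left _ (principal_mono.2 HO_subset)
    filter_upwards [(hinf.mono_left hle) hbn, mem_inf_of_right (mem_principal_self HO)]
      with z hz hzO hmem
    apply hz
    refine ⟨psi φ (ψ z), ⟨psi_mem (hDc (hb.mapsTo hzO)), hmem⟩, psi_right (hDc (hb.mapsTo hzO))⟩
  obtain ⟨k, hk, hkm⟩ := scaling (m := fun z => psi φ (ψ z)) (n := fun z => F (φ z))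
    (hGd.comp hd hb.mapsTo) (fun z hz => psi_UH hch (hb.mapsTo hz))
    (hFd.comp h.diff hφD) (fun z hz => hFm (hφD z hz))
    (fun z hz => by
      show F (φ (psi φ (ψ z))) = z
      rw [psi_right (hDc (hb.mapsTo hz)), hFl z hz]) q2 q3
  refine ⟨k, hk, ?_⟩
  have e1 : ∀ z ∈ HO, ψ z = φ (k * z) := by
    intro z hz
    have h1 : psi φ (ψ z) = k * z := hkm z hz
    rw [← h1, psi_right (hDc (hb.mapsTo hz))]
  have hcl : HC ⊆ closure HO := by
    intro z hz
    rw [Metric.mem_closure_iff]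
    intro ε hε
    refine ⟨z + ((ε / 2 : ℝ) : ℂ) * I, ?_, ?_⟩
    · change 0 < (z + ((ε / 2 : ℝ) : ℂ) * I).im
      have hz' : 0 ≤ z.im := hz
      simp
      linarith
    · rw [dist_comm, dist_eq_norm, add_sub_cancel_left, norm_mul, norm_I, mul_one, norm_real,
        Real.norm_eq_abs, abs_of_pos (half_pos hε)]
      exact half_lt_self hε
  have hk2 : MapsTo (fun z : ℂ => (k : ℂ) * z) HC HC := by
    intro z hz
    have hz' : 0 ≤ z.im := hz
    change 0 ≤ ((k : ℂ) * z).im
    simp only [mul_im, ofReal_re, ofReal_im, zero_mul, add_zero]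
    positivity
  intro z hz
  have hne : (𝓝[HO] z).NeBot := mem_closure_iff_nhdsWithin_neBot.1 (hcl hz)
  have hs : 𝓝[HO] z ≤ 𝓝[HC] z := nhdsWithin_mono _ HO_subset
  have t1 : Tendsto ψ (𝓝[HO] z) (𝓝 (ψ z)) := ((hc z hz).tendsto).mono_left hs
  have t2 : Tendsto (fun z : ℂ => φ (k * z)) (𝓝[HO] z) (𝓝 (φ (k * z))) := by
    have h1 : ContinuousOn (fun z : ℂ => φ (k * z)) HC :=
      h.cont.comp (by fun_prop) hk2
    exact ((h1 z hz).tendsto).mono_left hs
  refine tendsto_nhds_unique t1 (t2.congr' ?_)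
  filter_upwards [self_mem_nhdsWithin] with u hu
  exact (e1 u hu).symm

end Pool.Agent.H19.Rado
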