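import Pool.Agent.H19.Rado.Disc

set_option autoImplicit false
open Set Metric Filter Topology MeasureTheory Complex
open scoped Real ENNReal ComplexConjugate

/-! **Continuity of the cross ratio** (conformal modulus of a quadrilateral) under convergence of
Jordan domains (Rado, Caratheodory). -/

namespace Pool.Agent.H19.Rado

open Pool.Agent.H81.Q1 (IsJordanDomain)
open Pool.Agent.H14.Jordan
open Pool.Agent.H69.Car

/-- the real Moebius map with `0 ↦ x1`, `∞ ↦ x3`, `-k ↦ ∞` -/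
noncomputable def mo (x1 x3 k : ℝ) (u : ℂ) : ℂ := x3 - k * (x3 - x1) / (u + k)

/-- its inverse -/
noncomputable def imo (x1 x3 k : ℝ) (z : ℂ) : ℂ := -k + k * (x3 - x1) / (x3 - z)

/-- change of chart -/
noncomputable def chg (φ : ℂ → ℂ) (b : ℂ) (x1 x3 k : ℝ) (u : ℂ) : ℂ :=
  if u = -k then b else φ (mo x1 x3 k u)

lemma chg_pole (φ : ℂ → ℂ) (b : ℂ) (x1 x3 k : ℝ) : chg φ b x1 x3 k (-k) = b := if_pos rfl

lemma chg_ne (φ : ℂ → ℂ) (b : ℂ) (x1 x3 k : ℝ) {u : ℂ} (hu : u ≠ -k) :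
    chg φ b x1 x3 k u = φ (mo x1 x3 k u) := if_neg hu

lemma add_k_ne {k : ℝ} {u : ℂ} (hu : u ≠ -k) : u + k ≠ 0 := fun h => hu (eq_neg_of_add_eq_zero_left h)

section mo
variable {x1 x3 k : ℝ} (h13 : x1 < x3) (hk : 0 < k)

lemma mo_im (x1 x3 k : ℝ) (u : ℂ) :
    (mo x1 x3 k u).im = k * (x3 - x1) * u.im / Complex.normSq (u + k) := by
  have e : (k : ℂ) * (x3 - x1) / (u + k) = ((k * (x3 - x1) : ℝ) : ℂ) * (u + k)⁻¹ := by
    push_cast; rw [div_eq_mul_inv]
  rw [mo, e, sub_im, ofReal_im, im_ofReal_mul, inv_im]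
  simp
  ring

lemma imo_im (x1 x3 k : ℝ) (z : ℂ) :
    (imo x1 x3 k z).im = k * (x3 - x1) * z.im / Complex.normSq (x3 - z) := by
  have e : (k : ℂ) * (x3 - x1) / (x3 - z) = ((k * (x3 - x1) : ℝ) : ℂ) * (x3 - z)⁻¹ := by
    push_cast; rw [div_eq_mul_inv]
  rw [imo, e, add_im, neg_im, ofReal_im, im_ofReal_mul, inv_im]
  simp
  ring

include h13 hk

lemma kx_ne : (k : ℂ) * (x3 - x1) ≠ 0 := by
  refine mul_ne_zero (ofReal_ne_zero.2 hk.ne') ?_
  rw [← ofReal_sub]
  exact ofReal_ne_zero.2 (by linarith)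

lemma mo_HO {u : ℂ} (hu : u ∈ HO) : mo x1 x3 k u ∈ HO := by
  have hu' : 0 < u.im := hu
  have hne : u + k ≠ 0 := by
    intro h
    have := congrArg Complex.im h
    simp at this
    linarith
  change 0 < (mo x1 x3 k u).im
  rw [mo_im]
  have h1 : 0 < Complex.normSq (u + k) := Complex.normSq_pos.2 hne
  have h2 : 0 < x3 - x1 := by linarith
  positivity

lemma mo_HC {u : ℂ} (hu : u ∈ HC) : mo x1 x3 k u ∈ HC := by
  have hu' : 0 ≤ u.im := hu
  change 0 ≤ (mo x1 x3 k u).im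
  rw [mo_im]
  have h1 : 0 ≤ Complex.normSq (u + k) := Complex.normSq_nonneg _
  have h2 : 0 < x3 - x1 := by linarith
  positivity

lemma imo_HO {z : ℂ} (hz : z ∈ HO) : imo x1 x3 k z ∈ HO := by
  have hz' : 0 < z.im := hz
  have hne : (x3 : ℂ) - z ≠ 0 := by
    intro h
    have := congrArg Complex.im h
    simp at this
    linarith
  change 0 < (imo x1 x3 k z).im
  rw [imo_im]
  have h1 : 0 < Complex.normSq (x3 - z) := Complex.normSq_pos.2 hne
  have h2 : 0 < x3 - x1 := by linarith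
  positivity

lemma imo_HC {z : ℂ} (hz : z ∈ HC) : imo x1 x3 k z ∈ HC := by
  have hz' : 0 ≤ z.im := hz
  change 0 ≤ (imo x1 x3 k z).im
  rw [imo_im]
  have h1 : 0 ≤ Complex.normSq (x3 - z) := Complex.normSq_nonneg _
  have h2 : 0 < x3 - x1 := by linarith
  positivity

lemma imo_ne {z : ℂ} (hz : z ≠ x3) : imo x1 x3 k z ≠ -k := by
  intro h
  have h1 : (k : ℂ) * (x3 - x1) / (x3 - z) = 0 := by
    rw [imo] at h
    linear_combination h
  rcases div_eq_zero_iff.1 h1 with h2 | h2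
  · exact kx_ne h13 hk h2
  · exact hz (sub_eq_zero.1 h2).symm

lemma mo_ne {u : ℂ} (hu : u ≠ -k) : mo x1 x3 k u ≠ x3 := by
  intro h
  have h1 : (k : ℂ) * (x3 - x1) / (u + k) = 0 := by
    rw [mo] at h
    linear_combination -h
  rcases div_eq_zero_iff.1 h1 with h2 | h2
  · exact kx_ne h13 hk h2
  · exact add_k_ne hu h2

lemma mo_imo {z : ℂ} (hz : z ≠ x3) : mo x1 x3 k (imo x1 x3 k z) = z := by
  have h1 := kx_ne h13 hk
  have h2 : (x3 : ℂ) - z ≠ 0 := sub_ne_zero.2 hz.symm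
  rw [mo, imo]
  have e : (-(k:ℂ) + k * (x3 - x1) / (x3 - z) + k) = k * (x3 - x1) / (x3 - z) := by ring
  rw [e, div_div_eq_mul_div, mul_div_cancel_left₀ _ h1]
  ring

lemma imo_mo {u : ℂ} (hu : u ≠ -k) : imo x1 x3 k (mo x1 x3 k u) = u := by
  have h1 := kx_ne h13 hk
  have h2 := add_k_ne hu
  rw [mo, imo]
  have e : ((x3:ℂ) - (x3 - k * (x3 - x1) / (u + k))) = k * (x3 - x1) / (u + k) := by ring
  rw [e, div_div_eq_mul_div, mul_div_cancel_left₀ _ h1]
  ring

lemma mo_zero : mo x1 x3 k 0 = x1 := by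
  have h2 : (k : ℂ) ≠ 0 := ofReal_ne_zero.2 hk.ne'
  rw [mo, zero_add, mul_div_cancel_left₀ _ h2]
  ring

omit h13 in
lemma zero_ne_neg : (0:ℂ) ≠ -k := by
  intro h
  have : (k : ℂ) = 0 := by linear_combination h
  exact hk.ne' (ofReal_eq_zero.1 this)

/-- **Real Moebius change of a half plane chart.** -/
theorem half_moebius {D : Set ℂ} {a b : ℂ} {φ : ℂ → ℂ} (h : IsHalf D a b φ) (hD : IsOpen D) :
    IsHalf D (φ x1) (φ x3) (chg φ b x1 x3 k) := by
  have hbn : b ∉ φ '' HC := by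
    rw [h.closure]; exact fun hh => hh.2 rfl
  have hkC : ((-k : ℝ) : ℂ) ∈ HC := by change 0 ≤ ((-k : ℝ) : ℂ).im; simp
  have hkC' : (-(k:ℂ)) ∈ HC := by rwa [ofReal_neg] at hkC
  have hx3 : (x3 : ℂ) ∈ HC := by change 0 ≤ (x3 : ℂ).im; simp
  have hHO : ∀ u ∈ HO, u ≠ -(k:ℂ) := by
    intro u hu h1
    have hu' : 0 < u.im := hu
    rw [h1] at hu'
    simp at hu'
  have hmoc : ContinuousOn (mo x1 x3 k) (HC \ {-(k:ℂ)}) := by
    unfold mo
    refine continuousOn_const.sub (ContinuousOn.div (by fun_prop) (by fun_prop) ?_)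
    intro u hu
    exact add_k_ne hu.2
  -- the pole
  have hpole : Tendsto (mo x1 x3 k) (𝓝[HC \ {-(k:ℂ)}] (-k)) (Bornology.cobounded ℂ ⊓ 𝓟 HC) := by
    rw [tendsto_inf, tendsto_principal]
    constructor
    · have h1 : Tendsto (fun w : ℂ => w + k) (𝓝[HC \ {-(k:ℂ)}] (-k)) (𝓝[≠] 0) := by
        rw [tendsto_nhdsWithin_iff]
        constructor
        · have : Continuous (fun w : ℂ => w + k) := by fun_prop
          have h2 := (this.tendsto (-(k:ℂ))).mono_left
            (nhdsWithin_le_nhds (s := HC \ {-(k:ℂ)}))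
          simpa using h2
        · filter_upwards [self_mem_nhdsWithin] with w hw
          exact add_k_ne hw.2
      have h2 : Tendsto (fun w : ℂ => (w + k)⁻¹) (𝓝[HC \ {-(k:ℂ)}] (-k))
          (Bornology.cobounded ℂ) := tendsto_inv₀_nhdsNE_zero.comp h1
      have h3 : Tendsto (fun w : ℂ => (k : ℂ) * (x3 - x1) * (w + k)⁻¹)
          (𝓝[HC \ {-(k:ℂ)}] (-k)) (Bornology.cobounded ℂ) :=
        (tendsto_mul_left_cobounded (kx_ne h13 hk)).comp h2
      have h4 : Tendsto (fun w : ℂ => (x3 : ℂ) - w) (Bornology.cobounded ℂ)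
          (Bornology.cobounded ℂ) := tendsto_const_sub_cobounded _
      refine (h4.comp h3).congr fun w => ?_
      simp only [Function.comp]
      rw [mo, div_eq_mul_inv]
    · filter_upwards [self_mem_nhdsWithin] with w hw
      exact mo_HC h13 hk hw.1
  refine ⟨?_, ?_, ?_, ?_, ?_, ?_, ?_⟩
  · intro w hw
    by_cases h1 : w = -k
    · subst h1
      rw [ContinuousWithinAt, chg_pole]
      have e1 : HC = insert (-(k:ℂ)) (HC \ {-(k:ℂ)}) := by
        rw [insert_diff_singleton, insert_eq_of_mem hw]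
      rw [e1, nhdsWithin_insert, tendsto_sup]
      constructor
      · rw [tendsto_pure_left]
        intro s hs
        rw [chg_pole]
        exact mem_of_mem_nhds hs
      · refine (h.lim.comp hpole).congr' ?_
        filter_upwards [self_mem_nhdsWithin] with u hu
        rw [chg_ne _ _ _ _ _ hu.2]
        rfl
    · have h2 : ContinuousWithinAt (fun u => φ (mo x1 x3 k u)) (HC \ {-(k:ℂ)}) w :=
        (h.cont.comp hmoc fun u hu => mo_HC h13 hk hu.1) w ⟨hw, h1⟩
      have h3 : ContinuousWithinAt (chg φ b x1 x3 k) (HC \ {-(k:ℂ)}) w :=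
        h2.congr (fun u hu => chg_ne _ _ _ _ _ hu.2) (chg_ne _ _ _ _ _ h1)
      refine h3.mono_of_mem_nhdsWithin ?_
      rw [diff_eq]
      exact inter_mem self_mem_nhdsWithin
        (mem_nhdsWithin_of_mem_nhds (isOpen_compl_singleton.mem_nhds h1))
  · intro w hw v hv hwv
    by_cases h1 : w = -k
    · by_cases h2 : v = -k
      · rw [h1, h2]
      · exfalso
        rw [h1, chg_pole, chg_ne _ _ _ _ _ h2] at hwv
        exact hbn ⟨_, mo_HC h13 hk hv, hwv.symm⟩
    · by_cases h2 : v = -k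
      · exfalso
        rw [h2, chg_pole, chg_ne _ _ _ _ _ h1] at hwv
        exact hbn ⟨_, mo_HC h13 hk hw, hwv⟩
      · rw [chg_ne _ _ _ _ _ h1, chg_ne _ _ _ _ _ h2] at hwv
        have g3 := h.inj (mo_HC h13 hk hw) (mo_HC h13 hk hv) hwv
        rw [← imo_mo h13 hk h1, ← imo_mo h13 hk h2, g3]
  · have h2 : DifferentiableOn ℂ (fun u => φ (mo x1 x3 k u)) HO := by
      refine h.diff.comp ?_ fun u hu => mo_HO h13 hk hu
      unfold mo
      refine (differentiableOn_const _).sub (DifferentiableOn.div (by fun_prop) (by fun_prop) ?_)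
      intro u hu
      exact add_k_ne (hHO u hu)
    exact h2.congr fun u hu => chg_ne _ _ _ _ _ (hHO u hu)
  · rw [← h.image]
    apply Subset.antisymm
    · rintro _ ⟨u, hu, rfl⟩
      rw [chg_ne _ _ _ _ _ (hHO u hu)]
      exact mem_image_of_mem _ (mo_HO h13 hk hu)
    · rintro _ ⟨z, hz, rfl⟩
      have hz3 : z ≠ x3 := by
        rintro rfl
        have hz' : 0 < (x3 : ℂ).im := hz
        simp at hz'
      refine ⟨imo x1 x3 k z, imo_HO h13 hk hz, ?_⟩
      rw [chg_ne _ _ _ _ _ (imo_ne h13 hk hz3), mo_imo h13 hk hz3]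
  · rw [chg_ne _ _ _ _ _ (zero_ne_neg hk), mo_zero h13 hk]
  · have h1 : Tendsto (mo x1 x3 k) (Bornology.cobounded ℂ ⊓ 𝓟 HC) (𝓝[HC] (x3 : ℂ)) := by
      rw [tendsto_nhdsWithin_iff]
      constructor
      · have h2 : Tendsto (fun z : ℂ => z + k) (Bornology.cobounded ℂ ⊓ 𝓟 HC)
            (Bornology.cobounded ℂ) := (tendsto_add_const_cobounded _).mono_left inf_le_left
        have h3 : Tendsto (fun z : ℂ => (z + k)⁻¹) (Bornology.cobounded ℂ ⊓ 𝓟 HC) (𝓝 0) :=
          tendsto_inv₀_cobounded.comp h2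
        have h4 := (tendsto_const_nhds (x := (x3 : ℂ))).sub (h3.const_mul ((k : ℂ) * (x3 - x1)))
        rw [mul_zero, sub_zero] at h4
        refine h4.congr fun w => ?_
        rw [mo, div_eq_mul_inv]
      · filter_upwards [mem_inf_of_right (mem_principal_self HC)] with w hw
        exact mo_HC h13 hk hw
    have h2 := ((h.cont x3 hx3).tendsto).comp h1
    refine h2.congr' ?_
    have h3 : ∀ᶠ u in Bornology.cobounded ℂ ⊓ 𝓟 HC, u ≠ -(k:ℂ) := by
      refine Filter.Eventually.filter_mono inf_le_left ?_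
      exact Bornology.eventually_ne_cobounded _
    filter_upwards [h3] with u hu
    rw [chg_ne _ _ _ _ _ hu]
    rfl
  · apply Subset.antisymm
    · rintro _ ⟨u, hu, rfl⟩
      by_cases h1 : u = -k
      · rw [h1, chg_pole]
        refine ⟨frontier_subset_closure (b_mem h hD), ?_⟩
        rw [mem_singleton_iff]
        intro hh
        exact hbn ⟨_, hx3, hh.symm⟩
      · rw [chg_ne _ _ _ _ _ h1]
        have h2 : φ (mo x1 x3 k u) ∈ φ '' HC := mem_image_of_mem _ (mo_HC h13 hk hu)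
        have h3 := h2
        rw [h.closure] at h3
        refine ⟨h3.1, ?_⟩
        rw [mem_singleton_iff]
        intro hh
        exact mo_ne h13 hk h1 (h.inj (mo_HC h13 hk hu) hx3 hh)
    · rintro p ⟨hp, hp3⟩
      by_cases hpb : p = b
      · exact ⟨-k, hkC', by rw [chg_pole, hpb]⟩
      · have h1 : p ∈ φ '' HC := by
          rw [h.closure]; exact ⟨hp, hpb⟩
        obtain ⟨z, hz, rfl⟩ := h1
        have hz3 : z ≠ x3 := by
          rintro rfl
          exact hp3 rfl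
        refine ⟨imo x1 x3 k z, imo_HC h13 hk hz, ?_⟩
        rw [chg_ne _ _ _ _ _ (imo_ne h13 hk hz3), mo_imo h13 hk hz3]

end mo

/-- **Key step**: convergence of the fourth point, when three points are normalised at `0, 1, ∞`. -/
theorem tendsto_fourth {ι : Type*} {l : Filter ι} {D : ι → Set ℂ} {D0 : Set ℂ} (h : KConv l D D0)
    {a b : ι → ℂ} {φ : ι → ℂ → ℂ} {a0 b0 : ℂ} {φ0 : ℂ → ℂ}
    (hφ : ∀ᶠ n in l, IsHalf (D n) (a n) (b n) (φ n)) (h0 : IsHalf D0 a0 b0 φ0)
    (ha : Tendsto a l (𝓝 a0)) (hb : Tendsto b l (𝓝 b0))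
    (h1 : Tendsto (fun n => φ n 1) l (𝓝 (φ0 1))) {y : ι → ℝ} {y0 : ℝ}
    (hy : Tendsto (fun n => φ n (y n)) l (𝓝 (φ0 y0))) : Tendsto y l (𝓝 y0) := by
  have hre : ∀ x : ℝ, (x : ℂ) ∈ HC := fun x => by change 0 ≤ (x : ℂ).im; simp
  have h1C : (1:ℂ) ∈ HC := by have := hre 1; rwa [ofReal_one] at this
  have h0C : (0:ℂ) ∈ HC := by have := hre 0; rwa [ofReal_zero] at this
  have hbn : b0 ∉ φ0 '' HC := by
    rw [h0.closure]; exact fun hh => hh.2 rfl
  have hz : φ0 0 = a0 := h0.zero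
  have n1 : a0 ≠ b0 := fun e => hbn ⟨0, h0C, by rw [hz, e]⟩
  have n2 : φ0 1 ≠ b0 := fun e => hbn ⟨1, h1C, e⟩
  have n3 : a0 ≠ φ0 1 := by
    intro e
    rw [← hz] at e
    exact zero_ne_one (h0.inj h0C h1C e)
  set d0 := min (dist b0 a0) (min (dist b0 (φ0 1)) (dist a0 (φ0 1))) / 2 with hd0
  have hd0p : 0 < d0 := by
    have e1 := dist_pos.2 n1.symm
    have e2 := dist_pos.2 n2.symm
    have e3 := dist_pos.2 n3
    positivity
  have m1 : d0 < dist b0 a0 := by
    have := min_le_left (dist b0 a0) (min (dist b0 (φ0 1)) (dist a0 (φ0 1)))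
    have e1 := dist_pos.2 n1.symm
    linarith
  have m2 : d0 < dist b0 (φ0 1) := by
    have := (min_le_right (dist b0 a0) (min (dist b0 (φ0 1)) (dist a0 (φ0 1)))).trans
      (min_le_left _ _)
    have e1 := dist_pos.2 n2.symm
    linarith
  have m3 : d0 < dist a0 (φ0 1) := by
    have := (min_le_right (dist b0 a0) (min (dist b0 (φ0 1)) (dist a0 (φ0 1)))).trans
      (min_le_right _ _)
    have e1 := dist_pos.2 n3
    linarith
  -- disc charts
  set Φ : ι → ℂ → ℂ := fun n => toDisc (φ n) (b n) with hΦ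
  have hcar : ∀ᶠ n in l, IsCar (D n) (Φ n) := by
    filter_upwards [hφ, h.jd] with n g1 g2
    exact isCar_toDisc g1 g2.1
  have v1 : ∀ n, Φ n 1 = b n := fun n => toDisc_one _ _
  have v2 : ∀ᶠ n in l, Φ n (-1) = a n := by
    filter_upwards [hφ] with n g1
    rw [hΦ]; simp only [toDisc_neg_one, g1.zero]
  have v3 : ∀ n, Φ n (-I) = φ n 1 := fun n => toDisc_neg_I _ _
  have h3 : ∀ᶠ n in l, d0 < dist (Φ n 1) (Φ n (-1)) ∧ d0 < dist (Φ n 1) (Φ n (-I)) ∧
      d0 < dist (Φ n (-1)) (Φ n (-I)) := by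
    filter_upwards [v2, (hb.dist ha).eventually (lt_mem_nhds m1),
      (hb.dist h1).eventually (lt_mem_nhds m2), (ha.dist h1).eventually (lt_mem_nhds m3)]
      with n g2 g3 g4 g5
    rw [v1, g2, v3]
    exact ⟨g3, g4, g5⟩
  rw [tendsto_iff_ultrafilter]
  intro U hU
  obtain ⟨Ψ, hΨ⟩ := exists_limMap (U := U) (h.mono hU) (hU hcar) hd0p (hU h3)
  have hone : (1:ℂ) ∈ closedBall (0:ℂ) 1 := by simp
  have hmone : (-1:ℂ) ∈ closedBall (0:ℂ) 1 := by simp
  have hmI : (-I:ℂ) ∈ closedBall (0:ℂ) 1 := by simp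
  have w1 : Ψ 1 = b0 := by
    have t1 := hΨ.lim 1 hone (fun _ => 1) (Eventually.of_forall fun _ => hone) tendsto_const_nhds
    simp only [v1] at t1
    exact tendsto_nhds_unique t1 (hb.mono_left hU)
  have w2 : Ψ (-1) = a0 := by
    have t1 := hΨ.lim (-1) hmone (fun _ => -1) (Eventually.of_forall fun _ => hmone)
      tendsto_const_nhds
    refine tendsto_nhds_unique t1 ((ha.mono_left hU).congr' ?_)
    filter_upwards [hU v2] with n hn
    exact hn.symm
  have w3 : Ψ (-I) = φ0 1 := by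
    have t1 := hΨ.lim (-I) hmI (fun _ => -I) (Eventually.of_forall fun _ => hmI)
      tendsto_const_nhds
    simp only [v3] at t1
    exact tendsto_nhds_unique t1 (h1.mono_left hU)
  -- the half plane form of the limit
  set ψ : ℂ → ℂ := fun z => Ψ (cay 1 I z) with hψ
  have hψc : ContinuousOn ψ HC :=
    hΨ.cont.comp (cay_cont I_im_pos) fun z hz => cay_closedBall norm_one I_im_pos hz
  have hψd : DifferentiableOn ℂ ψ HO :=
    hΨ.diff.comp (cay_diff I_im_pos) fun z hz => cay_ball norm_one I_im_pos hz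
  have hψb : BijOn ψ HO D0 := by
    refine hΨ.bij.comp ⟨fun z hz => cay_ball norm_one I_im_pos hz,
      (cay_inj norm_one I_im_pos).mono HO_subset, ?_⟩
    intro w hw
    exact ⟨icay w, (icay_mem hw).1, (icay_mem hw).2⟩
  have hψ0 : ψ 0 = a0 := by rw [hψ]; simp only [cay1_zero, w2]
  have hψi : Tendsto ψ (Bornology.cobounded ℂ ⊓ 𝓟 HC) (𝓝 b0) := by
    have t1 : Tendsto (cay 1 I) (Bornology.cobounded ℂ ⊓ 𝓟 HC) (𝓝[closedBall 0 1] 1) := by
      rw [tendsto_nhdsWithin_iff]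
      refine ⟨cay_tendsto I_im_pos, ?_⟩
      filter_upwards [mem_inf_of_right (mem_principal_self HC)] with z hz
      exact cay_closedBall norm_one I_im_pos hz
    have t2 := (hΨ.cont 1 hone).tendsto.comp t1
    rwa [w1] at t2
  obtain ⟨k, hk, hkz⟩ := weak_half h0 hψc hψd hψb hψ0 hψi
  have hk1 : k = 1 := by
    have e1 := hkz 1 h1C
    have e2 : ψ 1 = φ0 1 := by rw [hψ]; simp only [cay1_one, w3]
    rw [e2, mul_one] at e1
    have e3 := h0.inj h1C (hre k) e1
    exact ofReal_eq_one.1 e3.symm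
  subst hk1
  have hψφ : ∀ z ∈ HC, ψ z = φ0 z := by
    intro z hz
    rw [hkz z hz, ofReal_one, one_mul]
  -- the fourth point
  set w : ι → ℂ := fun n => cay 1 I (y n) with hw
  have hwm : ∀ n, w n ∈ closedBall (0:ℂ) 1 := fun n => cay_closedBall norm_one I_im_pos (hre _)
  obtain ⟨w0, hw0, hwt⟩ := exists_ulim (U := U) (f := w) (R := 1) (Eventually.of_forall hwm)
  have t1 := hΨ.lim w0 hw0 w (Eventually.of_forall hwm) hwt
  have t2 : Tendsto (fun n => Φ n (w n)) U (𝓝 (φ0 y0)) := by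
    refine (hy.mono_left hU).congr fun n => ?_
    rw [hΦ, hw]
    simp only [toDisc_cay _ _ (hre _)]
  have e1 : Ψ w0 = φ0 y0 := tendsto_nhds_unique t1 t2
  have hw01 : w0 ≠ 1 := by
    rintro rfl
    rw [w1] at e1
    exact hbn ⟨y0, hre _, e1.symm⟩
  obtain ⟨g1, g2, -, -⟩ := exists_eq_cay hw0 hw01
  have e2 : icay w0 = y0 := by
    have e3 := hψφ _ g1
    rw [hψ] at e3
    simp only [g2] at e3
    rw [e1] at e3
    exact (h0.inj (hre _) g1 e3).symm
  have t3 : Tendsto (fun n => icay (w n)) U (𝓝 (icay w0)) := by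
    have hc : ContinuousAt icay w0 := by
      unfold icay
      refine continuousAt_const.mul (ContinuousAt.div (by fun_prop) (by fun_prop) ?_)
      exact sub_ne_zero.2 hw01.symm
    exact hc.tendsto.comp hwt
  rw [e2] at t3
  have t4 : Tendsto (fun n => ((y n : ℝ) : ℂ)) U (𝓝 (y0 : ℂ)) := by
    refine t3.congr fun n => ?_
    rw [hw]
    simp only [icay_cay (hre _)]
  exact (Complex.continuous_re.tendsto _).comp t4

/-- cross ratio of four real numbers -/
noncomputable def cr (x1 x2 x3 x4 : ℝ) : ℝ := (x2 - x1) * (x4 - x3) / ((x3 - x1) * (x4 - x2))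

/-- **Rado's theorem for quadrilaterals**: under convergence of Jordan domains and of four boundary
points the cross ratios of the preimages under half plane charts converge. -/
theorem tendsto_cr {ι : Type*} {l : Filter ι} {D : ι → Set ℂ} {D0 : Set ℂ} (h : KConv l D D0)
    {a b : ι → ℂ} {φ : ι → ℂ → ℂ} {a0 b0 : ℂ} {φ0 : ℂ → ℂ}
    (hφ : ∀ᶠ n in l, IsHalf (D n) (a n) (b n) (φ n)) (h0 : IsHalf D0 a0 b0 φ0)
    {x1 x2 x3 x4 : ι → ℝ} {X1 X2 X3 X4 : ℝ}
    (ord : ∀ᶠ n in l, x1 n < x2 n ∧ x2 n < x3 n ∧ x3 n < x4 n)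
    (O12 : X1 < X2) (O23 : X2 < X3) (O34 : X3 < X4)
    (t1 : Tendsto (fun n => φ n (x1 n)) l (𝓝 (φ0 X1)))
    (t2 : Tendsto (fun n => φ n (x2 n)) l (𝓝 (φ0 X2)))
    (t3 : Tendsto (fun n => φ n (x3 n)) l (𝓝 (φ0 X3)))
    (t4 : Tendsto (fun n => φ n (x4 n)) l (𝓝 (φ0 X4))) :
    Tendsto (fun n => cr (x1 n) (x2 n) (x3 n) (x4 n)) l (𝓝 (cr X1 X2 X3 X4)) := by
  -- algebra of the change of charts
  have alg : ∀ u1 u2 u3 u4 : ℝ, u1 < u2 → u2 < u3 → u3 < u4 →
      0 < (u3 - u2) / (u2 - u1) ∧ mo u1 u3 ((u3 - u2) / (u2 - u1)) 1 = u2 ∧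
      (((u3 - u2) / (u2 - u1) * (u4 - u1) / (u3 - u4) : ℝ) : ℂ) ≠
        -(((u3 - u2) / (u2 - u1) : ℝ) : ℂ) ∧
      mo u1 u3 ((u3 - u2) / (u2 - u1)) (((u3 - u2) / (u2 - u1) * (u4 - u1) / (u3 - u4) : ℝ)) = u4 ∧
      (u3 - u2) / (u2 - u1) * (u4 - u1) / (u3 - u4) < 0 ∧
      cr u1 u2 u3 u4 = 1 / (1 - (u3 - u2) / (u2 - u1) * (u4 - u1) / (u3 - u4)) := by
    intro u1 u2 u3 u4 h12 h23 h34
    have p1 : 0 < u2 - u1 := by linarith
    have p2 : 0 < u3 - u2 := by linarith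
    have p3 : 0 < u4 - u3 := by linarith
    have p4 : 0 < u3 - u1 := by linarith
    have p5 : 0 < u4 - u2 := by linarith
    have p6 : 0 < u4 - u1 := by linarith
    have q3 : u3 - u4 ≠ 0 := by linarith
    have hk : 0 < (u3 - u2) / (u2 - u1) := by positivity
    have hneg : (u3 - u2) / (u2 - u1) * (u4 - u1) / (u3 - u4) < 0 := by
      apply div_neg_of_pos_of_neg (by positivity) (by linarith)
    have hs : (u3 - u2) / (u2 - u1) * (u4 - u1) / (u3 - u4) + (u3 - u2) / (u2 - u1) =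
        (u3 - u2) / (u2 - u1) * (u3 - u1) / (u3 - u4) := by
      field_simp
      ring
    have hs0 : (u3 - u2) / (u2 - u1) * (u3 - u1) / (u3 - u4) ≠ 0 := by
      refine div_ne_zero (by positivity) q3
    refine ⟨hk, ?_, ?_, ?_, hneg, ?_⟩
    · rw [mo]
      have : (u3 : ℝ) - (u3 - u2) / (u2 - u1) * (u3 - u1) / (1 + (u3 - u2) / (u2 - u1)) = u2 := by
        have h1 : 1 + (u3 - u2) / (u2 - u1) = (u3 - u1) / (u2 - u1) := by
          field_simp
          ring
        rw [h1]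
        field_simp
        ring
      exact_mod_cast this
    · intro hh
      have h1 : (u3 - u2) / (u2 - u1) * (u4 - u1) / (u3 - u4) = -((u3 - u2) / (u2 - u1)) := by
        exact_mod_cast hh
      apply hs0
      rw [← hs, h1]
      ring
    · rw [mo]
      have : (u3 : ℝ) - (u3 - u2) / (u2 - u1) * (u3 - u1) /
          ((u3 - u2) / (u2 - u1) * (u4 - u1) / (u3 - u4) + (u3 - u2) / (u2 - u1)) = u4 := by
        rw [hs]
        field_simp
        ring
      exact_mod_cast this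
    · rw [cr]
      have h1 : 1 - (u3 - u2) / (u2 - u1) * (u4 - u1) / (u3 - u4) =
          ((u3 - u1) * (u4 - u2)) / ((u2 - u1) * (u4 - u3)) := by
        have q4 : (u3 - u4) = -(u4 - u3) := by ring
        rw [q4]
        field_simp
        ring
      rw [h1, one_div_div]
  set k : ι → ℝ := fun n => (x3 n - x2 n) / (x2 n - x1 n) with hk
  set K : ℝ := (X3 - X2) / (X2 - X1) with hK
  set y : ι → ℝ := fun n => k n * (x4 n - x1 n) / (x3 n - x4 n) with hy
  set Y : ℝ := K * (X4 - X1) / (X3 - X4) with hY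
  obtain ⟨A1, A2, A3, A4, A5, A6⟩ := alg X1 X2 X3 X4 O12 O23 O34
  have one_ne : ∀ κ : ℝ, 0 < κ → (1:ℂ) ≠ -(κ : ℂ) := by
    intro κ hκ hh
    have : (1:ℝ) = -κ := by exact_mod_cast hh
    linarith
  have hfar := tendsto_fourth (l := l) h (a := fun n => φ n (x1 n)) (b := fun n => φ n (x3 n))
    (φ := fun n => chg (φ n) (b n) (x1 n) (x3 n) (k n)) (a0 := φ0 X1) (b0 := φ0 X3)
    (φ0 := chg φ0 b0 X1 X3 K) (by
      filter_upwards [hφ, h.jd, ord] with n g1 g2 g3
      exact half_moebius (by linarith [g3.1, g3.2.1]) (alg _ _ _ _ g3.1 g3.2.1 g3.2.2).1 g1 g2.1)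
    (half_moebius (by linarith) A1 h0 h.jd0.1) t1 t3 (by
      rw [chg_ne _ _ _ _ _ (one_ne K A1), A2]
      refine t2.congr' ?_
      filter_upwards [ord] with n g3
      have g := alg _ _ _ _ g3.1 g3.2.1 g3.2.2
      show φ n (x2 n) = chg (φ n) (b n) (x1 n) (x3 n) (k n) 1
      rw [chg_ne _ _ _ _ _ (one_ne (k n) g.1), g.2.1]) (y := y) (y0 := Y) (by
      rw [chg_ne _ _ _ _ _ A3, A4]
      refine t4.congr' ?_
      filter_upwards [ord] with n g3
      have g := alg _ _ _ _ g3.1 g3.2.1 g3.2.2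
      show φ n (x4 n) = chg (φ n) (b n) (x1 n) (x3 n) (k n) (y n)
      rw [chg_ne _ _ _ _ _ g.2.2.1, g.2.2.2.1])
  rw [A6]
  have t5 : Tendsto (fun n => 1 / (1 - y n)) l (𝓝 (1 / (1 - Y))) := by
    refine Tendsto.div tendsto_const_nhds (tendsto_const_nhds.sub hfar) ?_
    linarith
  refine t5.congr' ?_
  filter_upwards [ord] with n g3
  exact ((alg _ _ _ _ g3.1 g3.2.1 g3.2.2).2.2.2.2.2).symm

end Pool.Agent.H19.Rado
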