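import Pool.Agent.H19.Rado.Arcs

set_option autoImplicit false
open Set Metric Filter Topology Complex
open scoped Real

/-! Positively oriented boundary loops and the half plane map. -/

namespace Pool.Agent.H19.Rado

open Pool.Agent.H14.Jordan
open Pool.Agent.H69.Car

/-- `G` is a positively oriented parametrisation of the boundary of `D` with period `T`. -/
structure PLoop (D : Set ℂ) (G : ℝ → ℂ) (T : ℝ) : Prop where
  pos : 0 < T
  cont : Continuous G
  per : Function.Periodic G T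
  inj : InjOn G (Ico 0 T)
  range : range G = frontier D
  orient : ∃ z0 ∈ D, ∃ B : ℝ → ℝ, Continuous B ∧
    (∀ s, G s - z0 = ‖G s - z0‖ * exp (B s * I)) ∧ B 0 < B T

/-- two arguments of the same direction -/
lemma exp_arg_eq {z : ℂ} (hz : z ≠ 0) {A B : ℝ} (h1 : z = ‖z‖ * exp (A * I))
    (h2 : z = ‖z‖ * exp (B * I)) : exp (((A - B : ℝ) : ℂ) * I) = 1 := by
  have hn : ((‖z‖ : ℝ) : ℂ) ≠ 0 := by exact_mod_cast norm_ne_zero_iff.2 hz
  have h3 : exp ((A : ℂ) * I) = exp ((B : ℂ) * I) := by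
    apply mul_left_cancel₀ hn
    rw [← h1, ← h2]
  rw [ofReal_sub, sub_mul, exp_sub, h3, div_self (exp_ne_zero _)]

/-- continuous arguments of the same directions differ by a constant -/
lemma arg_diff_const {S : Set ℝ} (hS : IsPreconnected S) {g : ℝ → ℂ} (hg : ∀ s ∈ S, g s ≠ 0)
    {A B : ℝ → ℝ} (hA : ContinuousOn A S) (hB : ContinuousOn B S)
    (h1 : ∀ s ∈ S, g s = ‖g s‖ * exp (A s * I)) (h2 : ∀ s ∈ S, g s = ‖g s‖ * exp (B s * I))
    {s t : ℝ} (hs : s ∈ S) (ht : t ∈ S) : A s - B s = A t - B t := by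
  have hc : ContinuousOn (fun s : ℝ => ((A s - B s : ℝ) : ℂ) * I) S :=
    (Complex.continuous_ofReal.comp_continuousOn (hA.sub hB)).mul continuousOn_const
  have := eq_of_exp_eq hS hc (c := 1) (fun s hs => exp_arg_eq (hg s hs) (h1 s hs) (h2 s hs)) hs ht
  have h3 := mul_right_cancel₀ I_ne_zero this
  exact_mod_cast h3

/-- a periodic function injective on one period is injective on every period -/
lemma inj_period {G : ℝ → ℂ} {T : ℝ} (hT : 0 < T) (hper : Function.Periodic G T)
    (hi : InjOn G (Ico 0 T)) (a : ℝ) : InjOn G (Ico a (a + T)) := by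
  have hf : ∀ s : ℝ, 0 ≤ s - ⌊s / T⌋ * T ∧ s - ⌊s / T⌋ * T < T := by
    intro s
    have h1 := Int.floor_le (s / T)
    have h2 := Int.lt_floor_add_one (s / T)
    rw [le_div_iff₀ hT] at h1
    rw [div_lt_iff₀ hT] at h2
    constructor
    · linarith
    · nlinarith
  have hG : ∀ s : ℝ, G (s - ⌊s / T⌋ * T) = G s := fun s => hper.sub_int_mul_eq _
  intro s hs s' hs' e
  have h1 : s - ⌊s / T⌋ * T = s' - ⌊s' / T⌋ * T :=
    hi ⟨(hf s).1, (hf s).2⟩ ⟨(hf s').1, (hf s').2⟩ (by rw [hG, hG, e])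
  have h2 : s - s' = ((⌊s / T⌋ - ⌊s' / T⌋ : ℤ) : ℝ) * T := by push_cast; linarith
  have h3 : |((⌊s / T⌋ - ⌊s' / T⌋ : ℤ) : ℝ)| < 1 := by
    have h4 : |s - s'| < T := by
      rw [abs_lt]
      constructor <;> linarith [hs.1, hs.2, hs'.1, hs'.2]
    rw [h2, abs_mul, abs_of_pos hT] at h4
    by_contra hcon
    push Not at hcon
    nlinarith
  have h5 : ⌊s / T⌋ - ⌊s' / T⌋ = 0 := by
    have : |⌊s / T⌋ - ⌊s' / T⌋| < 1 := by exact_mod_cast h3
    exact Int.abs_lt_one_iff.1 this
  rw [h5] at h2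
  simp only [Int.cast_zero, zero_mul] at h2
  linarith

namespace PLoop

variable {D : Set ℂ} {G : ℝ → ℂ} {T : ℝ} (P : PLoop D G T)
include P

/-- injectivity on any half open period -/
lemma injOn (a : ℝ) : InjOn G (Ico a (a + T)) := inj_period P.pos P.per P.inj a

lemma exists_mem {z : ℂ} (hz : z ∈ frontier D) (a : ℝ) : ∃ s ∈ Ioc a (a + T), G s = z := by
  rw [← P.range] at hz
  obtain ⟨s, rfl⟩ := hz
  obtain ⟨y, hy, e⟩ := P.per.exists_mem_Ioc P.pos s a
  exact ⟨y, hy, e.symm⟩

lemma mem (s : ℝ) : G s ∈ frontier D := by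
  rw [← P.range]
  exact mem_range_self s

/-- the argument about a point grows over every period -/
lemma arg_shift (hD : IsOpen D) {z0 : ℂ} (hz0 : z0 ∈ D) {B : ℝ → ℝ} (hB : Continuous B)
    (h : ∀ s, G s - z0 = ‖G s - z0‖ * exp (B s * I)) (s t : ℝ) :
    B (s + T) - B s = B (t + T) - B t := by
  have hne : ∀ s, G s - z0 ≠ 0 := by
    intro s e
    have h1 := P.mem s
    rw [hD.frontier_eq, sub_eq_zero.1 e] at h1
    exact h1.2 hz0
  refine arg_diff_const (S := univ) isPreconnected_univ (g := fun s => G s - z0)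
    (A := fun s => B (s + T)) (B := B) (fun s _ => hne s) (by fun_prop) hB.continuousOn ?_
    (fun s _ => h s) (mem_univ s) (mem_univ t)
  intro s _
  have := h (s + T)
  rw [P.per s] at this
  exact this

/-- **Orientation theorem.** The half plane map runs through the boundary in the direction of
every positively oriented loop. -/
theorem exists_psi {a b : ℂ} {φ : ℂ → ℂ} (h : IsHalf D a b φ) (hD : IsOpen D) :
    ∃ (sb : ℝ) (ψ : ℝ → ℝ), sb ∈ Ioc 0 T ∧ G sb = b ∧ StrictMono ψ ∧
      Set.range ψ = Ioo sb (sb + T) ∧ Continuous ψ ∧ ∀ x : ℝ, φ x = G (ψ x) := by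
  classical
  have hT := P.pos
  obtain ⟨sb, hsb, eb⟩ := P.exists_mem (b_mem h hD) 0
  rw [zero_add] at hsb
  have ebT : G (sb + T) = b := by rw [P.per sb, eb]
  -- preimages
  have hpre : ∀ s ∈ Ioo sb (sb + T), ∃ x : ℝ, φ x = G s := by
    intro s hs
    have h1 : G s ∈ frontier D \ {b} := by
      refine ⟨P.mem s, fun e => ?_⟩
      have e' : G s = G sb := by rw [eb]; exact e
      have := P.injOn sb ⟨hs.1.le, hs.2⟩ ⟨le_rfl, by linarith⟩ e'
      linarith [hs.1]
    rw [← h.image_real hD] at h1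
    obtain ⟨z, hz, hz'⟩ := h1
    refine ⟨z.re, ?_⟩
    have : ((z.re : ℝ) : ℂ) = z :=
      Complex.ext (by simp) (by simpa using (show z.im = 0 from hz).symm)
    rw [this]
    exact hz'
  choose! σ hσ using hpre
  have hσi : InjOn σ (Ioo sb (sb + T)) := by
    intro s hs t ht e
    apply P.injOn sb ⟨hs.1.le, hs.2⟩ ⟨ht.1.le, ht.2⟩
    rw [← hσ s hs, ← hσ t ht, e]
  have hσs : ∀ x : ℝ, ∃ s ∈ Ioo sb (sb + T), σ s = x := by
    intro x
    obtain ⟨h1, h2⟩ := h.mapsTo_real hD (x := x)
    obtain ⟨s, hs, e⟩ := P.exists_mem h1 sb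
    have hs' : s ∈ Ioo sb (sb + T) := by
      refine ⟨hs.1, lt_of_le_of_ne hs.2 fun h3 => h2 ?_⟩
      rw [← e, h3, ebT]
    refine ⟨s, hs', h.inj_real ?_⟩
    rw [hσ s hs', e]
  have hσc : ContinuousOn σ (Ioo sb (sb + T)) := by
    intro s hs
    rw [Metric.continuousWithinAt_iff]
    intro ε hε
    obtain ⟨δ, hδ, h1⟩ := Pool.Agent.H19.RH.inv_cont h (Pool.Agent.H19.RH.real_HC (σ s)) hε
    obtain ⟨η, hη, h2⟩ := Metric.continuous_iff.1 P.cont s δ hδ
    refine ⟨η, hη, fun t ht hd => ?_⟩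
    have h3 := h1 (σ t) (Pool.Agent.H19.RH.real_HC _) (by rw [hσ s hs, hσ t ht]; exact h2 t hd)
    rw [Complex.dist_eq, ← ofReal_sub, Complex.norm_real] at h3
    exact h3
  -- arguments
  obtain ⟨z0, hz0, B, hB, hB1, hB2⟩ := P.orient
  obtain ⟨w0, hw0, ew⟩ : ∃ w0 ∈ HO, φ w0 = z0 := by
    rw [← h.image] at hz0
    exact hz0
  obtain ⟨A, α, hA, hA1, hAt, hAb⟩ := exists_arg h hD hw0
  rw [ew] at hA1
  have hne : ∀ s, G s - z0 ≠ 0 := by
    intro s e
    have h1 := P.mem s
    rw [hD.frontier_eq, sub_eq_zero.1 e] at h1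
    exact h1.2 hz0
  have hlt : sb < sb + T := by linarith
  set m := sb + T / 2 with hm
  have hmm : m ∈ Ioo sb (sb + T) := ⟨by linarith, by linarith⟩
  have hconst : ∀ s ∈ Ioo sb (sb + T), B s = A (σ s) + (B m - A (σ m)) := by
    intro s hs
    have := arg_diff_const (S := Ioo sb (sb + T)) isPreconnected_Ioo (g := fun s => G s - z0)
      (A := B) (B := fun s => A (σ s)) (fun s _ => hne s) hB.continuousOn
      (hA.comp_continuousOn hσc) (fun s _ => hB1 s) (fun s hs => by
        have := hA1 (σ s)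
        rw [hσ s hs] at this
        exact this) hs hmm
    linarith
  have hgrow : B sb < B (sb + T) := by
    have := P.arg_shift hD hz0 hB hB1 sb 0
    rw [zero_add] at this
    linarith
  have hmono : StrictMonoOn σ (Ioo sb (sb + T)) := by
    rcases ContinuousOn.strictMonoOn_of_injOn_Ioo hlt hσc hσi with h1 | hanti
    · exact h1
    exfalso
    have t1 : Tendsto σ (𝓝[<] (sb + T)) atBot := by
      rw [Filter.tendsto_atBot]
      intro M
      obtain ⟨s, hs, e⟩ := hσs M
      filter_upwards [Ioo_mem_nhdsLT hs.2] with t ht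
      have := hanti hs ⟨hs.1.trans ht.1, ht.2⟩ ht.1
      linarith
    have t2 : Tendsto σ (𝓝[>] sb) atTop := by
      rw [Filter.tendsto_atTop]
      intro M
      obtain ⟨s, hs, e⟩ := hσs M
      filter_upwards [Ioo_mem_nhdsGT hs.1] with t ht
      have := hanti ⟨ht.1, ht.2.trans hs.2⟩ hs ht.2
      linarith
    have u1 : Tendsto B (𝓝[<] (sb + T)) (𝓝 (α + (B m - A (σ m)))) := by
      refine ((hAb.comp t1).add_const _).congr' ?_
      filter_upwards [Ioo_mem_nhdsLT hlt] with t ht
      exact (hconst t ht).symm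
    have u2 : Tendsto B (𝓝[>] sb) (𝓝 (α + 2 * π + (B m - A (σ m)))) := by
      refine ((hAt.comp t2).add_const _).congr' ?_
      filter_upwards [Ioo_mem_nhdsGT hlt] with t ht
      exact (hconst t ht).symm
    have v1 := tendsto_nhds_unique u1 ((hB.tendsto (sb + T)).mono_left nhdsWithin_le_nhds)
    have v2 := tendsto_nhds_unique u2 ((hB.tendsto sb).mono_left nhdsWithin_le_nhds)
    have := Real.pi_pos
    linarith
  choose ψ hψ hψ' using hσs
  have hψm : StrictMono ψ := by
    intro x y hxy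
    by_contra hcon
    push Not at hcon
    have := hmono.monotoneOn (hψ y) (hψ x) hcon
    rw [hψ', hψ'] at this
    linarith
  have hrange : Set.range ψ = Ioo sb (sb + T) := by
    apply Subset.antisymm
    · rintro _ ⟨x, rfl⟩
      exact hψ x
    · intro s hs
      exact ⟨σ s, hσi (hψ _) hs (hψ' _)⟩
  refine ⟨sb, ψ, hsb, eb, hψm, hrange, ?_, fun x => ?_⟩
  · rw [continuous_iff_continuousAt]
    intro x
    apply continuousAt_of_monotoneOn_of_image_mem_nhds (s := univ) (hψm.monotone.monotoneOn _)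
      univ_mem
    rw [image_univ, hrange]
    exact Ioo_mem_nhds (hψ x).1 (hψ x).2
  · rw [← hσ _ (hψ x), hψ']

/-- images of intervals -/
theorem image_Icc {ψ : ℝ → ℝ} {φ : ℂ → ℂ} {sb : ℝ} (hm : StrictMono ψ)
    (hr : Set.range ψ = Ioo sb (sb + T)) (he : ∀ x : ℝ, φ x = G (ψ x)) (s t : ℝ) :
    (fun x : ℝ => φ x) '' Icc s t = G '' Icc (ψ s) (ψ t) := by
  have _ := P.pos
  apply Subset.antisymm
  · rintro _ ⟨x, hx, rfl⟩
    exact ⟨ψ x, ⟨hm.monotone hx.1, hm.monotone hx.2⟩, (he x).symm⟩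
  · rintro _ ⟨u, hu, rfl⟩
    have h1 : ψ s ∈ Ioo sb (sb + T) := by rw [← hr]; exact mem_range_self _
    have h2 : ψ t ∈ Ioo sb (sb + T) := by rw [← hr]; exact mem_range_self _
    obtain ⟨x, rfl⟩ : u ∈ Set.range ψ := by
      rw [hr]; exact ⟨h1.1.trans_le hu.1, hu.2.trans_lt h2.2⟩
    exact ⟨x, ⟨hm.le_iff_le.1 hu.1, hm.le_iff_le.1 hu.2⟩, he x⟩

/-- image of the neighbourhood of infinity -/
theorem image_far {ψ : ℝ → ℝ} {φ : ℂ → ℂ} {b : ℂ} {sb : ℝ} (hm : StrictMono ψ)
    (hr : Set.range ψ = Ioo sb (sb + T)) (he : ∀ x : ℝ, φ x = G (ψ x)) (hb : G sb = b) {s t : ℝ}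
    (hst : s ≤ t) :
    (fun x : ℝ => φ x) '' (Iic s ∪ Ici t) ∪ {b} = G '' Icc (ψ t) (ψ s + T) := by
  have h1 : ψ s ∈ Ioo sb (sb + T) := by rw [← hr]; exact mem_range_self _
  have h2 : ψ t ∈ Ioo sb (sb + T) := by rw [← hr]; exact mem_range_self _
  have h3 : ψ s ≤ ψ t := hm.monotone hst
  apply Subset.antisymm
  · rintro z (⟨x, hx, rfl⟩ | hz)
    · have h4 : ψ x ∈ Ioo sb (sb + T) := by rw [← hr]; exact mem_range_self _
      rcases hx with hx | hx
      · refine ⟨ψ x + T, ⟨by linarith [h2.2, h4.1], ?_⟩, ?_⟩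
        · have := hm.monotone (show x ≤ s from hx)
          linarith
        · rw [P.per]; exact (he x).symm
      · exact ⟨ψ x, ⟨hm.monotone hx, by linarith [h4.2, h1.1]⟩, (he x).symm⟩
    · rw [mem_singleton_iff] at hz
      refine ⟨sb + T, ⟨h2.2.le, by linarith [h1.1]⟩, ?_⟩
      rw [P.per, hb, hz]
  · rintro _ ⟨u, hu, rfl⟩
    rcases lt_trichotomy u (sb + T) with g | g | g
    · obtain ⟨x, rfl⟩ : u ∈ Set.range ψ := by
        rw [hr]; exact ⟨h2.1.trans_le hu.1, g⟩
      exact Or.inl ⟨x, Or.inr (hm.le_iff_le.1 hu.1), he x⟩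
    · right
      rw [g, P.per, hb]
      exact mem_singleton _
    · obtain ⟨x, hx⟩ : u - T ∈ Set.range ψ := by
        rw [hr]; exact ⟨by linarith, by linarith [hu.2, h1.2]⟩
      left
      refine ⟨x, Or.inl (hm.le_iff_le.1 (by rw [hx]; linarith [hu.2])), ?_⟩
      change φ x = G u
      rw [he x, hx]
      have := P.per (u - T)
      rw [sub_add_cancel] at this
      exact this.symm

end PLoop

/-! ### The local orientation test for convex domains -/

/-- two boundary points of a convex domain on the same ray are equal -/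
lemma ray_eq {D : Set ℂ} (hc : Convex ℝ D) (hD : IsOpen D) {z0 p q : ℂ} (hz0 : z0 ∈ D)
    (hp : p ∈ frontier D) (hq : q ∈ frontier D) {t : ℝ}
    (h1 : p - z0 = ‖p - z0‖ * exp (t * I)) (h2 : q - z0 = ‖q - z0‖ * exp (t * I)) : p = q := by
  have key : ∀ p q : ℂ, p ∈ frontier D → q ∈ frontier D → p - z0 = ‖p - z0‖ * exp (t * I) →
      q - z0 = ‖q - z0‖ * exp (t * I) → ‖p - z0‖ < ‖q - z0‖ → False := by
    intro p q hp hq h1 h2 hlt
    rw [hD.frontier_eq] at hp hq
    have hi : z0 ∈ interior D := by rwa [hD.interior_eq]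
    have hq0 : 0 < ‖q - z0‖ := (norm_nonneg _).trans_lt hlt
    set r := ‖p - z0‖ / ‖q - z0‖ with hr
    have hr0 : 0 ≤ r := by positivity
    have hr1 : r < 1 := by rw [hr, div_lt_one hq0]; exact hlt
    have := hc.combo_interior_closure_mem_interior hi hq.1 (a := 1 - r) (b := r) (by linarith) hr0
      (by ring)
    rw [hD.interior_eq] at this
    apply hp.2
    have e : (1 - r) • z0 + r • q = p := by
      have h3 : p - z0 = r * (q - z0) := by
        rw [h2, h1, hr]
        have : ((‖q - z0‖ : ℝ) : ℂ) ≠ 0 := by exact_mod_cast hq0.ne'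
        push_cast
        field_simp
      rw [real_smul, real_smul]
      push_cast
      linear_combination -h3
    rw [← e]
    exact this
  rcases lt_trichotomy ‖p - z0‖ ‖q - z0‖ with h | h | h
  · exact (key p q hp hq h1 h2 h).elim
  · have : p - z0 = q - z0 := by rw [h1, h2, h]
    exact sub_left_injective this
  · exact (key q p hq hp h2 h1 h).elim

/-- **Local orientation test** for loops around a convex domain: the loop passes below `z0` from
the left to the right. -/
theorem ploop_of_convex {D : Set ℂ} {G : ℝ → ℂ} {T : ℝ} (hc : Convex ℝ D) (hD : IsOpen D)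
    (hT : 0 < T) (hG : Continuous G) (hper : Function.Periodic G T) (hi : InjOn G (Ico 0 T))
    (hr : Set.range G = frontier D) {z0 : ℂ} (hz0 : z0 ∈ D) {s1 s2 : ℝ} (h12 : s1 < s2)
    (h2T : s2 < s1 + T) (h1 : (G s1).re < z0.re) (h2 : z0.re < (G s2).re)
    (hb : ∀ s ∈ Icc s1 s2, (G s).im < z0.im) : PLoop D G T := by
  have hmem : ∀ s, G s ∈ frontier D := fun s => by rw [← hr]; exact mem_range_self s
  have hne : ∀ s, G s - z0 ≠ 0 := by
    intro s e
    have h1 := hmem s
    rw [hD.frontier_eq, sub_eq_zero.1 e] at h1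
    exact h1.2 hz0
  obtain ⟨L, hL, hL'⟩ := exists_log_real (f := fun s => G s - z0) (by fun_prop) hne
  set B : ℝ → ℝ := fun s => (L s).im with hBdef
  have hBc : Continuous B := Complex.continuous_im.comp hL
  have hB : ∀ s, G s - z0 = ‖G s - z0‖ * exp (B s * I) := by
    intro s
    have e : ((‖G s - z0‖ : ℝ) : ℂ) = exp ((L s).re : ℂ) := by
      rw [← hL' s, Complex.norm_exp, ofReal_exp]
    rw [e, ← exp_add, hBdef, re_add_im, hL' s]
  -- local monotonicity
  have hsin : ∀ s ∈ Icc s1 s2, Real.sin (B s) < 0 := by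
    intro s hs
    have h3 := congrArg Complex.im (hB s)
    rw [sub_im, exp_mul_I, ← ofReal_cos, ← ofReal_sin] at h3
    simp only [mul_im, add_im, ofReal_im, ofReal_re, mul_one, I_im, I_re, mul_zero, add_zero,
      zero_add, zero_mul] at h3
    have h4 := hb s hs
    have h5 : 0 < ‖G s - z0‖ := norm_pos_iff.2 (hne s)
    by_contra hcon
    push Not at hcon
    have := mul_nonneg h5.le hcon
    linarith
  have hcos : ∀ s, (G s).re - z0.re = ‖G s - z0‖ * Real.cos (B s) := by
    intro s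
    have h3 := congrArg Complex.re (hB s)
    rw [sub_re, exp_mul_I, ← ofReal_cos, ← ofReal_sin] at h3
    simp only [mul_re, add_re, ofReal_im, ofReal_re, mul_one, I_im, I_re, mul_zero, add_zero,
      zero_mul, sub_zero, sub_self] at h3
    exact h3
  have hc1 : Real.cos (B s1) < 0 := by
    have h3 := hcos s1
    have h5 : 0 < ‖G s1 - z0‖ := norm_pos_iff.2 (hne s1)
    by_contra hcon
    push Not at hcon
    have := mul_nonneg h5.le hcon
    linarith
  have hc2 : 0 < Real.cos (B s2) := by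
    have h3 := hcos s2
    have h5 : 0 < ‖G s2 - z0‖ := norm_pos_iff.2 (hne s2)
    by_contra hcon
    push Not at hcon
    have := mul_nonpos_of_nonneg_of_nonpos h5.le hcon
    linarith
  have hlt : B s1 < B s2 := by
    by_contra hcon
    push Not at hcon
    have hpi := Real.pi_pos
    have hd : B s1 - B s2 < π := by
      by_contra hcon2
      push Not at hcon2
      -- a zero of the sine
      set k : ℤ := ⌈B s2 / π⌉ with hk
      have k1 : B s2 ≤ k * π := by
        have := Int.le_ceil (B s2 / π)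
        rwa [div_le_iff₀ hpi] at this
      have k2 : k * π < B s2 + π := by
        have := Int.ceil_lt_add_one (B s2 / π)
        rw [← hk] at this
        have h6 : (k : ℝ) * π < (B s2 / π + 1) * π := mul_lt_mul_of_pos_right this hpi
        rw [add_mul, div_mul_cancel₀ _ hpi.ne', one_mul] at h6
        exact h6
      have hivt := intermediate_value_Icc' h12.le hBc.continuousOn
      obtain ⟨s, hs, e⟩ := hivt ⟨k1, by linarith⟩
      have := hsin s hs
      rw [e, Real.sin_int_mul_pi] at this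
      exact lt_irrefl _ this
    have h3 : 0 ≤ Real.sin (B s1 - B s2) :=
      Real.sin_nonneg_of_nonneg_of_le_pi (by linarith) hd.le
    rw [Real.sin_sub] at h3
    have h4 := hsin s1 ⟨le_rfl, h12.le⟩
    have h5 := hsin s2 ⟨h12.le, le_rfl⟩
    have h6 : Real.sin (B s1) * Real.cos (B s2) < 0 := mul_neg_of_neg_of_pos h4 hc2
    have h7 : 0 < Real.cos (B s1) * Real.sin (B s2) := mul_pos_of_neg_of_neg hc1 h5
    linarith
  have hq : PLoop D G T := by
    have hinj := inj_period hT hper hi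
    have hBi : InjOn B (Ico s1 (s1 + T)) := by
      intro s hs s' hs' e
      apply hinj s1 hs hs'
      apply ray_eq hc hD hz0 (hmem s) (hmem s') (hB s)
      rw [e]
      exact hB s'
    have hge : ∀ s' ∈ Ioo s2 (s1 + T), B s2 ≤ B s' := by
      intro s' hs'
      have hsub : Icc s1 s' ⊆ Ico s1 (s1 + T) := fun u hu => ⟨hu.1, hu.2.trans_lt hs'.2⟩
      rcases ContinuousOn.strictMonoOn_of_injOn_Icc' (h12.trans hs'.1).le hBc.continuousOn
        (hBi.mono hsub) with h3 | h3
      · exact h3.monotoneOn ⟨h12.le, hs'.1.le⟩ ⟨(h12.trans hs'.1).le, le_rfl⟩ hs'.1.le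
      · have := h3 ⟨le_rfl, (h12.trans hs'.1).le⟩ ⟨h12.le, hs'.1.le⟩ h12
        linarith
    have hle : B s2 ≤ B (s1 + T) := by
      have h3 : Tendsto B (𝓝[<] (s1 + T)) (𝓝 (B (s1 + T))) :=
        (hBc.tendsto _).mono_left nhdsWithin_le_nhds
      apply ge_of_tendsto h3
      filter_upwards [Ioo_mem_nhdsLT h2T] with t ht
      exact hge t ht
    refine ⟨hT, hG, hper, hi, hr, z0, hz0, B, hBc, hB, ?_⟩
    have hsh := arg_diff_const (S := univ) isPreconnected_univ (g := fun s => G s - z0)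
      (A := fun s => B (s + T)) (B := B) (fun s _ => hne s) (by fun_prop) hBc.continuousOn
      (fun s _ => by
        have := hB (s + T)
        rw [hper s] at this
        exact this) (fun s _ => hB s) (mem_univ s1) (mem_univ 0)
    simp only [zero_add] at hsh
    linarith
  exact hq

end Pool.Agent.H19.Rado
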