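import Pool.Agent.H69.Car.Inj

set_option autoImplicit false
open Set Metric Filter Topology MeasureTheory Complex
open scoped Real ENNReal

/-! Uniform versions (with explicit dependence) of the statements on small arcs, far points and the
modulus of continuity of conformal maps of the disc onto Jordan domains. -/

namespace Pool.Agent.H19.Rado

open Pool.Agent.H81.Q1 (IsJordanDomain)
open Pool.Agent.H14.Jordan
open Pool.Agent.H69.Car
open Pool.Agent.H96.M7 (len exists_short edist_arc)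

/-- modulus of small arcs -/
def SA (ρ : ℝ → ℂ) (ε δ : ℝ) : Prop := ∀ x ∈ range ρ, ∃ a b, a < b ∧ b < a + 2 * π ∧
    (∀ y ∈ range ρ, dist y x < δ → y ∈ ρ '' Ioo a b) ∧ (∀ y ∈ ρ '' Icc a b, dist y x < ε)

/-- Loops uniformly close to a given loop have a common modulus of small arcs. -/
lemma exists_sa {ρ : ℝ → ℂ} (h : IsLoop ρ) {ε : ℝ} (hε : 0 < ε) : ∃ δ > 0, ∀ σ : ℝ → ℂ, IsLoop σ →
    (∀ t, dist (σ t) (ρ t) ≤ δ) → SA σ ε δ := by
  obtain ⟨η, hη, h1⟩ := h.uniform (show 0 < ε / 3 by positivity)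
  set η' := min (η / 2) 1 with hη'
  have hη'0 : 0 < η' := by positivity
  have e1 := min_le_left (η / 2) 1
  have e2 := min_le_right (η / 2) 1
  have e3 := Real.pi_gt_three
  obtain ⟨δ, hδ, h2⟩ := h.uniform_inv hη'0
  refine ⟨min (δ / 4) (ε / 4), by positivity, fun σ hσ hd => ?_⟩
  have f1 := min_le_left (δ / 4) (ε / 4)
  have f2 := min_le_right (δ / 4) (ε / 4)
  rintro _ ⟨t, rfl⟩
  refine ⟨t - η', t + η', by linarith, by linarith, ?_, ?_⟩
  · rintro _ ⟨s, rfl⟩ hs
    have h3 : dist (ρ s) (ρ t) < δ := by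
      have a1 := dist_triangle4_left (ρ s) (ρ t) (σ s) (σ t)
      have a2 := hd s
      have a3 := hd t
      rw [dist_comm (σ s) (ρ s)] at a2
      have a4 := dist_triangle (ρ s) (σ s) (ρ t)
      have a5 := dist_triangle (σ s) (σ t) (ρ t)
      linarith
    obtain ⟨n, hn⟩ := h2 s t h3
    rw [abs_lt] at hn
    refine ⟨s - n * (2 * π), ⟨by linarith, by linarith⟩, ?_⟩
    have := hσ.add_int s (-n)
    push_cast at this
    rw [← this]
    congr 1; ring
  · rintro _ ⟨s, hs, rfl⟩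
    have h3 := h1 s t (by rw [abs_lt]; constructor <;> linarith [hs.1, hs.2])
    have a2 := hd s
    have a3 := hd t
    have a4 := dist_triangle (σ s) (ρ s) (σ t)
    have a5 := dist_triangle_right (ρ s) (σ t) (ρ t)
    linarith

/-- Small sets do not separate far points, with an explicit modulus. -/
theorem joined_of_sa {ρ : ℝ → ℂ} (h : IsLoop ρ) {D : Set ℂ} (hD : IsOpen D)
    (hDc : IsPreconnected D) (hfr : frontier D = range ρ) {ε δ : ℝ} (hε : 0 < ε) (hδ : 0 < δ)
    (harc : SA ρ (ε / 2) δ) (c : ℂ) (K : Set ℂ) (hK : IsCompact K)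
    (hKc : K ⊆ Metric.closedBall c (min (δ / 3) (ε / 3))) {z w : ℂ} (hz : z ∈ D) (hw : w ∈ D)
    (hzc : ε < dist z c) (hwc : ε < dist w c) : JoinedIn (D \ K) z w := by
  set d := min (δ / 3) (ε / 3) with hd
  have hd0 : 0 < d := by positivity
  have e1 := min_le_left (δ / 3) (ε / 3)
  have e2 := min_le_right (δ / 3) (ε / 3)
  apply joinedIn_of_frontier hz
  -- joined in the domain
  have hD1 : JoinedIn (range ρ)ᶜ z w := by
    have h1 : JoinedIn D z w :=
      (hD.isConnected_iff_isPathConnected.1 ⟨⟨z, hz⟩, hDc⟩).joinedIn z hz w hw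
    refine h1.mono fun x hx hx' => ?_
    rw [← hfr] at hx'
    exact disjoint_left.1 (frontier_disjoint_open hD) hx hx'
  rw [hfr]
  rcases (K ∩ range ρ).eq_empty_or_nonempty with he | ⟨x, hxK, hxρ⟩
  · refine janiszewski h.isCompact_range hK ?_ hD1 ?_
    · rw [inter_comm, he]; exact isPreconnected_empty
    · exact (joined_outside_ball hd0 (by linarith) (by linarith)).mono (compl_subset_compl.2 hKc)
  · obtain ⟨a, b, hab, hba, hin, hsm⟩ := harc x hxρ
    have hxc : dist x c ≤ d := hKc hxK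
    have hset : range ρ ∪ K = range ρ ∪ (K ∪ ρ '' Icc a b) := by
      ext y
      constructor
      · rintro (hy | hy)
        · exact Or.inl hy
        · exact Or.inr (Or.inl hy)
      · rintro (hy | hy | hy)
        · exact Or.inl hy
        · exact Or.inr hy
        · exact Or.inl (image_subset_range _ _ hy)
    rw [hset]
    refine janiszewski h.isCompact_range (hK.union (h.arc_compact a b)) ?_ hD1 ?_
    · have : range ρ ∩ (K ∪ ρ '' Icc a b) = ρ '' Icc a b := by
        ext y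
        constructor
        · rintro ⟨hy, hy' | hy'⟩
          · refine image_mono Ioo_subset_Icc_self (hin y hy ?_)
            have h3 : dist y c ≤ d := hKc hy'
            have := dist_triangle y c x
            rw [dist_comm c x] at this
            linarith
          · exact hy'
        · intro hy; exact ⟨image_subset_range _ _ hy, Or.inr hy⟩
      rw [this]
      exact h.arc_preconnected a b
    · refine (joined_outside_ball (c := c) (r := ε) hε hzc hwc).mono ?_
      apply compl_subset_compl.2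
      rintro y (hy | hy)
      · exact Metric.closedBall_subset_closedBall (by linarith) (hKc hy)
      · have h3 := hsm y hy
        have := dist_triangle y x c
        rw [Metric.mem_closedBall]
        linarith

/-- explicit radius -/
noncomputable def rr (A δ : ℝ) : ℝ := (1/4 : ℝ) * Real.exp (-(4 * π * A / δ ^ 2 + 1))

lemma rr_pos (A δ : ℝ) : 0 < rr A δ := by unfold rr; positivity

/-- **Explicit modulus of continuity** of a conformal map of the disc onto a Jordan domain,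
normalised at the three boundary points `1, -1, -I`. -/
theorem unif_explicit {D : Set ℂ} {Φ : ℂ → ℂ} (hΦ : IsCar D Φ) {A δ ε : ℝ}
    (hA0 : 0 < A) (hAv : volume D ≤ ENNReal.ofReal A) (hδ : 0 < δ)
    (hfar : ∀ (c : ℂ) (K : Set ℂ), IsCompact K → K ⊆ closedBall c δ → ∀ z ∈ D, ∀ w ∈ D,
      ε < dist z c → ε < dist w c → JoinedIn (D \ K) z w)
    (h12 : 2 * ε < dist (Φ 1) (Φ (-1))) (h13 : 2 * ε < dist (Φ 1) (Φ (-I)))
    (h23 : 2 * ε < dist (Φ (-1)) (Φ (-I))) :
    ∀ z ∈ ball (0:ℂ) 1, ∀ w ∈ ball (0:ℂ) 1, dist z w < rr A δ → dist (Φ z) (Φ w) ≤ 2 * ε := by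
  have hb : BijOn Φ (ball 0 1) D :=
    ⟨by rw [← hΦ.image_ball]; exact mapsTo_image _ _, hΦ.inj.mono ball_subset_closedBall,
      by rw [← hΦ.image_ball]; exact surjOn_image _ _⟩
  set f := Function.invFunOn Φ (ball 0 1) with hfdef
  have hfφ : ∀ z ∈ ball (0:ℂ) 1, f (Φ z) = z := fun z hz => hb.injOn.leftInvOn_invFunOn hz
  have hDeq : Φ '' ball 0 1 = D := hΦ.image_ball
  have hDo : IsOpen (ball (0:ℂ) 1) := isOpen_ball
  have hf : ContinuousOn f D := by
    rw [← hDeq]
    exact (Pool.Agent.H83.Lo.differentiableOn_inv hDo hΦ.diff hb.injOn hfφ).continuousOn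
  have hAv' : volume (Φ '' ball 0 1) ≤ ENNReal.ofReal A := by rw [hDeq]; exact hAv
  set r := rr A δ with hr
  have hr0 : 0 < r := rr_pos A δ
  have hlog : Real.log ((1/4) / r) = 4 * π * A / δ ^ 2 + 1 := by
    rw [hr, rr]
    have : (1/4 : ℝ) / (1/4 * Real.exp (-(4 * π * A / δ ^ 2 + 1))) =
        Real.exp (4 * π * A / δ ^ 2 + 1) := by
      rw [Real.exp_neg]
      field_simp
    rw [this, Real.log_exp]
  have hr1 : r < 1/4 := by
    rw [hr, rr]
    have : Real.exp (-(4 * π * A / δ ^ 2 + 1)) < 1 := by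
      rw [Real.exp_lt_one_iff]
      have : 0 < 4 * π * A / δ ^ 2 := by positivity
      linarith
    linarith
  have hquot : 4 * π * A / Real.log ((1/4) / r) ≤ δ ^ 2 := by
    rw [hlog, div_le_iff₀ (by positivity)]
    have : δ ^ 2 * (4 * π * A / δ ^ 2 + 1) = 4 * π * A + δ ^ 2 := by
      field_simp
    rw [this]
    nlinarith [sq_nonneg δ]
  intro z0 hz0 w0 hw0 hzw
  obtain ⟨ρ, hρ, hlen⟩ := exists_short isOpen_ball hΦ.diff hb.injOn hA0 hAv' z0 hr0 hr1
  have hρ0 : 0 < ρ := hr0.trans hρ.1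
  have hlen' : len Φ (ball 0 1) z0 ρ ≤ ENNReal.ofReal δ := by
    have h1 : len Φ (ball 0 1) z0 ρ ^ 2 ≤ ENNReal.ofReal δ ^ 2 := by
      refine hlen.trans ?_
      rw [← ENNReal.ofReal_pow hδ.le]
      exact ENNReal.ofReal_le_ofReal hquot
    exact (ENNReal.pow_le_pow_left_iff two_ne_zero).1 h1
  set T := Φ '' (ball 0 1 ∩ sphere z0 ρ) with hT
  have hTd : ∀ u ∈ T, ∀ v ∈ T, dist u v ≤ δ := by
    rintro _ ⟨u, ⟨hu, hu'⟩, rfl⟩ _ ⟨v, ⟨hv, hv'⟩, rfl⟩
    obtain ⟨a, b, hab, hab2, hin, hor⟩ := exists_arc hρ0 (mem_ball_zero_iff.1 hu)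
      (mem_ball_zero_iff.1 hv) hu' hv'
    have h1 := (edist_arc isOpen_ball hΦ.diff z0 hρ0.le hab hab2 hin).trans hlen'
    have h2 : dist (Φ (circleMap z0 ρ b)) (Φ (circleMap z0 ρ a)) ≤ δ := by
      rw [dist_eq_norm]
      rw [← ofReal_norm, ENNReal.ofReal_le_ofReal_iff hδ.le] at h1
      exact h1
    rcases hor with ⟨ha, hb'⟩ | ⟨ha, hb'⟩
    · rw [ha, hb'] at h2
      rwa [dist_comm]
    · rw [ha, hb'] at h2
      exact h2
  -- a point of the circle
  obtain ⟨s0, hs0, hs0'⟩ : ∃ s0 : ℂ, s0 ∈ ball (0:ℂ) 1 ∧ s0 ∈ sphere z0 ρ := by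
    by_cases hz : z0 = 0
    · refine ⟨ρ, ?_, ?_⟩
      · rw [mem_ball_zero_iff, norm_real, Real.norm_of_nonneg hρ0.le]
        linarith [hρ.2]
      · rw [mem_sphere, hz, dist_zero_right, norm_real, Real.norm_of_nonneg hρ0.le]
    · have hn : 0 < ‖z0‖ := norm_pos_iff.2 hz
      refine ⟨z0 - (ρ / ‖z0‖ : ℝ) * z0, ?_, ?_⟩
      · have : z0 - (ρ / ‖z0‖ : ℝ) * z0 = ((1 - ρ / ‖z0‖ : ℝ) : ℂ) * z0 := by
          push_cast; ring
        rw [mem_ball_zero_iff, this, norm_mul, norm_real, Real.norm_eq_abs]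
        have h3 : |1 - ρ / ‖z0‖| * ‖z0‖ = |‖z0‖ - ρ| := by
          rw [← abs_of_pos hn, ← abs_mul, abs_of_pos hn]
          congr 1
          field_simp
        rw [h3, abs_lt]
        have := mem_ball_zero_iff.1 hz0
        constructor
        · linarith [hρ.2]
        · linarith
      · rw [mem_sphere, dist_eq_norm, sub_sub_cancel_left, norm_neg, norm_mul, norm_real,
          Real.norm_of_nonneg (by positivity)]
        field_simp
  set c := Φ s0 with hc
  have hcT : c ∈ T := ⟨s0, ⟨hs0, hs0'⟩, rfl⟩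
  set K := closure T with hK
  have hKsub : K ⊆ closedBall c δ :=
    closure_minimal (fun u hu => hTd u hu c hcT) isClosed_closedBall
  have hKc : IsCompact K :=
    (isCompact_closedBall c δ).of_isClosed_subset isClosed_closure hKsub
  have hfD : ∀ u ∈ D, f u ∈ ball (0:ℂ) 1 ∧ Φ (f u) = u := by
    intro u hu
    obtain ⟨v, hv, rfl⟩ := hb.surjOn hu
    rw [hfφ v hv]
    exact ⟨hv, rfl⟩
  have hsep : ∀ z ∈ ball (0:ℂ) 1, dist z z0 < ρ → ∀ w ∈ ball (0:ℂ) 1, ρ < dist w z0 →
      ε < dist (Φ z) c → ε < dist (Φ w) c → False := by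
    intro z hz hzρ w hw hwρ h1 h2
    obtain ⟨γ, hγ⟩ := hfar c K hKc hKsub (Φ z) (hb.mapsTo hz) (Φ w) (hb.mapsTo hw) h1 h2
    have hcont : Continuous (fun t => dist (f (γ t)) z0) := by
      refine Continuous.dist ?_ continuous_const
      exact hf.comp_continuous γ.continuous fun t => (hγ t).1
    have h3 : ρ ∈ range (fun t => dist (f (γ t)) z0) := by
      have h4 := intermediate_value_univ (0 : unitInterval) 1 hcont
      apply h4
      simp only [γ.source, γ.target, hfφ z hz, hfφ w hw]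
      exact ⟨hzρ.le, hwρ.le⟩
    obtain ⟨t, ht⟩ := h3
    have h5 := hfD (γ t) (hγ t).1
    apply (hγ t).2
    apply subset_closure
    exact ⟨f (γ t), ⟨h5.1, ht⟩, h5.2⟩
  have hin : ∀ z ∈ ball (0:ℂ) 1, dist z z0 < ρ → dist (Φ z) c ≤ ε := by
    intro z hz hzρ
    by_contra hcon
    push Not at hcon
    have hall : ∀ w ∈ ball (0:ℂ) 1, ρ < dist w z0 → dist (Φ w) c ≤ ε := by
      intro w hw hwρ
      by_contra h
      push Not at h
      exact hsep z hz hzρ w hw hwρ hcon h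
    -- the same for boundary points
    have hallb : ∀ ζ : ℂ, ‖ζ‖ = 1 → ρ < dist ζ z0 → dist (Φ ζ) c ≤ ε := by
      intro ζ hζ hζρ
      have hζc : ζ ∈ closedBall (0:ℂ) 1 := by rw [mem_closedBall_zero_iff, hζ]
      have hcl : closure (ball (0:ℂ) 1) = closedBall 0 1 := closure_ball _ one_ne_zero
      have hne : (𝓝[ball (0:ℂ) 1] ζ).NeBot :=
        mem_closure_iff_nhdsWithin_neBot.1 (hcl ▸ hζc)
      have ht : Tendsto (fun w => dist (Φ w) c) (𝓝[ball (0:ℂ) 1] ζ) (𝓝 (dist (Φ ζ) c)) := by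
        refine Tendsto.dist ?_ tendsto_const_nhds
        exact ((hΦ.cont ζ hζc).mono ball_subset_closedBall).tendsto
      refine le_of_tendsto ht ?_
      have h1 : ∀ᶠ w in 𝓝[ball (0:ℂ) 1] ζ, ρ < dist w z0 :=
        ((continuous_id.dist (continuous_const (y := z0))).continuousAt.eventually
          (lt_mem_nhds hζρ)).filter_mono nhdsWithin_le_nhds
      filter_upwards [h1, self_mem_nhdsWithin] with w hw1 hw2
      exact hall w hw2 hw1
    have hfin : ∀ p q : ℂ, ‖p‖ = 1 → ‖q‖ = 1 → ρ < dist p z0 → ρ < dist q z0 →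
        2 * ε < dist (Φ p) (Φ q) → False := by
      intro p q hp hq h1 h2 h3
      have h4 := hallb p hp h1
      have h5 := hallb q hq h2
      have h6 := dist_triangle_right (Φ p) (Φ q) c
      linarith
    have hdist : ∀ p q : ℂ, 1 ≤ dist p q → dist p z0 ≤ ρ → ρ < dist q z0 := by
      intro p q h1 h2
      have := dist_triangle_right p q z0
      linarith [hρ.2]
    have n1 : ‖(1:ℂ)‖ = 1 := norm_one
    have n2 : ‖(-1:ℂ)‖ = 1 := by rw [norm_neg, norm_one]
    have n3 : ‖(-I:ℂ)‖ = 1 := by rw [norm_neg, norm_I]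
    have d12 : 1 ≤ dist (1:ℂ) (-1) := by rw [dist_eq_norm]; norm_num
    have d13 : 1 ≤ dist (1:ℂ) (-I) := by
      rw [dist_eq_norm]
      have := abs_re_le_norm (1 - -I)
      simpa using this
    have d23 : 1 ≤ dist (-1:ℂ) (-I) := by
      rw [dist_eq_norm]
      have := abs_re_le_norm (-1 - -I)
      simpa using this
    rcases le_or_gt (dist (1:ℂ) z0) ρ with ha | ha
    · exact hfin (-1) (-I) n2 n3 (hdist _ _ d12 ha) (hdist _ _ d13 ha) h23
    · rcases le_or_gt (dist (-1:ℂ) z0) ρ with hb2 | hb2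
      · exact hfin 1 (-I) n1 n3 ha (hdist _ _ d23 hb2) h13
      · exact hfin 1 (-1) n1 n2 ha hb2 h12
  have h1 := hin z0 hz0 (by rw [dist_self]; exact hρ0)
  have h2 := hin w0 hw0 (by rw [dist_comm]; exact hzw.trans hρ.1)
  have h3 := dist_triangle_right (Φ z0) (Φ w0) c
  linarith

/-- The same on the closed disc. -/
theorem unif_closed {D : Set ℂ} {Φ : ℂ → ℂ} (hΦ : IsCar D Φ) {A δ ε : ℝ}
    (hA0 : 0 < A) (hAv : volume D ≤ ENNReal.ofReal A) (hδ : 0 < δ)
    (hfar : ∀ (c : ℂ) (K : Set ℂ), IsCompact K → K ⊆ closedBall c δ → ∀ z ∈ D, ∀ w ∈ D,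
      ε < dist z c → ε < dist w c → JoinedIn (D \ K) z w)
    (h12 : 2 * ε < dist (Φ 1) (Φ (-1))) (h13 : 2 * ε < dist (Φ 1) (Φ (-I)))
    (h23 : 2 * ε < dist (Φ (-1)) (Φ (-I))) :
    ∀ z ∈ closedBall (0:ℂ) 1, ∀ w ∈ closedBall (0:ℂ) 1, dist z w < rr A δ →
      dist (Φ z) (Φ w) ≤ 2 * ε := by
  intro z hz w hw hzw
  have key := unif_explicit hΦ hA0 hAv hδ hfar h12 h13 h23
  have hs : ∀ u ∈ closedBall (0:ℂ) 1, Tendsto (fun t : ℝ => (t : ℂ) * u) (𝓝[Ioo 0 1] (1:ℝ))
      (𝓝[closedBall 0 1] u) := by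
    intro u hu
    rw [tendsto_nhdsWithin_iff]
    constructor
    · have h1 : Continuous (fun t : ℝ => (t : ℂ) * u) := by fun_prop
      have h2 := (h1.tendsto 1).mono_left (nhdsWithin_le_nhds (s := Ioo (0:ℝ) 1))
      simpa using h2
    · filter_upwards [self_mem_nhdsWithin] with t ht
      rw [mem_closedBall_zero_iff] at hu ⊢
      rw [norm_mul, norm_real, Real.norm_of_nonneg ht.1.le]
      nlinarith [ht.2, norm_nonneg u, ht.1]
  have hne : (𝓝[Ioo (0:ℝ) 1] (1:ℝ)).NeBot := by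
    rw [← mem_closure_iff_nhdsWithin_neBot, closure_Ioo (by norm_num)]
    exact ⟨zero_le_one, le_rfl⟩
  have h1 : Tendsto (fun t : ℝ => dist (Φ (t * z)) (Φ (t * w))) (𝓝[Ioo 0 1] (1:ℝ))
      (𝓝 (dist (Φ z) (Φ w))) :=
    (((hΦ.cont z hz).tendsto).comp (hs z hz)).dist (((hΦ.cont w hw).tendsto).comp (hs w hw))
  refine le_of_tendsto h1 ?_
  filter_upwards [self_mem_nhdsWithin] with t ht
  have hm : ∀ u ∈ closedBall (0:ℂ) 1, (t : ℂ) * u ∈ ball (0:ℂ) 1 := by
    intro u hu
    rw [mem_closedBall_zero_iff] at hu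
    rw [mem_ball_zero_iff, norm_mul, norm_real, Real.norm_of_nonneg ht.1.le]
    nlinarith [ht.2, norm_nonneg u, ht.1]
  apply key _ (hm z hz) _ (hm w hw)
  rw [dist_eq_norm, ← mul_sub, norm_mul, norm_real, Real.norm_of_nonneg ht.1.le, ← dist_eq_norm]
  have : t * dist z w ≤ 1 * dist z w := mul_le_mul_of_nonneg_right ht.2.le dist_nonneg
  linarith

end Pool.Agent.H19.Rado
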